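import Pool.Agent.LibPK60.Defs

/-!
[PK60 D2] D is a locally nilpotent derivation. Plan:
Conventions (Defs.lean): a chain `f` stands for the sum of `f(J) e_J` over the subsets `J`; `kd g` is the Koszul differential (contraction, `e_j` goes to `g_j`, sign `sg j J` = (-1)^(number of `i` in `J` below `j`)); `kh j` is multiplication by `e_j`.
`DD x a` is the derivation with `dx x` (derivative in the direction `x`) on the coefficients and `e_j ↦ a_j e_(j-1)`.
`DD_add`, `DD_mul`: `dx x` is a derivation (`pderiv` is one; `Derivation.leibniz`), the exterior part is linear over the polynomials. `DD_nilp`: for a chain `f` let the weight of a monomial `α` in `f J` be `∑ i, α i + ∑_(j in J) j.val`. Every monomial of `DD f` has weight smaller by at least one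
than some monomial of `f`: `dx` lowers the degree of the monomial by one, the second part replaces `j` in `J` by `j - 1`. So by induction on the bound `w` of the weights (`∀ J α, coeff α (f J) ≠ 0 → weight < w`), `(DD x a)^[w] f = 0`.
-/

open scoped Classical
open MvPolynomial

set_option linter.unusedSectionVars false

namespace Pool.Agent.LibPK60

variable {κ : Type} [Field κ] {n M : ℕ}

private theorem dx_add' (x : Fin n → κ) (f f' : MvPolynomial (Fin n) κ) :
    dx x (f + f') = dx x f + dx x f' := by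
  unfold dx
  rw [← Finset.sum_add_distrib]
  refine Finset.sum_congr rfl fun i _ => ?_
  rw [map_add, mul_add]

private theorem dx_mul' (x : Fin n → κ) (h f : MvPolynomial (Fin n) κ) :
    dx x (h * f) = dx x h * f + h * dx x f := by
  unfold dx
  rw [Finset.sum_mul, Finset.mul_sum, ← Finset.sum_add_distrib]
  refine Finset.sum_congr rfl fun i _ => ?_
  rw [pderiv_mul]
  ring

/-- the weight of a monomial of a chain -/
private def wt (J : Finset (Fin M)) (α : Fin n →₀ ℕ) : ℕ := (∑ i, α i) + ∑ j ∈ J, j.val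

private theorem coeff_pderiv_ne (i : Fin n) (g : MvPolynomial (Fin n) κ) (α : Fin n →₀ ℕ)
    (h : coeff α (pderiv i g) ≠ 0) :
    ∃ m : Fin n →₀ ℕ, coeff m g ≠ 0 ∧ (∑ t, m t) = (∑ t, α t) + 1 := by
  rw [g.as_sum, map_sum, coeff_sum] at h
  obtain ⟨m, hm, hne⟩ := Finset.exists_ne_zero_of_sum_ne_zero h
  rw [pderiv_monomial, coeff_monomial] at hne
  by_cases he : m - Finsupp.single i 1 = α
  · rw [if_pos he] at hne
    have hmi : m i ≠ 0 := by
      intro h0
      apply hne
      rw [h0]
      simp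
    refine ⟨m, mem_support_iff.mp hm, ?_⟩
    have hadd : m = α + Finsupp.single i 1 := by
      rw [← he]
      refine (tsub_add_cancel_of_le ?_).symm
      rw [Finsupp.single_le_iff]
      omega
    have h1 : ∀ t, m t = α t + (Finsupp.single i 1 : Fin n →₀ ℕ) t := fun t => by
      rw [← Finsupp.add_apply, ← hadd]
    rw [Finset.sum_congr rfl fun t _ => h1 t, Finset.sum_add_distrib]
    congr 1
    rw [Finset.sum_eq_single i]
    · simp
    · intro b _ hb
      exact Finsupp.single_eq_of_ne hb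
    · intro hi
      exact absurd (Finset.mem_univ i) hi
  · rw [if_neg he] at hne
    exact absurd rfl hne

private theorem coeff_dx_ne (x : Fin n → κ) (g : MvPolynomial (Fin n) κ) (α : Fin n →₀ ℕ)
    (h : coeff α (dx x g) ≠ 0) :
    ∃ m : Fin n →₀ ℕ, coeff m g ≠ 0 ∧ (∑ t, m t) = (∑ t, α t) + 1 := by
  unfold dx at h
  rw [coeff_sum] at h
  obtain ⟨i, _, hne⟩ := Finset.exists_ne_zero_of_sum_ne_zero h
  rw [coeff_C_mul] at hne
  exact coeff_pderiv_ne i g α (right_ne_zero_of_mul hne)

private theorem DD_wt (x : Fin n → κ) (a : Fin M → ℕ) (f : Ch κ n M) (w : ℕ)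
    (hf : ∀ J α, coeff α (f J) ≠ 0 → wt J α < w + 1) :
    ∀ J α, coeff α (DD x a f J) ≠ 0 → wt J α < w := by
  intro J α h
  unfold DD at h
  rw [coeff_add] at h
  by_cases h1 : coeff α (dx x (f J)) = 0
  · rw [h1, zero_add, coeff_sum] at h
    obtain ⟨i, _, hi⟩ := Finset.exists_ne_zero_of_sum_ne_zero h
    rw [coeff_sum] at hi
    obtain ⟨j, _, hj⟩ := Finset.exists_ne_zero_of_sum_ne_zero hi
    by_cases hc : i.val + 1 = j.val ∧ i ∈ J ∧ j ∉ J
    · rw [if_pos hc] at hj
      obtain ⟨hij, hiJ, hjJ⟩ := hc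
      have e1 : ((a j : ℕ) : MvPolynomial (Fin n) κ) = C ((a j : ℕ) : κ) := by
        rw [map_natCast]
      rw [e1, coeff_C_mul] at hj
      have h2 := hf _ _ (right_ne_zero_of_mul hj)
      unfold wt at h2 ⊢
      have hjE : j ∉ J.erase i := fun hh => hjJ (Finset.mem_of_mem_erase hh)
      rw [Finset.sum_insert hjE] at h2
      have h3 := Finset.add_sum_erase J (fun t : Fin M => t.val) hiJ
      omega
    · rw [if_neg hc] at hj
      exact absurd (coeff_zero α) hj
  · obtain ⟨m, hm, hs⟩ := coeff_dx_ne x (f J) α h1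
    have h2 := hf J m hm
    unfold wt at h2 ⊢
    omega

private theorem DD_iter_zero (x : Fin n → κ) (a : Fin M → ℕ) (w : ℕ) :
    ∀ f : Ch κ n M, (∀ J α, coeff α (f J) ≠ 0 → wt J α < w) → (DD x a)^[w] f = 0 := by
  induction w with
  | zero =>
    intro f hf
    rw [Function.iterate_zero, id_eq]
    funext J
    refine MvPolynomial.ext _ _ fun α => ?_
    by_contra hne
    have : coeff α (f J) ≠ 0 := by
      intro h0
      apply hne
      rw [h0]
      simp
    exact absurd (hf J α this) (Nat.not_lt_zero _)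
  | succ w ih =>
    intro f hf
    rw [Function.iterate_succ_apply]
    exact ih _ (DD_wt x a f w hf)

theorem DD_add (x : Fin n → κ) (a : Fin M → ℕ) (f f' : Ch κ n M) :
    DD x a (f + f') = DD x a f + DD x a f' := by
  funext J
  have e : DD x a (f + f') J = dx x ((f + f') J) + ∑ i : Fin M, ∑ j : Fin M,
    if i.val + 1 = j.val ∧ i ∈ J ∧ j ∉ J then (a j : MvPolynomial (Fin n) κ) *
      (f + f') (insert j (J.erase i)) else 0 := rfl
  have e1 : DD x a f J = dx x (f J) + ∑ i : Fin M, ∑ j : Fin M,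
    if i.val + 1 = j.val ∧ i ∈ J ∧ j ∉ J then (a j : MvPolynomial (Fin n) κ) *
      f (insert j (J.erase i)) else 0 := rfl
  have e2 : DD x a f' J = dx x (f' J) + ∑ i : Fin M, ∑ j : Fin M,
    if i.val + 1 = j.val ∧ i ∈ J ∧ j ∉ J then (a j : MvPolynomial (Fin n) κ) *
      f' (insert j (J.erase i)) else 0 := rfl
  rw [Pi.add_apply, e, e1, e2, Pi.add_apply, dx_add']
  have hs : (∑ i : Fin M, ∑ j : Fin M,
      if i.val + 1 = j.val ∧ i ∈ J ∧ j ∉ J then (a j : MvPolynomial (Fin n) κ) *
        (f + f') (insert j (J.erase i)) else 0) =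
      (∑ i : Fin M, ∑ j : Fin M,
        if i.val + 1 = j.val ∧ i ∈ J ∧ j ∉ J then (a j : MvPolynomial (Fin n) κ) *
          f (insert j (J.erase i)) else 0) +
      ∑ i : Fin M, ∑ j : Fin M,
        if i.val + 1 = j.val ∧ i ∈ J ∧ j ∉ J then (a j : MvPolynomial (Fin n) κ) *
          f' (insert j (J.erase i)) else 0 := by
    rw [← Finset.sum_add_distrib]
    refine Finset.sum_congr rfl fun i _ => ?_
    rw [← Finset.sum_add_distrib]
    refine Finset.sum_congr rfl fun j _ => ?_
    by_cases hc : i.val + 1 = j.val ∧ i ∈ J ∧ j ∉ J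
    · rw [if_pos hc, if_pos hc, if_pos hc, Pi.add_apply, mul_add]
    · rw [if_neg hc, if_neg hc, if_neg hc, add_zero]
  rw [hs]
  ring

theorem DD_mul (x : Fin n → κ) (a : Fin M → ℕ) (h : MvPolynomial (Fin n) κ) (f : Ch κ n M) :
    DD x a (fun J => h * f J) = fun J => dx x h * f J + h * DD x a f J := by
  funext J
  have e : DD x a (fun J => h * f J) J = dx x (h * f J) + ∑ i : Fin M, ∑ j : Fin M,
    if i.val + 1 = j.val ∧ i ∈ J ∧ j ∉ J then (a j : MvPolynomial (Fin n) κ) *
      (h * f (insert j (J.erase i))) else 0 := rfl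
  have e1 : DD x a f J = dx x (f J) + ∑ i : Fin M, ∑ j : Fin M,
    if i.val + 1 = j.val ∧ i ∈ J ∧ j ∉ J then (a j : MvPolynomial (Fin n) κ) *
      f (insert j (J.erase i)) else 0 := rfl
  rw [e]
  show _ = dx x h * f J + h * DD x a f J
  rw [e1, dx_mul']
  have hs : (∑ i : Fin M, ∑ j : Fin M,
      if i.val + 1 = j.val ∧ i ∈ J ∧ j ∉ J then (a j : MvPolynomial (Fin n) κ) *
        (h * f (insert j (J.erase i))) else 0) =
      h * ∑ i : Fin M, ∑ j : Fin M,
        if i.val + 1 = j.val ∧ i ∈ J ∧ j ∉ J then (a j : MvPolynomial (Fin n) κ) *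
          f (insert j (J.erase i)) else 0 := by
    rw [Finset.mul_sum]
    refine Finset.sum_congr rfl fun i _ => ?_
    rw [Finset.mul_sum]
    refine Finset.sum_congr rfl fun j _ => ?_
    by_cases hc : i.val + 1 = j.val ∧ i ∈ J ∧ j ∉ J
    · rw [if_pos hc, if_pos hc]
      ring
    · rw [if_neg hc, if_neg hc, mul_zero]
  rw [hs]
  ring

theorem dx_pow (x : Fin n → κ) (h : MvPolynomial (Fin n) κ) (hh : dx x h = 1) (r : ℕ) :
    dx x (h ^ r) = (r : MvPolynomial (Fin n) κ) * h ^ (r - 1) := by
  induction r with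
  | zero =>
    rw [pow_zero, Nat.cast_zero, zero_mul]
    unfold dx
    refine Finset.sum_eq_zero fun i _ => ?_
    rw [pderiv_one, mul_zero]
  | succ r ih =>
    rw [pow_succ, dx_mul', ih, hh, Nat.add_sub_cancel]
    rcases r with _ | r
    · simp
    · rw [Nat.add_sub_cancel]
      push_cast
      ring

theorem DD_nilp (x : Fin n → κ) (a : Fin M → ℕ) (f : Ch κ n M) :
    ∃ w : ℕ, ∀ r, w ≤ r → (DD x a)^[r] f = 0 := by
  refine ⟨(Finset.univ.sup fun J => (f J).support.sup fun α => wt J α) + 1, fun r hr => ?_⟩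
  refine DD_iter_zero x a r f fun J α h => ?_
  refine lt_of_lt_of_le (Nat.lt_succ_of_le ?_) hr
  refine le_trans ?_ (Finset.le_sup (f := fun J => (f J).support.sup fun α => wt J α)
    (Finset.mem_univ J))
  exact Finset.le_sup (f := fun α => wt J α) (mem_support_iff.mpr h)

end Pool.Agent.LibPK60
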