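import Pool.Agent.LibPK60.Defs

/-!
[PK60 D4] homogeneous components of chains. Plan:
Conventions (Defs.lean): a chain `f` stands for the sum of `f(J) e_J` over the subsets `J`; `kd g` is the Koszul differential (contraction, `e_j` goes to `g_j`, sign `sg j J` = (-1)^(number of `i` in `J` below `j`)); `kh j` is multiplication by `e_j`.
`DD x a` is the derivation with `dx x` (derivative in the direction `x`) on the coefficients and `e_j ↦ a_j e_(j-1)`.
`f' J := if ∑ j ∈ J, δ j ≤ d then homogeneousComponent (d - ∑ j ∈ J, δ j) (f J) else 0` (`coeff_homogeneousComponent`; `∑ i, α i` against `α.degree`: `Finsupp.degree_eq_sum` or similar). `Gr δ d f'` is clear. `kd`: `homogeneousComponent (e + δ_j) (g_j * p) = g_j * homogeneousComponent e p` for `g_j`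
homogeneous of degree `δ_j` (decompose `p` in homogeneous components), and `δ_(insert j J) = δ_J + δ_j`: so `kd g f'` is the component of degree `d` of `kd g f`, which is `kd g f` if this is homogeneous of degree `d`. `DD`: `dx x` maps the component of degree `e + 1` to the component of degree `e` (`pderiv` of monomials), and
`δ_(insert q (J.erase p)) = δ_J + 1` if `a_q ≠ 0`, `p + 1 = q` (`Sys.deg`): so `DD x a f'` is the component of degree `d - 1` of `DD x a f`. It may be convenient to compare coefficients: for every `J`, `α` with `∑ α + δ_J = d` resp. `+ 1 = d` the coefficients of `kd g f'` and `kd g f` (resp. `DD`) agree, and otherwise both are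
zero (the first because `f'` is graded, the second by hypothesis).
-/

open scoped Classical
open MvPolynomial

set_option linter.unusedSectionVars false

namespace Pool.Agent.LibPK60

variable {κ : Type} [Field κ] {n M : ℕ}

private theorem D4_deg_add (α β : Fin n →₀ ℕ) :
    (∑ i, (α + β) i) = (∑ i, α i) + ∑ i, β i := by
  simp [Finset.sum_add_distrib]

/-- the homogeneous component of a chain -/
private noncomputable def D4c (δ : Fin M → ℕ) (d : ℕ) (f : Ch κ n M) : Ch κ n M :=
  fun J => if ∑ j ∈ J, δ j ≤ d then homogeneousComponent (d - ∑ j ∈ J, δ j) (f J) else 0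

private theorem D4c_coeff (δ : Fin M → ℕ) (d : ℕ) (f : Ch κ n M) (J : Finset (Fin M))
    (α : Fin n →₀ ℕ) :
    coeff α (D4c δ d f J) = if (∑ i, α i) + ∑ j ∈ J, δ j = d then coeff α (f J) else 0 := by
  unfold D4c
  by_cases h : ∑ j ∈ J, δ j ≤ d
  · rw [if_pos h, coeff_homogeneousComponent, Finsupp.degree_eq_sum]
    by_cases h2 : (∑ i, α i) + ∑ j ∈ J, δ j = d
    · rw [if_pos (by omega), if_pos h2]
    · rw [if_neg (by omega), if_neg h2]
  · rw [if_neg h, if_neg (by omega), coeff_zero]

private theorem D4_kd (g : Fin M → MvPolynomial (Fin n) κ) (δ : Fin M → ℕ)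
    (hg : ∀ j, (g j).IsHomogeneous (δ j)) (d : ℕ) (f : Ch κ n M) (J : Finset (Fin M))
    (α : Fin n →₀ ℕ) :
    coeff α (kd g (D4c δ d f) J) =
      if (∑ i, α i) + ∑ j ∈ J, δ j = d then coeff α (kd g f J) else 0 := by
  have key : ∀ j ∈ Jᶜ, coeff α (g j * D4c δ d f (insert j J)) =
      if (∑ i, α i) + ∑ j ∈ J, δ j = d then coeff α (g j * f (insert j J)) else 0 := by
    intro j hj
    have hjJ : j ∉ J := Finset.mem_compl.1 hj
    rw [coeff_mul, coeff_mul]
    have e1 : ∀ x ∈ Finset.HasAntidiagonal.antidiagonal α,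
        coeff x.1 (g j) * coeff x.2 (D4c δ d f (insert j J)) =
          if (∑ i, α i) + ∑ j ∈ J, δ j = d then coeff x.1 (g j) * coeff x.2 (f (insert j J))
          else 0 := by
      intro x hx
      have hx' := Finset.HasAntidiagonal.mem_antidiagonal.1 hx
      by_cases h0 : coeff x.1 (g j) = 0
      · rw [h0]
        simp
      · have h1 := hg j h0
        have h2 : ∑ i, x.1 i = δ j := by
          rw [← h1]
          rw [Finsupp.weight_apply]
          simp [Finsupp.sum_fintype]
        rw [D4c_coeff, Finset.sum_insert hjJ, ← hx', D4_deg_add, h2]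
        have e : (∑ i, x.2 i) + (δ j + ∑ j ∈ J, δ j) = δ j + (∑ i, x.2 i) + ∑ j ∈ J, δ j := by
          ring
        rw [e]
        split_ifs <;> simp
    rw [Finset.sum_congr rfl e1]
    split_ifs
    · rfl
    · simp
  unfold kd
  rw [coeff_sum, coeff_sum]
  have e2 : ∀ j ∈ Jᶜ, coeff α (sg j J • (g j • D4c δ d f (insert j J))) =
      if (∑ i, α i) + ∑ j ∈ J, δ j = d then coeff α (sg j J • (g j • f (insert j J))) else 0 := by
    intro j hj
    rw [smul_eq_mul, smul_eq_mul, coeff_smul, coeff_smul, key j hj]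
    split_ifs <;> simp
  rw [Finset.sum_congr rfl e2]
  split_ifs
  · rfl
  · simp

private theorem D4_dx (δ : Fin M → ℕ) (x : Fin n → κ) (d : ℕ) (f : Ch κ n M)
    (J : Finset (Fin M)) (α : Fin n →₀ ℕ) :
    coeff α (dx x (D4c δ d f J)) =
      if (∑ i, α i) + ∑ j ∈ J, δ j + 1 = d then coeff α (dx x (f J)) else 0 := by
  unfold dx
  rw [coeff_sum, coeff_sum]
  have e2 : ∀ i ∈ (Finset.univ : Finset (Fin n)), coeff α (C (x i) * pderiv i (D4c δ d f J)) =
      if (∑ i, α i) + ∑ j ∈ J, δ j + 1 = d then coeff α (C (x i) * pderiv i (f J)) else 0 := by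
    intro i _
    have e3 : (∑ i', (α + Finsupp.single i 1 : Fin n →₀ ℕ) i') = (∑ i, α i) + 1 := by
      rw [D4_deg_add]
      congr 1
      simp [Finsupp.single_apply]
    rw [coeff_C_mul, coeff_C_mul, coeff_pderiv, coeff_pderiv, D4c_coeff, e3]
    have e4 : (∑ i, α i) + 1 + ∑ j ∈ J, δ j = (∑ i, α i) + ∑ j ∈ J, δ j + 1 := by ring
    rw [e4]
    split_ifs <;> simp
  rw [Finset.sum_congr rfl e2]
  split_ifs
  · rfl
  · simp

private theorem D4_DD (g : Fin M → MvPolynomial (Fin n) κ) (δ : Fin M → ℕ) (x : Fin n → κ)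
    (a : Fin M → ℕ) (hs : Sys g δ x a) (d : ℕ) (f : Ch κ n M) (J : Finset (Fin M))
    (α : Fin n →₀ ℕ) :
    coeff α (DD x a (D4c δ d f) J) =
      if (∑ i, α i) + ∑ j ∈ J, δ j + 1 = d then coeff α (DD x a f J) else 0 := by
  have key : ∀ i j : Fin M, coeff α (if i.val + 1 = j.val ∧ i ∈ J ∧ j ∉ J then
      (a j : MvPolynomial (Fin n) κ) * D4c δ d f (insert j (J.erase i)) else 0) =
      if (∑ i, α i) + ∑ j ∈ J, δ j + 1 = d then coeff α (if i.val + 1 = j.val ∧ i ∈ J ∧ j ∉ J then
      (a j : MvPolynomial (Fin n) κ) * f (insert j (J.erase i)) else 0) else 0 := by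
    intro i j
    by_cases h : i.val + 1 = j.val ∧ i ∈ J ∧ j ∉ J
    · rw [if_pos h, if_pos h]
      obtain ⟨h1, h2, h3⟩ := h
      by_cases ha : a j = 0
      · rw [ha]
        simp
      · have h4 := hs.deg i j h1 ha
        have h5 : ∑ l ∈ insert j (J.erase i), δ l = ∑ l ∈ J, δ l + 1 := by
          rw [Finset.sum_insert (fun h => h3 (Finset.mem_of_mem_erase h))]
          have := Finset.add_sum_erase J δ h2
          omega
        have h6 : ∀ p : MvPolynomial (Fin n) κ,
            coeff α ((a j : MvPolynomial (Fin n) κ) * p) = (a j : κ) * coeff α p := by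
          intro p
          rw [← map_natCast (C : κ →+* MvPolynomial (Fin n) κ), coeff_C_mul]
        rw [h6, h6, D4c_coeff, h5, ← add_assoc]
        split_ifs <;> simp
    · rw [if_neg h, if_neg h]
      simp
  unfold DD
  rw [coeff_add, coeff_add, D4_dx, coeff_sum, coeff_sum]
  have e1 : ∀ i ∈ (Finset.univ : Finset (Fin M)), coeff α (∑ j : Fin M,
      if i.val + 1 = j.val ∧ i ∈ J ∧ j ∉ J then
      (a j : MvPolynomial (Fin n) κ) * D4c δ d f (insert j (J.erase i)) else 0) =
      if (∑ i, α i) + ∑ j ∈ J, δ j + 1 = d then coeff α (∑ j : Fin M,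
      if i.val + 1 = j.val ∧ i ∈ J ∧ j ∉ J then
      (a j : MvPolynomial (Fin n) κ) * f (insert j (J.erase i)) else 0) else 0 := by
    intro i _
    rw [coeff_sum, coeff_sum, Finset.sum_congr rfl fun j _ => key i j]
    split_ifs
    · rfl
    · simp
  rw [Finset.sum_congr rfl e1]
  split_ifs
  · rfl
  · simp

theorem exists_comp (g : Fin M → MvPolynomial (Fin n) κ) (δ : Fin M → ℕ) (x : Fin n → κ)
    (a : Fin M → ℕ) (hs : Sys g δ x a) (d : ℕ) (f : Ch κ n M) :
    ∃ f' : Ch κ n M, Gr δ d f' ∧ (Gr δ d (kd g f) → kd g f' = kd g f) ∧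
      ((∀ J α, coeff α (DD x a f J) ≠ 0 → (∑ i, α i) + ∑ j ∈ J, δ j + 1 = d) →
        DD x a f' = DD x a f) := by
  refine ⟨D4c δ d f, ?_, ?_, ?_⟩
  · intro J α h
    rw [D4c_coeff] at h
    by_contra h2
    rw [if_neg h2] at h
    exact h rfl
  · intro h
    funext J
    ext α
    rw [D4_kd g δ hs.hom]
    split_ifs with h2
    · rfl
    · by_contra h3
      exact h2 (h J α (fun h4 => h3 h4.symm))
  · intro h
    funext J
    ext α
    rw [D4_DD g δ x a hs]
    split_ifs with h2
    · rfl
    · by_contra h3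
      exact h2 (h J α (fun h4 => h3 h4.symm))

end Pool.Agent.LibPK60
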