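import Pool.Agent.LibPK60.D3
import Pool.Agent.LibPK60.D4

/-!
[PK60 D5] exactness of the cone. Plan:
Conventions (Defs.lean): a chain `f` stands for the sum of `f(J) e_J` over the subsets `J`; `kd g` is the Koszul differential (contraction, `e_j` goes to `g_j`, sign `sg j J` = (-1)^(number of `i` in `J` below `j`)); `kh j` is multiplication by `e_j`.
`DD x a` is the derivation with `dx x` (derivative in the direction `x`) on the coefficients and `e_j ↦ a_j e_(j-1)`.
`cd (A, B) = (kd A, DD A - kd B)` with `A = F false`, `B = F true`. Cycle: `kd A = 0`, `DD A = kd B`. Choose `b` with `DD b = B` (`exists_anti`). `A₁ := A - kd b` satisfies `DD A₁ = DD A - kd (DD b) = 0` (`DD_kd`) and `kd A₁ = 0`. It need not be graded; but replace first `b` by its component of degree `d`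
(`exists_comp`: `DD b = B` has the degrees `∑ α + δ_J + 1 = d` by `hF`), so `b` is graded of degree `d` and so is `kd b` and `A₁` (a small lemma: `Gr δ d f → Gr δ d (kd g f)`). By `hdec`: `A₁ = kd u + h v`. Apply the projection `π` (`exists_proj`): `A₁ = π A₁ = π (kd u) + 0 = kd (π u)`, `DD (π u) = 0`. Put `A' = b + π u`:
`kd A' = A`, `DD A' = B`. Replace `A'` by its component of degree `d` (`exists_comp`), and put `F' false = A'`, `F' true = 0`: `cd F' = (kd A', DD A' - 0) = F`.
-/

open scoped Classical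
open MvPolynomial

set_option linter.unusedSectionVars false

namespace Pool.Agent.LibPK60

variable {κ : Type} [Field κ] {n M : ℕ}

private theorem d5_gr_kd (g : Fin M → MvPolynomial (Fin n) κ) (δ : Fin M → ℕ)
    (x : Fin n → κ) (a : Fin M → ℕ) (hs : Sys g δ x a) (d : ℕ) (f : Ch κ n M)
    (hf : Gr δ d f) : Gr δ d (kd g f) := by
  intro J α hα
  have h1 : ∃ j ∈ Jᶜ, coeff α (sg j J • (g j • f (insert j J))) ≠ 0 := by
    by_contra hne
    push Not at hne
    apply hα
    unfold kd
    rw [MvPolynomial.coeff_sum]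
    exact Finset.sum_eq_zero hne
  obtain ⟨j, hj, h2⟩ := h1
  have hj' : j ∉ J := by simpa using hj
  have h3 : coeff α (g j * f (insert j J)) ≠ 0 := by
    intro h0
    apply h2
    rw [MvPolynomial.coeff_smul, smul_eq_mul, h0, smul_zero]
  rw [MvPolynomial.coeff_mul] at h3
  obtain ⟨⟨β, γ⟩, hβγ, h4⟩ := Finset.exists_ne_zero_of_sum_ne_zero h3
  rw [Finset.HasAntidiagonal.mem_antidiagonal] at hβγ
  simp only at hβγ h4
  have h5 : coeff β (g j) ≠ 0 := left_ne_zero_of_mul h4
  have h6 : coeff γ (f (insert j J)) ≠ 0 := right_ne_zero_of_mul h4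
  have h7 : β.degree = δ j := by
    rw [Finsupp.degree_eq_weight_one]
    exact hs.hom j h5
  have h8 := hf _ _ h6
  rw [Finset.sum_insert hj'] at h8
  have h9 : ∑ i, β i = δ j := by
    rw [← h7, Finsupp.degree_eq_sum]
  have h10 : ∑ i, α i = ∑ i, β i + ∑ i, γ i := by
    rw [← hβγ, ← Finset.sum_add_distrib]
    rfl
  omega

theorem cone_exact [CharZero κ] (g : Fin M → MvPolynomial (Fin n) κ) (δ : Fin M → ℕ)
    (x : Fin n → κ) (a : Fin M → ℕ) (hs : Sys g δ x a) (h : MvPolynomial (Fin n) κ)
    (hh : dx x h = 1) (d : ℕ)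
    (hdec : ∀ f : Ch κ n M, kd g f = 0 → Gr δ d f →
      ∃ u v : Ch κ n M, f = kd g u + fun J => h * v J)
    (F : Bool → Ch κ n M) (hF : CGr δ d F) (hc : cd g x a F = 0) :
    ∃ F' : Bool → Ch κ n M, CGr δ d F' ∧ cd g x a F' = F := by
  have hA : kd g (F false) = 0 := by
    have := congrFun hc false
    simpa [cd] using this
  have hB : DD x a (F false) = kd g (F true) := by
    have := congrFun hc true
    simp only [cd, if_true, Pi.zero_apply] at this
    exact sub_eq_zero.mp this
  have gA : Gr δ d (F false) := by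
    intro J α hα
    have := hF false J α hα
    simpa using this
  have gB : ∀ J α, coeff α (F true J) ≠ 0 → (∑ i, α i) + ∑ j ∈ J, δ j + 1 = d := by
    intro J α hα
    have := hF true J α hα
    simpa using this
  obtain ⟨b0, hb0⟩ := exists_anti x a h hh (F true)
  obtain ⟨b, gb, -, hb2⟩ := exists_comp g δ x a hs d b0
  have hb : DD x a b = F true := by
    rw [hb2 (by rw [hb0]; exact gB), hb0]
  have hkb : Gr δ d (kd g b) := d5_gr_kd g δ x a hs d b gb
  obtain ⟨A1, hA1⟩ : ∃ A1, A1 = F false - kd g b := ⟨_, rfl⟩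
  have e1 : A1 + kd g b = F false := by rw [hA1]; abel
  have hDA1 : DD x a A1 = 0 := by
    have h1 := DD_add x a A1 (kd g b)
    rw [e1, DD_kd g δ x a hs, hb, hB] at h1
    exact (left_eq_add.mp (by rw [add_comm]; exact h1) : DD x a A1 = 0)
  have hkA1 : kd g A1 = 0 := by
    have h1 := kd_add g A1 (kd g b)
    rw [e1, kd_kd, hA, add_zero] at h1
    exact h1.symm
  have gA1 : Gr δ d A1 := by
    intro J α hα
    by_cases h1 : coeff α (F false J) = 0
    · refine hkb J α fun h2 => hα ?_
      rw [hA1, Pi.sub_apply, MvPolynomial.coeff_sub, h1, h2, sub_zero]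
    · exact gA J α h1
  obtain ⟨u, v, huv⟩ := hdec A1 hkA1 gA1
  obtain ⟨π, π1, π2, π3, π4, π5⟩ := exists_proj g δ x a hs h hh
  have h1 : kd g (π u) = A1 := by
    rw [← π5]
    have h2 := π3 A1 hDA1
    rw [huv, π1, π4, add_zero] at h2
    rw [h2, ← huv]
  have h2 : kd g (b + π u) = F false := by
    rw [kd_add, h1, add_comm, e1]
  have h3 : DD x a (b + π u) = F true := by
    rw [DD_add, hb, π2, add_zero]
  obtain ⟨A', gA', hA'1, hA'2⟩ := exists_comp g δ x a hs d (b + π u)
  rw [h2] at hA'1
  rw [h3] at hA'2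
  refine ⟨fun c => if c = true then 0 else A', ?_, ?_⟩
  · intro c J α hα
    cases c
    · simp only [Bool.false_eq_true, if_false] at hα ⊢
      exact gA' J α hα
    · simp at hα
  · funext c
    cases c
    · simp only [cd, Bool.false_eq_true, if_false]
      exact hA'1 gA
    · have h4 : kd g (0 : Ch κ n M) = 0 := by
        funext J
        simp [kd]
      simp only [cd, if_true, Bool.false_eq_true, if_false]
      rw [h4, hA'2 gB, sub_zero]

end Pool.Agent.LibPK60
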