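import Mathlib

/-!
Koszul complexes of forms: the differential, the derivation `D` in the direction of a vector `x`, the
cone of `D`, and its matrix in a fixed degree.
-/

open scoped Classical
open MvPolynomial

set_option linter.unusedSectionVars false

namespace Pool.Agent.LibPK60

/-- the sign of `e_j` in front of `e_J` -/
noncomputable def sg {M : ℕ} (j : Fin M) (J : Finset (Fin M)) : ℤ :=
  (-1) ^ (J.filter fun i => i < j).card

section general
variable {S Q : Type} [CommRing S] [AddCommGroup Q] [Module S Q] {M : ℕ}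

/-- The Koszul differential of `g_0, ..., g_(M-1)` with coefficients in `Q`: a chain `f` stands for
`∑ f(J) e_J`, and `e_j ↦ g_j`. -/
noncomputable def kd (g : Fin M → S) (f : Finset (Fin M) → Q) : Finset (Fin M) → Q :=
  fun J => ∑ j ∈ Jᶜ, sg j J • (g j • f (insert j J))

/-- multiplication by `e_j` -/
noncomputable def kh (j : Fin M) (f : Finset (Fin M) → Q) : Finset (Fin M) → Q :=
  fun J => if j ∈ J then sg j (J.erase j) • f (J.erase j) else 0

/-- Every cycle with components of exterior degree at least `s` is the boundary of a chain with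
components of exterior degree at least `s + 1`. -/
def Acy (g : Fin M → S) (Q : Type) [AddCommGroup Q] [Module S Q] (s : ℕ) : Prop :=
  ∀ f : Finset (Fin M) → Q, kd g f = 0 → (∀ J, J.card < s → f J = 0) →
    ∃ f' : Finset (Fin M) → Q, (∀ J, J.card < s + 1 → f' J = 0) ∧ kd g f' = f

end general

variable {κ : Type} [Field κ] {n M : ℕ}

/-- chains with polynomial coefficients -/
abbrev Ch (κ : Type) [Field κ] (n M : ℕ) : Type := Finset (Fin M) → MvPolynomial (Fin n) κ

/-- the derivative in the direction `x` -/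
noncomputable def dx (x : Fin n → κ) (f : MvPolynomial (Fin n) κ) : MvPolynomial (Fin n) κ :=
  ∑ i, C (x i) * pderiv i f

/-- The derivation `D` of chains: the derivative in the direction `x` on the coefficients, and
`e_j ↦ a_j e_(j-1)`. -/
noncomputable def DD (x : Fin n → κ) (a : Fin M → ℕ) (f : Ch κ n M) : Ch κ n M :=
  fun J => dx x (f J) + ∑ i : Fin M, ∑ j : Fin M,
    if i.val + 1 = j.val ∧ i ∈ J ∧ j ∉ J then (a j : MvPolynomial (Fin n) κ) *
      f (insert j (J.erase i)) else 0

/-- the chain is homogeneous of degree `d`, where `e_j` has degree `δ_j` -/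
def Gr (δ : Fin M → ℕ) (d : ℕ) (f : Ch κ n M) : Prop :=
  ∀ J α, coeff α (f J) ≠ 0 → (∑ i, α i) + ∑ j ∈ J, δ j = d

/-- The data: forms `g_j` of degree `δ_j` with `D g_j = a_j g_(j-1)`. -/
structure Sys (g : Fin M → MvPolynomial (Fin n) κ) (δ : Fin M → ℕ) (x : Fin n → κ)
    (a : Fin M → ℕ) : Prop where
  pos : ∀ j, 0 < δ j
  hom : ∀ j, (g j).IsHomogeneous (δ j)
  dx0 : ∀ j : Fin M, j.val = 0 → dx x (g j) = 0
  dx1 : ∀ i j : Fin M, i.val + 1 = j.val → dx x (g j) = (a j : MvPolynomial (Fin n) κ) * g i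
  deg : ∀ i j : Fin M, i.val + 1 = j.val → a j ≠ 0 → δ j = δ i + 1

/-- the differential of the cone of `D` -/
noncomputable def cd (g : Fin M → MvPolynomial (Fin n) κ) (x : Fin n → κ) (a : Fin M → ℕ)
    (F : Bool → Ch κ n M) : Bool → Ch κ n M :=
  fun b => if b = true then DD x a (F false) - kd g (F true) else kd g (F false)

/-- degree of the elements of the cone -/
def CGr (δ : Fin M → ℕ) (d : ℕ) (F : Bool → Ch κ n M) : Prop :=
  ∀ b J α, coeff α (F b J) ≠ 0 → (∑ i, α i) + ∑ j ∈ J, δ j + (if b = true then 1 else 0) = d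

/-- the monomial basis of the cone in degree `d` -/
def Ix (n : ℕ) {M : ℕ} (δ : Fin M → ℕ) (d : ℕ) : Type :=
  {t : Bool × Finset (Fin M) × (Fin n →₀ ℕ) //
    (∑ i, t.2.2 i) + ∑ j ∈ t.2.1, δ j + (if t.1 = true then 1 else 0) = d}

instance ix_finite {n M : ℕ} (δ : Fin M → ℕ) (d : ℕ) : Finite (Ix n δ d) := by
  have hb : ∀ (t : Ix n δ d) (i : Fin n), t.1.2.2 i < d + 1 := by
    intro t i
    have h1 := t.2
    have h2 : t.1.2.2 i ≤ ∑ i, t.1.2.2 i :=
      Finset.single_le_sum (f := fun i => t.1.2.2 i) (fun _ _ => Nat.zero_le _) (Finset.mem_univ i)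
    omega
  refine Finite.of_injective (β := Bool × Finset (Fin M) × (Fin n → Fin (d + 1)))
    (fun t => (t.1.1, t.1.2.1, fun i => ⟨t.1.2.2 i, hb t i⟩)) ?_
  intro t t' h
  simp only [Prod.mk.injEq] at h
  obtain ⟨h1, h2, h3⟩ := h
  refine Subtype.ext (Prod.ext h1 (Prod.ext h2 (Finsupp.ext fun i => ?_)))
  have := congrFun h3 i
  simpa using congrArg Fin.val this

noncomputable instance ix_fintype {n M : ℕ} (δ : Fin M → ℕ) (d : ℕ) : Fintype (Ix n δ d) :=
  Fintype.ofFinite _

/-- the parity of a basis element -/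
def par {n M : ℕ} {δ : Fin M → ℕ} {d : ℕ} (t : Ix n δ d) : Bool :=
  decide ((t.1.2.1.card + (if t.1.1 = true then 1 else 0)) % 2 = 1)

/-- the basis elements -/
noncomputable def bas (κ : Type) [Field κ] {n M : ℕ} {δ : Fin M → ℕ} {d : ℕ} (t : Ix n δ d) :
    Bool → Ch κ n M :=
  fun b J => if b = t.1.1 ∧ J = t.1.2.1 then monomial t.1.2.2 1 else 0

/-- the matrix of the differential of the cone in degree `d` -/
noncomputable def CM (δ : Fin M → ℕ) (d : ℕ) (g : Fin M → MvPolynomial (Fin n) κ) (x : Fin n → κ)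
    (a : Fin M → ℕ) : Matrix (Ix n δ d) (Ix n δ d) κ :=
  fun s t => coeff s.1.2.2 (cd g x a (bas κ t) s.1.1 s.1.2.1)

/-- a matrix which changes the parity -/
def IsOdd {I R : Type} [Zero R] (pr : I → Bool) (A : Matrix I I R) : Prop :=
  ∀ s t, pr s = pr t → A s t = 0

end Pool.Agent.LibPK60
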