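import Pool.Agent.LibPK60.DefsV
import Pool.Agent.LibPN22.Defs

/-!
The forms `Λ_j` and `G_i`, where `F(x + w) = ∑ G_i(w)`, in the fibre coordinates `w`, and the class
`TN`.
-/

open scoped Classical
open MvPolynomial

set_option linter.unusedSectionVars false

namespace Pool.Agent.LibPK60

open Pool.Agent.LibBH2 Pool.Agent.LibQC8 Pool.Agent.LibPC60 Pool.Agent.LibPN22

variable {k J S : Type} [Field k] {c ν : ℕ} {K : Type} [Field K] [Algebra k K]

/-- the polynomial `F(x + w; y)` in `w` -/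
noncomputable def PF (X : Fam k J S c (ν + 1)) (x : Fin (c + (ν + 1)) → K) (y : J → K) :
    MvPolynomial (Fin (c + ν + 1)) K :=
  aeval (Sum.elim (fun i : Fin (c + (ν + 1)) => C (x i) +
    (MvPolynomial.X i : MvPolynomial (Fin (c + ν + 1)) K)) (fun j => C (y j))) X.F

/-- its component `G_i` of degree `i` -/
noncomputable def GG (X : Fam k J S c (ν + 1)) (x : Fin (c + (ν + 1)) → K) (y : J → K) (i : ℕ) :
    MvPolynomial (Fin (c + ν + 1)) K :=
  homogeneousComponent i (PF X x y)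

/-- the linear form `Λ_j(w; y)` in `w` -/
noncomputable def LF (X : Fam k J S c (ν + 1)) (y : J → K) (j : Fin c) :
    MvPolynomial (Fin (c + ν + 1)) K :=
  aeval (Sum.elim (fun i : Fin (c + (ν + 1)) =>
    (MvPolynomial.X i : MvPolynomial (Fin (c + ν + 1)) K)) (fun j => C (y j))) (X.Λ j)

/-- the forms `Λ_0, ..., Λ_(c-1), G_1, ..., G_ν` -/
noncomputable def gs (X : Fam k J S c (ν + 1)) (x : Fin (c + (ν + 1)) → K) (y : J → K) :
    Fin (c + ν) → MvPolynomial (Fin (c + ν + 1)) K :=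
  fun q => if h : q.val < c then LF X y ⟨q.val, h⟩ else GG X x y (q.val - c + 1)

/-- their degrees -/
def ds (c ν : ℕ) : Fin (c + ν) → ℕ := fun q => if q.val < c then 1 else q.val - c + 1

/-- the coefficients `a_q` of `D G_i = (N - i + 1) G_(i-1)`, `N = ν + 1` -/
def as (c ν : ℕ) : Fin (c + ν) → ℕ := fun q => if q.val ≤ c then 0 else ν + 1 - (q.val - c)

/-- the weights of the fibre coordinates -/
noncomputable def mu [Fintype S] (X : Fam k J S c (ν + 1)) (m : S → K) : Fin (c + ν + 1) → K :=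
  fun i => chi 1 m (wt X.fac X.α (Sum.inl (i : Fin (c + (ν + 1)))))

/-- the weights of the forms -/
noncomputable def rh [Fintype S] (X : Fam k J S c (ν + 1)) (l : K) (m : S → K) :
    Fin (c + ν) → K :=
  fun q => if h : q.val < c then chi 1 m ((0, X.γ ⟨q.val, h⟩) : Deg S)
    else l ^ (ν - (q.val - c)) * chi 1 m ((0, X.β) : Deg S)

/-- the scalars for the monomial basis -/
noncomputable def pw {n M : ℕ} (δ : Fin M → ℕ) (d : ℕ) (μ : Fin n → K) (ρ : Fin M → K) (l : K)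
    (t : Ix n δ d) : K :=
  ((∏ i, μ i ^ t.1.2.2 i) * ∏ j ∈ t.1.2.1, ρ j)⁻¹ * (if t.1.1 = true then l else 1)

/-- `Π = ν!` -/
def P0 (ν : ℕ) : ℕ := ∏ i : Fin ν, (i.val + 1)

/-- `∑ ν! / i`, `i = 1, ..., ν` -/
def H0 (ν : ℕ) : ℕ := ∑ j : Fin ν, ∏ i ∈ Finset.univ.erase j, (i.val + 1)

/-- The class `T = ν! ((H - 1) N h_0 + H β + σ)`, `N = ν + 1`, `H = 1 + 1/2 + ... + 1/ν`. -/
def TN (X : Fam k J S c (ν + 1)) : Deg S :=
  (((ν : ℤ) + 1) * ((H0 ν : ℤ) - P0 ν), (H0 ν : ℤ) • X.β + (P0 ν : ℤ) • sig X)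

end Pool.Agent.LibPK60
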