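import Pool.Agent.LibPK60.Defs
import Pool.Agent.LibEnd77.ValC

/-!
Exact reduction of the matrix of a complex at a place.
-/

open scoped Classical
open MvPolynomial

set_option linter.unusedSectionVars false

namespace Pool.Agent.LibPK60

open Pool.Agent.LibBH2 Pool.Agent.LibQC8

/-- After scaling of the basis by the scalars `p_i`, the matrix `D` of the differential has a value
at the place `v`, which is the matrix of an exact complex. -/
structure Good {k K : Type} [Field k] [Field K] [Algebra k K] {I : Type} [Fintype I]
    (v : Place k K) (pr : I → Bool) (D : Matrix I I K) (p : I → K) : Prop where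
  ne : ∀ i, p i ≠ 0
  ex : ∃ C H : Matrix I I k, IsOdd pr C ∧ IsOdd pr H ∧ C * H + H * C = 1 ∧
    ∀ i j, v.Zer (p i * D i j * (p j)⁻¹ - algebraMap k K (C i j))

end Pool.Agent.LibPK60
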