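import Mathlib

/-!
Iterated differences of polynomials over the subsets of a finite set.
-/

open scoped Classical
open Polynomial

namespace Pool.Agent.LibPK60

theorem step_coeff (f : ℚ[X]) (m : ℕ) (hf : f.natDegree ≤ m + 1) (a : ℚ) :
    (f - taylor (-a) f).natDegree ≤ m ∧
      (f - taylor (-a) f).coeff m = (m + 1) * a * f.coeff (m + 1) := by
  have h1 : ∀ j, (taylor (-a) f).coeff j = (hasseDeriv j f).eval (-a) := fun j =>
    taylor_coeff (-a) f j
  have h2 : ∀ j, (hasseDeriv j f).eval (-a) =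
      ∑ i ∈ Finset.range (m + 2), (i.choose j : ℚ) * f.coeff i * (-a) ^ (i - j) := by
    intro j
    rw [hasseDeriv_apply, sum_over_range' f (by simp) (m + 2) (by omega), eval_finsetSum]
    refine Finset.sum_congr rfl fun i _ => ?_
    rw [eval_monomial]
  constructor
  · rw [natDegree_le_iff_coeff_eq_zero]
    intro N hN
    rw [coeff_sub, h1, h2, Finset.sum_eq_single N]
    · simp
    · intro i hi hiN
      rw [Finset.mem_range] at hi
      rw [Nat.choose_eq_zero_of_lt (by omega)]
      simp
    · intro h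
      rw [Finset.mem_range] at h
      rw [coeff_eq_zero_of_natDegree_lt (by omega)]
      simp
  · rw [coeff_sub, h1, h2, Finset.sum_range_succ, Finset.sum_range_succ, Finset.sum_eq_zero]
    · rw [Nat.choose_self, Nat.choose_succ_self_right]
      simp
      ring
    · intro i hi
      rw [Finset.mem_range] at hi
      rw [Nat.choose_eq_zero_of_lt (by omega)]
      simp

/-- the differences of a polynomial of degree at most `|T|` in the directions `δ_j`, `j ∈ T` -/
theorem diffT {ι : Type} (T : Finset ι) (δ : ι → ℚ) (f : ℚ[X]) (hf : f.natDegree ≤ T.card)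
    (x : ℚ) : ∑ J ∈ T.powerset, (-1 : ℚ) ^ J.card * f.eval (x - ∑ j ∈ J, δ j) =
      (T.card.factorial : ℚ) * f.coeff T.card * ∏ j ∈ T, δ j := by
  induction T using Finset.induction_on generalizing f x with
  | empty =>
    rw [Finset.card_empty] at hf
    rw [Finset.powerset_empty, Finset.sum_singleton, Finset.card_empty, Finset.sum_empty,
      Finset.prod_empty, eq_C_of_natDegree_le_zero hf]
    simp
  | insert a T ha ih =>
    rw [Finset.card_insert_of_notMem ha] at hf
    obtain ⟨h1, h2⟩ := step_coeff f T.card hf (δ a)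
    rw [Finset.sum_powerset_insert ha, ← Finset.sum_add_distrib]
    have h3 : ∀ J ∈ T.powerset, (-1 : ℚ) ^ J.card * f.eval (x - ∑ j ∈ J, δ j) +
        (-1 : ℚ) ^ (insert a J).card * f.eval (x - ∑ j ∈ insert a J, δ j) =
        (-1 : ℚ) ^ J.card * (f - taylor (-δ a) f).eval (x - ∑ j ∈ J, δ j) := by
      intro J hJ
      have haJ : a ∉ J := fun h => ha (Finset.mem_powerset.1 hJ h)
      rw [Finset.card_insert_of_notMem haJ, Finset.sum_insert haJ, eval_sub, taylor_eval, pow_succ]
      have : x - (δ a + ∑ j ∈ J, δ j) = x - ∑ j ∈ J, δ j + -δ a := by ring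
      rw [this]
      ring
    rw [Finset.sum_congr rfl h3, ih _ h1 x, h2, Finset.card_insert_of_notMem ha,
      Nat.factorial_succ, Finset.prod_insert ha]
    push_cast
    ring

theorem diff_sum {M : ℕ} (δ : Fin M → ℕ) (d : ℕ) (f : ℚ[X]) (hf : f.natDegree < M) :
    ∑ J : Finset (Fin M), (-1 : ℚ) ^ J.card * f.eval ((d : ℚ) - ∑ j ∈ J, (δ j : ℚ)) = 0 := by
  have h := diffT (Finset.univ : Finset (Fin M)) (fun j => (δ j : ℚ)) f
    (by rw [Finset.card_univ, Fintype.card_fin]; exact hf.le) d
  rw [Finset.card_univ, Fintype.card_fin, coeff_eq_zero_of_natDegree_lt hf, mul_zero,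
    zero_mul] at h
  rw [← h, Finset.powerset_univ]

theorem diff_lead {M : ℕ} (δ : Fin M → ℕ) (d : ℕ) (f : ℚ[X]) (hf : f.natDegree ≤ M) :
    ∑ J : Finset (Fin M), (-1 : ℚ) ^ J.card * f.eval ((d : ℚ) - ∑ j ∈ J, (δ j : ℚ)) =
      (M.factorial : ℚ) * f.coeff M * ∏ j, (δ j : ℚ) := by
  have h := diffT (Finset.univ : Finset (Fin M)) (fun j => (δ j : ℚ)) f
    (by rw [Finset.card_univ, Fintype.card_fin]; exact hf) d
  rw [Finset.card_univ, Fintype.card_fin] at h
  rw [← h, Finset.powerset_univ]

end Pool.Agent.LibPK60
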