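import Pool.Agent.LibPK60.Main

/-!
Linear combinations of classes, the class `LL`, the main theorem.
-/

open scoped Classical
open MvPolynomial

set_option linter.unusedSectionVars false

namespace Pool.Agent.LibPK60

open Pool.Agent.LibBH2 Pool.Agent.LibQC8 Pool.Agent.LibPC60 Pool.Agent.LibPN22

variable {k J S : Type} [Field k] [IsAlgClosed k] [CharZero k] {c ν N : ℕ} [Fintype J] [Fintype S]
  {K : Type} [Field K] [Algebra k K]

/-- linear combinations -/
theorem van_lin (X : Fam k J S c N) (hK : IsFunctionField k K) (ζ : Cyc X) (u : Pt X K)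
    (D D₁ D₂ : Deg S) (n a b : ℤ) (hn : n ≠ 0) (hD : n • D = a • D₁ + b • D₂)
    (h₁ : Van X ζ D₁ u) (h₂ : Van X ζ D₂ u) : Van X ζ D u := by
  intro p l m hs A hA
  have f1 := finite_ord X hK u p l m hs D₁
  have f2 := finite_ord X hK u p l m hs D₂
  set B : Finset (Place k K) := A ∪ (f1.toFinset ∪ f2.toFinset) with hB
  have e1 := h₁ p l m hs B (fun v hv => by
    rw [hB, Finset.mem_union, Finset.mem_union, Set.Finite.mem_toFinset, Set.Finite.mem_toFinset]
    exact Or.inr (Or.inl hv))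
  have e2 := h₂ p l m hs B (fun v hv => by
    rw [hB, Finset.mem_union, Finset.mem_union, Set.Finite.mem_toFinset, Set.Finite.mem_toFinset]
    exact Or.inr (Or.inr hv))
  have hlin : ∀ v : Place k K, (n : ℚ) * (v.ord (chi (l v) (m v) D) : ℚ) =
      a * v.ord (chi (l v) (m v) D₁) + b * v.ord (chi (l v) (m v) D₂) := by
    intro v
    have h3 : ∀ (n : ℤ) (D : Deg S), v.ord (chi (l v) (m v) (n • D)) =
        n * v.ord (chi (l v) (m v) D) := by
      intro n D
      rw [ord_chi v _ _ (hs v).l_ne (hs v).m_ne, ord_chi v _ _ (hs v).l_ne (hs v).m_ne, mul_add,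
        Finset.mul_sum]
      congr 1
      · change (n • D.1) * _ = _
        rw [smul_eq_mul]; ring
      · refine Finset.sum_congr rfl fun t _ => ?_
        change (n • D.2 t) * _ = _
        rw [smul_eq_mul]; ring
    have h4 : ∀ D E : Deg S, v.ord (chi (l v) (m v) (D + E)) =
        v.ord (chi (l v) (m v) D) + v.ord (chi (l v) (m v) E) := by
      intro D E
      rw [chi_add _ _ (hs v).l_ne (hs v).m_ne, v.ord_mul _ _ (chi_ne _ _ (hs v).l_ne (hs v).m_ne _)
        (chi_ne _ _ (hs v).l_ne (hs v).m_ne _)]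
    have h5 := h3 n D
    rw [hD, h4, h3, h3] at h5
    exact_mod_cast h5.symm
  have h3 : ∑ v ∈ B, (v.ord (chi (l v) (m v) D) : ℚ) • del ζ (p v) = 0 := by
    have h4 : (n : ℚ) • ∑ v ∈ B, (v.ord (chi (l v) (m v) D) : ℚ) • del ζ (p v) =
        (a : ℚ) • ∑ v ∈ B, (v.ord (chi (l v) (m v) D₁) : ℚ) • del ζ (p v) +
        (b : ℚ) • ∑ v ∈ B, (v.ord (chi (l v) (m v) D₂) : ℚ) • del ζ (p v) := by
      rw [Finset.smul_sum, Finset.smul_sum, Finset.smul_sum, ← Finset.sum_add_distrib]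
      refine Finset.sum_congr rfl fun v _ => ?_
      rw [smul_smul, smul_smul, smul_smul, ← add_smul, hlin v]
    rw [e1, e2, smul_zero, smul_zero, add_zero, smul_eq_zero] at h4
    rcases h4 with h4 | h4
    · exact absurd (by exact_mod_cast h4) hn
    · exact h4
  rw [← h3]
  refine Finset.sum_subset Finset.subset_union_left ?_
  intro v _ hv
  have h4 : v.ord (chi (l v) (m v) D) = 0 := by
    by_contra h5
    exact hv (hA v h5)
  rw [h4]
  simp

theorem P0_pos (ν : ℕ) : 0 < P0 ν := by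
  unfold P0
  exact Finset.prod_pos fun i _ => Nat.succ_pos _

/-- The class `LL`. -/
theorem van_LL (X : Fam k J S c (ν + 1)) (hν : 2 ≤ ν) (hK : IsFunctionField k K) (ζ : Cyc X)
    (hζ : IsZ X ζ) (u : Pt X K) : Van X ζ (LL X) u := by
  refine van_lin X hK ζ u (LL X) (TN X) (NN X) (P0 ν) 1 (-((H0 ν : ℤ) - P0 ν)) ?_ ?_
    (van_TN X hK ζ hζ u) (van_all X (by omega) hK ζ hζ u)
  · have := P0_pos ν
    omega
  · refine Prod.ext ?_ (funext fun t => ?_)
    · simp only [TN, LL, NN, Prod.smul_fst, Prod.fst_add, smul_eq_mul, mul_zero]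
      push_cast
      ring
    · simp only [TN, LL, NN, Prod.smul_snd, Prod.snd_add, Pi.smul_apply, Pi.add_apply, smul_eq_mul]
      ring

theorem TN_one (X : Fam k J S c (1 + 1)) : TN X = LL X := by
  have h1 : P0 1 = 1 := by simp [P0]
  have h2 : H0 1 = 1 := by simp [H0]
  refine Prod.ext ?_ (funext fun t => ?_)
  · simp only [TN, LL, h1, h2, sub_self, mul_zero]
  · simp only [TN, LL, h1, h2, Pi.add_apply, Pi.smul_apply, smul_eq_mul]
    push_cast
    ring

theorem van_LL' (X : Fam k J S c N) (hN : 2 ≤ N) (hK : IsFunctionField k K) (ζ : Cyc X)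
    (hζ : IsZ X ζ) (u : Pt X K) : Van X ζ (LL X) u := by
  obtain ⟨ν, rfl⟩ : ∃ ν, N = ν + 1 := ⟨N - 1, by omega⟩
  by_cases hν : ν = 1
  · subst hν
    rw [← TN_one X]
    exact van_TN X hK ζ hζ u
  · exact van_LL X (by omega) hK ζ hζ u

/-- The main theorem. -/
theorem main_all (X : Fam k J S c N) (hN : 2 ≤ N) (hB : RCC X) (y : BPt X k) :
    ∃ ζ : Cyc X, dg ζ = N ∧
      ∀ (K : Type) [Field K] [Algebra k K], IsFunctionField k K → ∀ (u : Pt X K) (D : Deg S),
        (∃ n a b : ℤ, n ≠ 0 ∧ (N = 2 → a = 0) ∧ n • D = a • ((N : ℤ), X.β) + b • LL X) →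
        (∃ a, IsInt D u a) ∧ ∀ a, IsInt D u a → (N : ℚ) • cl a = dg a • cl ζ := by
  obtain ⟨ζ, hζ3, hζ⟩ := zconst X hN hB y
  refine ⟨ζ, hζ3, ?_⟩
  intro K _ _ hK u D hD
  refine ⟨exists_int X hK D u, ?_⟩
  rintro a ⟨A, p, l, m, hs, hA, rfl⟩
  have hvan : Van X ζ D u := by
    obtain ⟨n, a, b, hn, hN2, hD⟩ := hD
    by_cases h2 : N = 2
    · have ha := hN2 h2
      refine van_lin X hK ζ u D (LL X) (LL X) n b 0 hn ?_ (van_LL' X hN hK ζ hζ u)
        (van_LL' X hN hK ζ hζ u)
      rw [hD, ha, zero_smul, zero_smul, zero_add, add_zero]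
    · exact van_lin X hK ζ u D (NN X) (LL X) n a b hn hD (van_all X (by omega) hK ζ hζ u)
        (van_LL' X hN hK ζ hζ u)
  have h1 := hvan p l m hs A (by
    intro v hv
    by_contra hvA
    exact hv (hA v hvA))
  rw [dg_sum', cl_sum']
  unfold del at h1
  simp_rw [smul_sub, Finset.sum_sub_distrib, ← Finset.sum_smul] at h1
  rw [sub_eq_zero] at h1
  rw [← h1, Finset.smul_sum]
  refine Finset.sum_congr rfl fun v _ => ?_
  rw [cl_smul', smul_comm]

end Pool.Agent.LibPK60
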