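import Pool.Agent.LibPK60.DefsG

/-!
[PK60 G1] the forms Lambda_j, G_i form a system. Plan:
`PF X x y = F(x + w; y)` (polynomial in `w`), `GG i` its homogeneous component of degree `i`, `LF j = Λ_j(w; y)`. `LF j` is homogeneous of degree one (`X.homΛ`: every monomial of `Λ_j` has exactly one fibre variable: first component of the weights `wt`), `dx x (LF j)` is the constant `Λ_j(x; y)`. `dx x (GG (i+1)) = (ν + 1 - i) GG i`: proof by the
identity `dx x (PF) = (ν + 1) PF - (E PF)` where `E = ∑ w_i pderiv_i` is the Euler operator: indeed `F(x + w)` is homogeneous of degree `N = ν + 1` in `(x, w)`: Euler formula `∑ (x_i + w_i) (∂_i F)(x + w) = N F(x + w)` (obtained from the Euler formula for `F` in its fibre variables: `∑ X_(inl i) pderiv (inl i) F = N F`, which follows from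
`X.homF`, first component, see `Mathlib/RingTheory/MvPolynomial/EulerIdentity.lean`, `IsWeightedHomogeneous.sum_weight_X_mul_pderiv` with the weights `(wt ..).1`, after composing the weights with the projection to the first component) and `pderiv i (PF) = (∂_i F)(x + w)` (chain rule, `MvPolynomial.pderiv` of `aeval`: by induction on the polynomial).
The component of degree `i` of `E PF` is `i GG i` (Euler for homogeneous components) and the component of degree `i` of `dx x PF` is `dx x (GG (i+1))`. So `dx x (GG (i+1)) = (N - i) GG i`. `GG 0 = C (F(x; y)) = 0` by `hF`. With the indices of `gs`, `ds`, `as` (`gs q = GG (q - c + 1)` for `c ≤ q`): `dx x (gs c) = N GG 0 = 0 = as c * _`, and for `q > c`: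
`dx x (gs q) = (N - (q - c)) GG (q - c)`, `as q = ν + 1 - (q - c)`, `gs (q - 1) = GG (q - c)`. Degrees: `ds q = q - c + 1`.
-/

open scoped Classical
open MvPolynomial

set_option linter.unusedSectionVars false

namespace Pool.Agent.LibPK60

open Pool.Agent.LibBH2 Pool.Agent.LibQC8 Pool.Agent.LibPC60 Pool.Agent.LibPN22

variable {k J S : Type} [Field k] {c ν : ℕ} {K : Type} [Field K] [Algebra k K]

private theorem G1_hc_pderiv {m : ℕ} (i : ℕ) (j : Fin m) (P : MvPolynomial (Fin m) K) :
    homogeneousComponent i (pderiv j P) = pderiv j (homogeneousComponent (i + 1) P) := by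
  ext α
  rw [coeff_homogeneousComponent, coeff_pderiv, coeff_pderiv, coeff_homogeneousComponent]
  have h : (α + Finsupp.single j 1).degree = α.degree + 1 := by
    rw [map_add, Finsupp.degree_single]
  rw [h]
  by_cases h1 : α.degree = i
  · rw [if_pos h1, if_pos (by omega)]
  · rw [if_neg h1, if_neg (by omega), zero_mul]

private theorem G1_hc_euler {m : ℕ} (i : ℕ) (P : MvPolynomial (Fin m) K) :
    homogeneousComponent i (∑ j, MvPolynomial.X j * pderiv j P) =
      (i : MvPolynomial (Fin m) K) * homogeneousComponent i P := by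
  conv_lhs => rw [← sum_homogeneousComponent P]
  have h1 : (∑ j, MvPolynomial.X j * pderiv j
      (∑ e ∈ Finset.range (P.totalDegree + 1), homogeneousComponent e P)) =
      ∑ e ∈ Finset.range (P.totalDegree + 1), e • homogeneousComponent e P := by
    simp_rw [map_sum, Finset.mul_sum]
    rw [Finset.sum_comm]
    refine Finset.sum_congr rfl fun e _ => ?_
    exact (homogeneousComponent_isHomogeneous e P).sum_X_mul_pderiv
  rw [h1, map_sum]
  have h2 : ∀ e ∈ Finset.range (P.totalDegree + 1),
      homogeneousComponent i (e • homogeneousComponent e P) =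
        if i = e then (i : MvPolynomial (Fin m) K) * homogeneousComponent i P else 0 := by
    intro e _
    rw [map_nsmul, homogeneousComponent_of_mem
      ((mem_homogeneousSubmodule _ _).2 (homogeneousComponent_isHomogeneous e P))]
    split_ifs with h
    · rw [h, nsmul_eq_mul]
    · rw [smul_zero]
  rw [Finset.sum_congr rfl h2, Finset.sum_ite_eq]
  split_ifs with h3
  · rfl
  · rw [homogeneousComponent_eq_zero _ _ (by
      rw [Finset.mem_range] at h3
      omega), mul_zero]

/-- the translation -/
private noncomputable def G1t {m : ℕ} (x : Fin m → K) :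
    MvPolynomial (Fin m) K →ₐ[K] MvPolynomial (Fin m) K :=
  aeval fun i => C (x i) + MvPolynomial.X i

private theorem G1_chain {m : ℕ} (x : Fin m → K) (j : Fin m) (φ : MvPolynomial (Fin m) K) :
    pderiv j (G1t x φ) = G1t x (pderiv j φ) := by
  induction φ using MvPolynomial.induction_on with
  | C a =>
    rw [pderiv_C, map_zero]
    have : G1t x (C a) = C a := by
      unfold G1t
      rw [aeval_C]
      rfl
    rw [this, pderiv_C]
  | add p q hp hq => rw [map_add, map_add, map_add, map_add, hp, hq]
  | mul_X p i hp =>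
    have h1 : G1t x (MvPolynomial.X i) = C (x i) + MvPolynomial.X i := by
      unfold G1t
      rw [aeval_X]
    rw [map_mul, pderiv_mul, pderiv_mul, hp, h1, map_add, map_add, map_mul, map_mul, h1, pderiv_C,
      zero_add, pderiv_X]
    congr 2
    by_cases hij : i = j
    · subst hij
      simp
    · simp [Pi.single_eq_of_ne hij]

private theorem G1_main {m : ℕ} (x : Fin m → K) (N : ℕ) (φ : MvPolynomial (Fin m) K)
    (hφ : φ.IsHomogeneous N) (i : ℕ) (hi : i ≤ N) :
    dx x (homogeneousComponent (i + 1) (G1t x φ)) =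
      ((N - i : ℕ) : MvPolynomial (Fin m) K) * homogeneousComponent i (G1t x φ) := by
  have h1 := hφ.sum_X_mul_pderiv
  have h2 := congrArg (G1t x) h1
  rw [map_sum, map_nsmul] at h2
  have h3 : ∀ j, G1t x (MvPolynomial.X j * pderiv j φ) =
      C (x j) * pderiv j (G1t x φ) + MvPolynomial.X j * pderiv j (G1t x φ) := by
    intro j
    have h1 : G1t x (MvPolynomial.X j) = C (x j) + MvPolynomial.X j := by
      unfold G1t
      rw [aeval_X]
    rw [map_mul, h1, G1_chain, add_mul]
  rw [Finset.sum_congr rfl fun j _ => h3 j, Finset.sum_add_distrib] at h2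
  have h4 := congrArg (homogeneousComponent i) h2
  rw [map_add, G1_hc_euler, map_nsmul, map_sum] at h4
  have h5 : ∀ j, homogeneousComponent i (C (x j) * pderiv j (G1t x φ)) =
      C (x j) * pderiv j (homogeneousComponent (i + 1) (G1t x φ)) := by
    intro j
    rw [homogeneousComponent_C_mul, G1_hc_pderiv]
  rw [Finset.sum_congr rfl fun j _ => h5 j, nsmul_eq_mul] at h4
  unfold dx
  rw [Nat.cast_sub hi, sub_mul, ← h4, add_sub_cancel_right]

/-- partial evaluation -/
private noncomputable def G1e {m : ℕ} (y : J → K) (F : MvPolynomial (Fin m ⊕ J) k) :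
    MvPolynomial (Fin m) K :=
  aeval (Sum.elim (fun i : Fin m => (MvPolynomial.X i : MvPolynomial (Fin m) K))
    (fun j => C (y j))) F

private theorem G1_comp {m : ℕ} (ψ : MvPolynomial (Fin m) K →+* MvPolynomial (Fin m) K)
    (hψ : ∀ a, ψ (C a) = C a) (f : Fin m ⊕ J → MvPolynomial (Fin m) K)
    (F : MvPolynomial (Fin m ⊕ J) k) :
    ψ (aeval f F) = aeval (fun s => ψ (f s)) F := by
  rw [aeval_def, aeval_def, eval₂_comp_left]
  have : ψ.comp (algebraMap k (MvPolynomial (Fin m) K)) =
      algebraMap k (MvPolynomial (Fin m) K) := by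
    ext a
    rw [RingHom.comp_apply, MvPolynomial.algebraMap_apply, hψ]
  rw [this]
  rfl

private theorem G1_ev {m : ℕ} (x : Fin m → K) (y : J → K) (F : MvPolynomial (Fin m ⊕ J) k) :
    eval x (G1e y F) = aeval (Sum.elim x y) F := by
  unfold G1e
  rw [aeval_def, aeval_def, eval₂_comp_left]
  have h1 : (eval x).comp (algebraMap k (MvPolynomial (Fin m) K)) = algebraMap k K := by
    ext a
    rw [RingHom.comp_apply, MvPolynomial.algebraMap_apply, eval_C]
  rw [h1]
  congr 1
  funext s
  rcases s with i | j
  · simp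
  · simp

private theorem G1_tr {m : ℕ} (x : Fin m → K) (y : J → K) (F : MvPolynomial (Fin m ⊕ J) k) :
    G1t x (G1e y F) = aeval (Sum.elim (fun i : Fin m => C (x i) +
      (MvPolynomial.X i : MvPolynomial (Fin m) K)) (fun j => C (y j))) F := by
  have h := G1_comp (k := k) (J := J) ((G1t x : MvPolynomial (Fin m) K →ₐ[K] _) :
    MvPolynomial (Fin m) K →+* _) (fun a => by
      show G1t x (C a) = C a
      unfold G1t
      rw [aeval_C]
      rfl) (Sum.elim (fun i : Fin m => (MvPolynomial.X i : MvPolynomial (Fin m) K))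
    (fun j => C (y j))) F
  refine Eq.trans h ?_
  congr 2
  funext s
  rcases s with i | j
  · show G1t x (MvPolynomial.X i) = C (x i) + MvPolynomial.X i
    unfold G1t
    rw [aeval_X]
  · show G1t x (C (y j)) = C (y j)
    unfold G1t
    rw [aeval_C]
    rfl

private theorem G1_hom {m : ℕ} (fac : J → S) (α : Fin m → S → ℤ) (y : J → K)
    (F : MvPolynomial (Fin m ⊕ J) k) (N : ℕ) (β : S → ℤ)
    (hF : IsWeightedHomogeneous (wt fac α) F (((N : ℤ), β) : Deg S)) :
    (G1e (K := K) y F).IsHomogeneous N := by
  unfold G1e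
  rw [aeval_def, eval₂_eq]
  refine IsHomogeneous.sum _ _ _ fun d hd => ?_
  set dg : Fin m ⊕ J → ℕ := Sum.elim (fun _ => 1) (fun _ => 0) with hdg
  have hw := hF (mem_support_iff.1 hd)
  have h1 : ∑ s ∈ d.support, dg s * d s = N := by
    rw [Finsupp.weight_apply] at hw
    have h2 := congrArg Prod.fst hw
    simp only [Finsupp.sum, Prod.fst_sum] at h2
    have h3 : ∀ s ∈ d.support, ((d s • wt fac α s : Deg S)).1 = ((dg s * d s : ℕ) : ℤ) := by
      intro s _
      rcases s with i | j
      · simp [wt, hdg]
      · simp [wt, hdg]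
    rw [Finset.sum_congr rfl h3] at h2
    exact_mod_cast h2
  have h4 : (∏ s ∈ d.support, Sum.elim (fun i : Fin m =>
      (MvPolynomial.X i : MvPolynomial (Fin m) K)) (fun j => C (y j)) s ^ d s).IsHomogeneous
      (∑ s ∈ d.support, dg s * d s) := by
    refine IsHomogeneous.prod _ _ _ fun s _ => ?_
    refine IsHomogeneous.pow ?_ _
    rcases s with i | j
    · exact isHomogeneous_X _ _
    · exact isHomogeneous_C _ _
  rw [h1] at h4
  have h5 : (algebraMap k (MvPolynomial (Fin m) K) (coeff d F)).IsHomogeneous 0 := by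
    rw [MvPolynomial.algebraMap_apply]
    exact isHomogeneous_C _ _
  have h6 := h5.mul h4
  rwa [zero_add] at h6

private theorem G1_lin {m : ℕ} (x : Fin m → K) (φ : MvPolynomial (Fin m) K)
    (hφ : φ.IsHomogeneous 1) : dx x φ = C (eval x φ) := by
  have h1 := hφ.sum_X_mul_pderiv
  rw [one_smul] at h1
  have h2 : ∀ j, pderiv j φ = C (coeff 0 (pderiv j φ)) := by
    intro j
    have h3 : (pderiv j φ).IsHomogeneous 0 := hφ.pderiv
    conv_lhs => rw [← homogeneousComponent_eq_self h3, homogeneousComponent_zero]
  conv_rhs => rw [← h1]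
  unfold dx
  rw [map_sum, map_sum]
  refine Finset.sum_congr rfl fun j _ => ?_
  rw [map_mul, eval_X, C_mul]
  congr 1
  rw [h2 j, eval_C]

theorem sys_gs (X : Fam k J S c (ν + 1)) (x : Fin (c + (ν + 1)) → K) (y : J → K)
    (hΛ : ∀ j, aeval (Sum.elim x y) (X.Λ j) = 0) (hF : aeval (Sum.elim x y) X.F = 0) :
    Sys (gs X x y) (ds c ν) x (as c ν) := by
  have hLF : ∀ j, LF X y j = G1e (m := c + (ν + 1)) y (X.Λ j) := fun j => rfl
  have hPF : PF X x y = G1t (m := c + (ν + 1)) x (G1e y X.F) := (G1_tr x y X.F).symm
  have hL1 : ∀ j, (LF X y j).IsHomogeneous 1 := by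
    intro j
    rw [hLF]
    exact G1_hom X.fac X.α y (X.Λ j) 1 (X.γ j) (by exact_mod_cast X.homΛ j)
  have hLd : ∀ j, dx x (LF X y j) = 0 := by
    intro j
    have h := G1_lin x (LF X y j) (hL1 j)
    refine h.trans ?_
    rw [hLF]
    have h2 := G1_ev (k := k) (m := c + (ν + 1)) x y (X.Λ j)
    rw [hΛ j] at h2
    rw [show eval x (G1e (m := c + (ν + 1)) y (X.Λ j)) = 0 from h2, C_0]
  have hFh : (G1e (K := K) (m := c + (ν + 1)) y X.F).IsHomogeneous (ν + 1) :=
    G1_hom X.fac X.α y X.F (ν + 1) X.β X.homF
  have hG : ∀ i ≤ ν + 1, dx x (GG X x y (i + 1)) =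
      ((ν + 1 - i : ℕ) : MvPolynomial (Fin (c + ν + 1)) K) * GG X x y i := by
    intro i hi
    unfold GG
    rw [hPF]
    exact G1_main (m := c + (ν + 1)) x (ν + 1) _ hFh i hi
  have hG0 : GG X x y 0 = 0 := by
    unfold GG
    rw [homogeneousComponent_zero]
    have h1 : coeff 0 (PF X x y) = aeval (Sum.elim x y) X.F := by
      rw [← constantCoeff_eq, ← eval_zero]
      unfold PF
      rw [aeval_def, aeval_def, eval₂_comp_left]
      have h1 : (eval (0 : Fin (c + ν + 1) → K)).comp
          (algebraMap k (MvPolynomial (Fin (c + ν + 1)) K)) = algebraMap k K := by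
        ext a
        rw [RingHom.comp_apply, MvPolynomial.algebraMap_apply, eval_C]
      rw [h1]
      congr 1
      funext s
      rcases s with i | j
      · simp
      · simp
    rw [h1, hF, C_0]
  refine ⟨fun q => ?_, fun q => ?_, fun q hq => ?_, fun p q hpq => ?_, fun p q hpq ha => ?_⟩
  · unfold ds
    split_ifs <;> omega
  · unfold gs ds
    by_cases h : q.val < c
    · rw [dif_pos h, if_pos h]
      exact hL1 _
    · rw [dif_neg h, if_neg h]
      exact homogeneousComponent_isHomogeneous _ _
  · unfold gs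
    by_cases h : q.val < c
    · rw [dif_pos h]
      exact hLd _
    · rw [dif_neg h]
      have h0 : q.val - c = 0 := by omega
      rw [h0]
      have := hG 0 (Nat.zero_le _)
      rw [this, hG0, mul_zero]
  · unfold gs as
    by_cases h : q.val < c
    · rw [dif_pos h, hLd, if_pos (by omega), Nat.cast_zero, zero_mul]
    · rw [dif_neg h]
      have hq := q.isLt
      rw [hG (q.val - c) (by omega)]
      by_cases h1 : q.val = c
      · rw [if_pos (by omega), Nat.cast_zero, zero_mul, h1, Nat.sub_self, hG0, mul_zero]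
      · rw [if_neg (by omega), dif_neg (by omega)]
        have : q.val - c = p.val - c + 1 := by omega
        rw [this]
  · unfold as at ha
    unfold ds
    split_ifs at ha with h
    · exact absurd rfl ha
    · rw [if_neg (by omega), if_neg (by omega)]
      omega

end Pool.Agent.LibPK60
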