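import Pool.Agent.LibPK60.DefsG
import Pool.Agent.LibPC60.C5

/-!
[PK60 G2] common zeros. Plan:
`F(s x + t w; y) = ∑_(i ≤ N) s^(N-i) t^i (GG i)(w)`, `N = ν + 1`. Proof: `F` is homogeneous of degree `N` in the fibre coordinates (`X.homF`, first component of the weights; or `aeval_scale` of the proved row `Pool/Agent/LibPC60/A2.lean` with `m = 1`): for `s ≠ 0`, `F(s x + t w) = s^N F(x + (t/s) w) = s^N ∑ (t/s)^i (GG i)(w)` (`sum_homogeneousComponent`,
`IsHomogeneous` evaluation at `(t/s) w`; the degree of `PF` is at most `N`); as both sides are polynomials in `s` and `K` is infinite it holds for `s = 0` too, or use `binary_form` of `Pool/Agent/LibPC60/C5.lean` for the coefficients and compare, or treat `s = 0`: `F(t w) = t^N F(w)` and `(GG N)(w) = F(w)`. Only the case needed: if `(GG i)(w) = 0` for `1 ≤ i ≤ ν`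
and `F(x) = 0`, then `F(s x + t w) = t^N F(w)` for all `s, t`. [Field `k` infinite, algebraically closed.] `Tri` with `e = x`, `f = w`: `TriW X y e f (fun _ => x)` with `α_n = 1`, `β_n = 0`, `a = (-1)^N F(w)`: `a ∏_n (0 * s - 1 * t) = t^N F(w)`. Linear independence of `x, w`: otherwise `w = s x` (`x ≠ 0`,
`LinearIndependent.pair_iff'`). `Λ_j(w) = eval w (LF j)`, from `gs q` with `q < c`; `(GG i)(w)` from `gs (c + i - 1)`.
-/

open scoped Classical
open MvPolynomial

set_option linter.unusedSectionVars false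

namespace Pool.Agent.LibPK60

open Pool.Agent.LibBH2 Pool.Agent.LibQC8 Pool.Agent.LibPC60 Pool.Agent.LibPN22

variable {k J S : Type} [Field k] {c ν : ℕ} {K : Type} [Field K] [Algebra k K]

private theorem G2_scale {σ : Type} [Fintype σ] (φ : MvPolynomial σ K) {n : ℕ}
    (h : φ.IsHomogeneous n) (t : K) (w : σ → K) :
    eval (fun i => t * w i) φ = t ^ n * eval w φ := by
  rw [eval_eq', eval_eq', Finset.mul_sum]
  refine Finset.sum_congr rfl fun d hd => ?_
  have hdeg : ∑ i, d i = n := by
    have h1 : d.degree = n := by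
      by_contra hne
      exact (mem_support_iff.1 hd) (h.coeff_eq_zero hne)
    rw [← h1, Finsupp.degree_eq_sum]
  simp only [mul_pow]
  rw [Finset.prod_mul_distrib, Finset.prod_pow_eq_pow_sum, hdeg]
  ring

private theorem G2_elim {A B C' : Type} (z : A ⊕ B → C') :
    Sum.elim (fun r => z (Sum.inl r)) (fun j => z (Sum.inr j)) = z := by
  funext t
  cases t <;> rfl

/-- the coefficients of `F(x + t w)` -/
private theorem G2_PF (X : Fam k J S c (ν + 1)) (x w : Fin (c + (ν + 1)) → k) (y : J → k) (t : k) :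
    eval (fun i => t * w i) (PF X x y) = aeval (Sum.elim (fun n => x n + t * w n) y) X.F := by
  rw [← coe_aeval_eq_eval]
  show aeval (fun i => t * w i) (PF X x y) = _
  unfold PF
  rw [comp_aeval_apply]
  congr 1
  refine congrArg _ ?_
  funext v
  rcases v with n | j
  · simp
  · simp

private theorem G2_LF (X : Fam k J S c (ν + 1)) (w : Fin (c + (ν + 1)) → k) (y : J → k) (j : Fin c) :
    eval w (LF X y j) = aeval (Sum.elim w y) (X.Λ j) := by
  rw [← coe_aeval_eq_eval]
  show aeval w (LF X y j) = _
  unfold LF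
  rw [comp_aeval_apply]
  congr 1
  refine congrArg _ ?_
  funext v
  rcases v with n | j
  · simp
  · simp

theorem gs_zero [IsAlgClosed k] [CharZero k] (X : Fam k J S c (ν + 1)) (p : Pt X k)
    (hp : ¬ Tri X (fun j => p.z (Sum.inr j)) (fun _ i => p.z (Sum.inl i)))
    (w : Fin (c + ν + 1) → k)
    (hw : ∀ q, eval w (gs X (fun i => p.z (Sum.inl i)) (fun j => p.z (Sum.inr j)) q) = 0) :
    ∃ s : k, ∀ i : Fin (c + (ν + 1)), w i = s * p.z (Sum.inl i) := by
  classical
  by_contra hc
  apply hp
  have hinf : Infinite k := inferInstance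
  obtain ⟨x, hx⟩ : ∃ x : Fin (c + (ν + 1)) → k, x = fun i => p.z (Sum.inl i) := ⟨_, rfl⟩
  obtain ⟨y, hy⟩ : ∃ y : J → k, y = fun j => p.z (Sum.inr j) := ⟨_, rfl⟩
  rw [← hx, ← hy] at hw
  obtain ⟨W, hW⟩ : ∃ W : Fin (c + (ν + 1)) → k, W = w := ⟨w, rfl⟩
  obtain ⟨a, ha⟩ := binary_form X y x W
  have hA : ∀ s t : k, aeval (Sum.elim (fun n => s * x n + t * W n) y) X.F =
      ∑ n : Fin (ν + 1 + 1), a n * s ^ (ν + 1 - (n : ℕ)) * t ^ (n : ℕ) := by
    intro s t
    have h1 := ha k (AlgHom.id k k) s t
    simpa using h1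
  have hel : Sum.elim x y = p.z := by
    rw [hx, hy]
    exact G2_elim p.z
  -- the coefficient of `t ^ 0`
  have ha0 : a 0 = 0 := by
    have h1 := hA 1 0
    have h2 : (Sum.elim (fun n => (1 : k) * x n + 0 * W n) y : Fin (c + (ν + 1)) ⊕ J → k) = p.z := by
      rw [← hel]
      congr 1
      funext n
      ring
    rw [h2, p.hF, Fin.sum_univ_succ] at h1
    simpa using h1.symm
  -- the middle coefficients
  have hmid : ∀ n : Fin (ν + 1 + 1), 1 ≤ (n : ℕ) → (n : ℕ) ≤ ν → a n = 0 := by
    intro n hn1 hn2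
    have hg : ∀ i : ℕ, 1 ≤ i → i ≤ ν → eval w (homogeneousComponent i (PF X x y)) = 0 := by
      intro i hi1 hi2
      have h1 := hw ⟨c + i - 1, by omega⟩
      have h2 : gs X x y ⟨c + i - 1, by omega⟩ = GG X x y i := by
        unfold gs
        have h3 : ¬ (c + i - 1 < c) := by omega
        simp only [h3, dite_false]
        congr 1
        omega
      rw [h2] at h1
      exact h1
    obtain ⟨M, hM⟩ : ∃ M, M = (PF X x y).totalDegree := ⟨_, rfl⟩
    have hpoly : ∑ i ∈ Finset.range (M + 1), Polynomial.C (eval w (homogeneousComponent i (PF X x y))) *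
        Polynomial.X ^ i = ∑ n : Fin (ν + 1 + 1), Polynomial.C (a n) * Polynomial.X ^ (n : ℕ) := by
      refine Polynomial.funext fun t => ?_
      simp only [Polynomial.eval_finsetSum, Polynomial.eval_mul, Polynomial.eval_C, Polynomial.eval_pow,
        Polynomial.eval_X]
      have h1 := hA 1 t
      simp only [one_pow, one_mul, mul_one] at h1
      rw [← h1, ← G2_PF X x W y t]
      conv_rhs => rw [← sum_homogeneousComponent (PF X x y)]
      rw [map_sum, ← hM, hW]
      refine Finset.sum_congr rfl fun i _ => ?_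
      have h5 := G2_scale (homogeneousComponent i (PF X x y))
        (homogeneousComponent_isHomogeneous i (PF X x y)) t w
      refine Eq.trans ?_ h5.symm
      rw [mul_comm]
    have h2 := congrArg (fun P => Polynomial.coeff P (n : ℕ)) hpoly
    simp only [Polynomial.finsetSum_coeff, Polynomial.coeff_C_mul, Polynomial.coeff_X_pow] at h2
    have h3 : ∑ i ∈ Finset.range (M + 1), eval w (homogeneousComponent i (PF X x y)) *
        (if (n : ℕ) = i then (1 : k) else 0) = 0 := by
      refine Finset.sum_eq_zero fun i _ => ?_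
      by_cases hi : (n : ℕ) = i
      · rw [← hi, hg _ hn1 hn2, zero_mul]
      · rw [if_neg hi, mul_zero]
    rw [h3] at h2
    have h4 : ∑ n' : Fin (ν + 1 + 1), a n' * (if (n : ℕ) = (n' : ℕ) then (1 : k) else 0) = a n := by
      rw [Finset.sum_eq_single n]
      · simp
      · intro n' _ hne
        rw [if_neg, mul_zero]
        intro h
        exact hne (Fin.ext h.symm)
      · intro h
        exact absurd (Finset.mem_univ n) h
    rw [h4] at h2
    exact h2.symm
  -- the form on the line
  have hF : ∀ s t : k, aeval (Sum.elim (s • x + t • W) y) X.F = a (Fin.last (ν + 1)) * t ^ (ν + 1) := by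
    intro s t
    have h1 := hA s t
    have h2 : (s • x + t • W : Fin (c + (ν + 1)) → k) = fun n => s * x n + t * W n := rfl
    rw [h2, h1, Finset.sum_eq_single (Fin.last (ν + 1))]
    · simp
    · intro n _ hne
      by_cases hn0 : n = 0
      · rw [hn0, ha0]
        ring
      · have h3 : 1 ≤ (n : ℕ) := by
          rcases Nat.eq_zero_or_pos (n : ℕ) with h | h
          · exact absurd (Fin.ext h) hn0
          · exact h
        have h4 : (n : ℕ) ≤ ν := by
          have h5 : (n : ℕ) ≠ ν + 1 := fun h => hne (Fin.ext h)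
          have := n.isLt
          omega
        rw [hmid n h3 h4]
        ring
    · intro h
      exact absurd (Finset.mem_univ _) h
  rw [← hx, ← hy]
  have hx0 : x ≠ 0 := by
    obtain ⟨i, hi⟩ := p.x_ne
    intro h
    apply hi
    have := congrFun h i
    rw [hx] at this
    exact this
  refine ⟨x, W, ?_, ?_, ?_, fun _ => 1, fun _ => 0, (-1) ^ (ν + 1) * a (Fin.last (ν + 1)), ?_, ?_⟩
  · rw [LinearIndependent.pair_iff' hx0]
    intro s hs
    apply hc
    refine ⟨s, fun i => ?_⟩
    have h1 := congrFun hs i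
    rw [hW, hx] at h1
    exact h1.symm
  · intro j
    rw [hel]
    exact p.hΛ j
  · intro j
    have h1 := hw ⟨j, by omega⟩
    have h2 : gs X x y ⟨j, by omega⟩ = LF X y j := by
      unfold gs
      have h3 : (j : ℕ) < c := j.isLt
      simp only [h3, dite_true]
    rw [h2, ← hW, G2_LF] at h1
    exact h1
  · intro n
    refine ⟨Or.inl one_ne_zero, ?_⟩
    rw [hx]
    funext i
    simp
  · intro s t
    rw [hF]
    simp only [zero_mul, one_mul, zero_sub, Finset.prod_const, Finset.card_univ, Fintype.card_fin]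
    rw [neg_pow t (ν + 1)]
    have h3 : ((-1 : k) ^ (ν + 1)) * (-1) ^ (ν + 1) = 1 := by rw [← mul_pow]; simp
    linear_combination (-(a (Fin.last (ν + 1)) * t ^ (ν + 1))) * h3

end Pool.Agent.LibPK60
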