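import Pool.Agent.LibPK60.DefsG

/-!
[PK60 G3] scaling of the forms. Plan:
`mu X m i = chi 1 m (wt (inl i))`, `rh X l m q = chi 1 m (0, γ_q)` for `q < c`, `l^(ν - (q - c)) chi 1 m (0, β)` for `c ≤ q`. Let `x' i = l μ_i x_i`, `y' j = m_(fac j) y_j`. Claim: `coeff α (gs X x' y' q) = ρ_q (∏ μ_i^α_i)⁻¹ coeff α (gs X x y q)`. Proof: let `φ : MvPolynomial → MvPolynomial` be the substitution
`w_i ↦ C μ_i * w_i`; `coeff α (φ f) = (∏ μ_i^α_i) coeff α f`. `φ (LF X y' j) = Λ_j(μ w; y') = C (chi 1 m (1, γ_j)) * LF X y j`, and `φ (PF X x' y') = F(μ (l x + w); y') = C (chi 1 m (N, β)) * PF X (l • x) y` (the weighted homogeneity of `Λ_j`, `F` for polynomial arguments: for a monomial `e` of `F` the product of the scalars `chi 1 m (wt i)^e_i` is `chi 1 m` of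
the weight of `e`; see the proved row `Pool/Agent/LibPC60/A2.lean` (`aeval_scale`) whose proof works for values in any `K`-algebra); `chi 1 m (D) = chi 1 m (0, D.2)`. `GG X (l • x) y i = C (l^(N-i)) * GG X x y i` for `i ≤ N`: `F(l x + w)` : compare with the substitution `w ↦ l w`: `F(l x + l w) = l^N F(x + w)`, its component of degree `i` is
`l^i GG X (l • x) y i` on one side and `l^N GG X x y i` on the other. (`q = c + i - 1`: `ν - (q - c) = N - i`.) `φ` commutes with the homogeneous components. `rh_step`: `a_q ≠ 0` only for `q > c`; then `ρ_(q-1) = l^(ν - (q - 1 - c)) .. = l ρ_q` as `q - c ≤ ν`.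
`rh_ne`, `mu_ne`: `chi_ne` (`Pool/Agent/LibPC60/A1.lean`).
-/

open scoped Classical
open MvPolynomial

set_option linter.unusedSectionVars false

namespace Pool.Agent.LibPK60

open Pool.Agent.LibBH2 Pool.Agent.LibQC8 Pool.Agent.LibPC60 Pool.Agent.LibPN22

variable {k J S : Type} [Field k] {c ν : ℕ} {K : Type} [Field K] [Algebra k K] [Fintype S]

omit [Field k] [Algebra k K] in
private theorem G3_chi_add (l : K) (m : S → K) (hl : l ≠ 0) (hm : ∀ t, m t ≠ 0) (D E : Deg S) :
    chi l m (D + E) = chi l m D * chi l m E := by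
  unfold chi
  have h1 : ∀ t, m t ^ (D + E).2 t = m t ^ D.2 t * m t ^ E.2 t := fun t => by
    rw [Prod.snd_add, Pi.add_apply, zpow_add₀ (hm t)]
  rw [Finset.prod_congr rfl fun t _ => h1 t, Finset.prod_mul_distrib, Prod.fst_add,
    zpow_add₀ hl]
  ring

omit [Field k] [Algebra k K] in
private theorem G3_chi_zero (l : K) (m : S → K) : chi l m (0 : Deg S) = 1 := by
  unfold chi
  simp

omit [Field k] [Algebra k K] in
private theorem G3_chi_ne (l : K) (m : S → K) (hl : l ≠ 0) (hm : ∀ t, m t ≠ 0) (D : Deg S) :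
    chi l m D ≠ 0 := by
  unfold chi
  exact mul_ne_zero (zpow_ne_zero _ hl)
    (Finset.prod_ne_zero_iff.2 fun t _ => zpow_ne_zero _ (hm t))

omit [Fintype S] in
/-- scaling by a character, values in an algebra -/
private theorem G3_gen {R : Type} [CommRing R] [Algebra k R] {ι A : Type} [AddCommMonoid A]
    (χ : A → R) (h0 : χ 0 = 1)
    (hadd : ∀ a b, χ (a + b) = χ a * χ b) (w : ι → A) (P : MvPolynomial ι k) (D : A)
    (hP : IsWeightedHomogeneous w P D) (z : ι → R) :
    aeval (fun i => χ (w i) * z i) P = χ D * aeval z P := by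
  have hpow : ∀ (n : ℕ) (a : A), χ (n • a) = χ a ^ n := by
    intro n a
    induction n with
    | zero => rw [zero_smul, pow_zero, h0]
    | succ n ih => rw [succ_nsmul, hadd, ih, pow_succ]
  have hsum : ∀ (s : Finset ι) (d : ι → ℕ), χ (∑ i ∈ s, d i • w i) = ∏ i ∈ s, χ (w i) ^ d i := by
    intro s d
    induction s using Finset.induction_on with
    | empty => simp [h0]
    | insert a s ha ih => rw [Finset.sum_insert ha, Finset.prod_insert ha, hadd, ih, hpow]
  rw [aeval_def, aeval_def, eval₂_eq, eval₂_eq, Finset.mul_sum]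
  apply Finset.sum_congr rfl
  intro d hd
  have h1 : Finsupp.weight w d = D := hP (MvPolynomial.mem_support_iff.1 hd)
  have h2 : Finsupp.weight w d = ∑ i ∈ d.support, d i • w i := by
    rw [Finsupp.weight_apply]
    rfl
  have h3 : χ D = ∏ i ∈ d.support, χ (w i) ^ d i := by
    rw [← h1, h2, hsum]
  rw [h3]
  simp only [mul_pow]
  rw [Finset.prod_mul_distrib]
  ring

omit [Field k] [Algebra k K] [Fintype S] in
/-- coefficients after a scaling of the variables -/
private theorem G3_coeff {n : ℕ} (a : Fin n → K) (f : MvPolynomial (Fin n) K)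
    (α : Fin n →₀ ℕ) :
    coeff α (aeval (fun i => C (a i) * (MvPolynomial.X i : MvPolynomial (Fin n) K)) f) =
      (∏ i, a i ^ α i) * coeff α f := by
  induction f using MvPolynomial.induction_on' with
  | monomial s c =>
    have h1 : aeval (fun i => C (a i) * (MvPolynomial.X i : MvPolynomial (Fin n) K))
        (monomial s c) = C (∏ i, a i ^ s i) * monomial s c := by
      rw [aeval_monomial, Finsupp.prod_fintype _ _ (fun i => pow_zero _), monomial_eq,
        Finsupp.prod_fintype _ _ (fun i => pow_zero _)]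
      simp only [mul_pow, Finset.prod_mul_distrib, map_prod, map_pow, algebraMap_eq]
      ring
    rw [h1, coeff_C_mul, coeff_monomial]
    split_ifs with h
    · rw [h]
    · rw [mul_zero, mul_zero]
  | add p q hp hq => rw [map_add, coeff_add, coeff_add, hp, hq, mul_add]

/-- scaling of the polynomials `P(x + w; y)` with general scalars: `e = 0` gives `P(w; y)` -/
private theorem G3_sub (X : Fam k J S c (ν + 1)) (P : MvPolynomial (Fin (c + (ν + 1)) ⊕ J) k)
    (D : Deg S) (hP : IsWeightedHomogeneous (wt X.fac X.α) P D) (l : K) (m : S → K) (hl : l ≠ 0)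
    (hm : ∀ t, m t ≠ 0) (x x' : Fin (c + (ν + 1)) → K) (y : J → K)
    (hx : ∀ i, x' i = chi l m (wt X.fac X.α (Sum.inl i)) * x i) :
    aeval (fun i : Fin (c + ν + 1) => C (chi l m (wt X.fac X.α (Sum.inl (i : Fin (c + (ν + 1)))))) *
      (MvPolynomial.X i : MvPolynomial (Fin (c + ν + 1)) K))
      (aeval (Sum.elim (fun i : Fin (c + (ν + 1)) => C (x' i) +
        (MvPolynomial.X i : MvPolynomial (Fin (c + ν + 1)) K))
        (fun j => C (chi l m (wt X.fac X.α (Sum.inr j)) * y j))) P) =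
      C (chi l m D) * aeval (Sum.elim (fun i : Fin (c + (ν + 1)) => C (x i) +
        (MvPolynomial.X i : MvPolynomial (Fin (c + ν + 1)) K)) (fun j => C (y j))) P := by
  rw [← AlgHom.restrictScalars_apply k, ← AlgHom.comp_apply, comp_aeval]
  rw [← G3_gen (fun E : Deg S => (C (chi l m E) : MvPolynomial (Fin (c + ν + 1)) K))
    (by rw [G3_chi_zero, map_one]) (fun a b => by rw [G3_chi_add l m hl hm, map_mul])
    (wt X.fac X.α) P D hP]
  congr 2
  funext s
  rcases s with i | j
  · simp only [Sum.elim_inl, AlgHom.restrictScalars_apply, map_add, aeval_X, hx, map_mul,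
      algHom_C, algebraMap_eq]
    ring
  · simp only [Sum.elim_inr, AlgHom.restrictScalars_apply, algHom_C, map_mul, algebraMap_eq]

private theorem G3_inl (X : Fam k J S c (ν + 1)) (l : K) (m : S → K) (i : Fin (c + (ν + 1))) :
    chi l m (wt X.fac X.α (Sum.inl i)) = l * mu X m i := by
  unfold mu chi wt
  simp

private theorem G3_inr (X : Fam k J S c (ν + 1)) (l : K) (m : S → K) (j : J) :
    chi l m (wt X.fac X.α (Sum.inr j)) = chi 1 m (wt X.fac X.α (Sum.inr j)) := by
  unfold chi wt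
  simp

private theorem G3_one (m : S → K) (n : ℤ) (β : S → ℤ) :
    chi 1 m ((n, β) : Deg S) = chi 1 m ((0, β) : Deg S) := by
  unfold chi
  simp

private theorem G3_mu_ne (X : Fam k J S c (ν + 1)) (m : S → K) (hm : ∀ t, m t ≠ 0)
    (i : Fin (c + ν + 1)) : mu X m i ≠ 0 := G3_chi_ne _ _ one_ne_zero hm _

/-- the linear forms -/
private theorem G3_lf (X : Fam k J S c (ν + 1)) (y : J → K) (l : K)
    (m : S → K) (hm : ∀ t, m t ≠ 0) (j : Fin c) (α : Fin (c + ν + 1) →₀ ℕ) :
    coeff α (LF X (fun j => chi l m (wt X.fac X.α (Sum.inr j)) * y j) j) =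
      chi 1 m ((0, X.γ j) : Deg S) * (∏ i, mu X m i ^ α i)⁻¹ * coeff α (LF X y j) := by
  have h1 := G3_sub X (X.Λ j) _ (X.homΛ j) (1 : K) m one_ne_zero hm 0 0 y (by simp)
  have h2 := congrArg (coeff α) h1
  rw [G3_coeff, coeff_C_mul] at h2
  have h3 : (∏ i, mu X m i ^ α i) ≠ 0 :=
    Finset.prod_ne_zero_iff.2 fun i _ => pow_ne_zero _ (G3_mu_ne X m hm i)
  have h4 : ∀ y : J → K, LF X y j = aeval (Sum.elim (fun i : Fin (c + (ν + 1)) =>
        C ((0 : Fin (c + (ν + 1)) → K) i) +
        (MvPolynomial.X i : MvPolynomial (Fin (c + ν + 1)) K)) (fun j => C (y j))) (X.Λ j) := by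
    intro y
    unfold LF
    simp only [Pi.zero_apply, map_zero, zero_add]
  have h5 : (fun j => chi l m (wt X.fac X.α (Sum.inr j)) * y j) =
      fun j => chi 1 m (wt X.fac X.α (Sum.inr j)) * y j := by
    funext j
    rw [G3_inr]
  rw [h5, h4, h4, ← G3_one m 1]
  change (∏ i, mu X m i ^ α i) * _ = _ at h2
  rw [mul_comm (chi 1 m _), mul_assoc, ← h2, ← mul_assoc, inv_mul_cancel₀ h3, one_mul]

/-- the polynomial `F(x + w)` -/
private theorem G3_pf (X : Fam k J S c (ν + 1)) (x : Fin (c + (ν + 1)) → K) (y : J → K) (l : K)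
    (m : S → K) (hl : l ≠ 0) (hm : ∀ t, m t ≠ 0) (α : Fin (c + ν + 1) →₀ ℕ)
    (hα : α.degree ≤ ν + 1) :
    coeff α (PF X (fun i => chi l m (wt X.fac X.α (Sum.inl i)) * x i)
      (fun j => chi l m (wt X.fac X.α (Sum.inr j)) * y j)) =
      l ^ (ν + 1 - α.degree) * chi 1 m ((0, X.β) : Deg S) * (∏ i, mu X m i ^ α i)⁻¹ *
        coeff α (PF X x y) := by
  have h1 := G3_sub X X.F _ X.homF l m hl hm x
    (fun i => chi l m (wt X.fac X.α (Sum.inl i)) * x i) y (fun i => rfl)
  have h2 := congrArg (coeff α) h1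
  rw [G3_coeff, coeff_C_mul] at h2
  have h3 : (∏ i, mu X m i ^ α i) ≠ 0 :=
    Finset.prod_ne_zero_iff.2 fun i _ => pow_ne_zero _ (G3_mu_ne X m hm i)
  have h4 : (∏ i : Fin (c + ν + 1), chi l m (wt X.fac X.α (Sum.inl (i : Fin (c + (ν + 1))))) ^ α i) =
      l ^ α.degree * ∏ i, mu X m i ^ α i := by
    rw [Finsupp.degree_eq_sum, ← Finset.prod_pow_eq_pow_sum, ← Finset.prod_mul_distrib]
    refine Finset.prod_congr rfl fun i _ => ?_
    rw [G3_inl, mul_pow]
  rw [h4] at h2
  have h5 : chi l m (((ν + 1 : ℕ) : ℤ), X.β) = l ^ (ν + 1) * chi 1 m ((0, X.β) : Deg S) := by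
    unfold chi
    simp only [zpow_natCast, zpow_zero, one_mul]
  have h6 : l ^ (ν + 1) = l ^ α.degree * l ^ (ν + 1 - α.degree) := by
    rw [← pow_add, Nat.add_sub_cancel' hα]
  rw [h5, h6] at h2
  have h7 : l ^ α.degree ≠ 0 := pow_ne_zero _ hl
  unfold PF
  have h8 : ∀ u A B a t q v : K, u ≠ 0 → B ≠ 0 → u * B * A = u * t * q * v →
      A = t * q * B⁻¹ * v := by
    intro u A B a t q v hu hB h
    field_simp
    apply mul_left_cancel₀ hu
    linear_combination h
  exact h8 _ _ _ 0 _ _ _ h7 h3 (by rw [h2])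

theorem gs_scale (X : Fam k J S c (ν + 1)) (x : Fin (c + (ν + 1)) → K) (y : J → K) (l : K)
    (m : S → K) (hl : l ≠ 0) (hm : ∀ t, m t ≠ 0) (q : Fin (c + ν)) (α : Fin (c + ν + 1) →₀ ℕ) :
    coeff α (gs X (fun i => chi l m (wt X.fac X.α (Sum.inl i)) * x i)
      (fun j => chi l m (wt X.fac X.α (Sum.inr j)) * y j) q) =
      rh X l m q * (∏ i, mu X m i ^ α i)⁻¹ * coeff α (gs X x y q) := by
  unfold gs rh
  by_cases h : q.val < c
  · rw [dif_pos h, dif_pos h, dif_pos h]
    exact G3_lf X y l m hm _ α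
  · rw [dif_neg h, dif_neg h, dif_neg h]
    unfold GG
    rw [coeff_homogeneousComponent, coeff_homogeneousComponent]
    have hq := q.isLt
    split_ifs with h1
    · have h2 := G3_pf X x y l m hl hm α (by omega)
      rw [h2]
      have h3 : ν + 1 - α.degree = ν - (q.val - c) := by omega
      rw [h3]
    · rw [mul_zero]

theorem rh_ne (X : Fam k J S c (ν + 1)) (l : K) (m : S → K) (hl : l ≠ 0) (hm : ∀ t, m t ≠ 0)
    (q : Fin (c + ν)) : rh X l m q ≠ 0 := by
  unfold rh
  split_ifs with h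
  · exact G3_chi_ne _ _ one_ne_zero hm _
  · exact mul_ne_zero (pow_ne_zero _ hl) (G3_chi_ne _ _ one_ne_zero hm _)

theorem mu_ne (X : Fam k J S c (ν + 1)) (m : S → K) (hm : ∀ t, m t ≠ 0)
    (i : Fin (c + ν + 1)) : mu X m i ≠ 0 := G3_mu_ne X m hm i

theorem rh_step (X : Fam k J S c (ν + 1)) (l : K) (m : S → K) (i j : Fin (c + ν))
    (hij : i.val + 1 = j.val) (ha : as c ν j ≠ 0) : rh X l m i = l * rh X l m j := by
  have hj : ¬ j.val ≤ c := by
    intro h
    apply ha
    unfold as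
    rw [if_pos h]
  have hjl := j.isLt
  unfold rh
  rw [dif_neg (by omega), dif_neg (by omega)]
  have h1 : ν - (i.val - c) = ν - (j.val - c) + 1 := by omega
  rw [h1, pow_succ]
  ring

end Pool.Agent.LibPK60
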