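import Pool.Agent.LibPK60.DefsG

/-!
[PK60 G4] values of the forms. Plan:
The coefficients of `gs X x y q` are polynomials in `x, y` with coefficients in `k`. See the proved row `Pool/Agent/LibPC60/A3.lean` (`zer_aeval`) for the computation with values. Proof: let `Val p p₀ := ∀ α, v.Zer (coeff α p - algebraMap k K (coeff α p₀))` for polynomials `p` over `K`, `p₀` over `k`. It is compatible with sums, products (`coeff_mul`), constants,
`X i`, homogeneous components. `MvPolynomial.induction_on` for `P`: `Val (aeval f P) (aeval f₀ P)` if `Val (f i) (f₀ i)` for all variables `i` (for `P = C a`: `aeval f (C a) = algebraMap k _ a = C (algebraMap k K a)`). Apply it to `X.F` with `f (inl i) = C (x i) + X i`, `f (inr j) = C (y j)`, and to `X.Λ j`.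
-/

open scoped Classical
open MvPolynomial

set_option linter.unusedSectionVars false

namespace Pool.Agent.LibPK60

open Pool.Agent.LibBH2 Pool.Agent.LibQC8 Pool.Agent.LibPC60 Pool.Agent.LibPN22

variable {k J S : Type} [Field k] {c ν : ℕ} {K : Type} [Field K] [Algebra k K]

/-- coefficientwise values of a polynomial -/
private def VP {σ : Type} (v : Place k K) (p : MvPolynomial σ K) (p₀ : MvPolynomial σ k) : Prop :=
  ∀ α, v.Zer (coeff α p - algebraMap k K (coeff α p₀))

private theorem VP.add {σ : Type} {v : Place k K} {p q : MvPolynomial σ K}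
    {p₀ q₀ : MvPolynomial σ k} (hp : VP v p p₀) (hq : VP v q q₀) : VP v (p + q) (p₀ + q₀) := by
  intro α
  rw [coeff_add, coeff_add]
  exact Place.val_add (hp α) (hq α)

private theorem VP_C {σ : Type} {v : Place k K} {a : K} {a₀ : k}
    (h : v.Zer (a - algebraMap k K a₀)) :
    VP v (C a : MvPolynomial σ K) (C a₀) := by
  intro α
  rw [coeff_C, coeff_C]
  by_cases h0 : (0 : σ →₀ ℕ) = α
  · simpa [h0] using h
  · rw [if_neg h0, if_neg h0, map_zero, sub_zero]
    exact Place.zer_zero v

private theorem VP_X {σ : Type} {v : Place k K} (i : σ) :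
    VP v (MvPolynomial.X i : MvPolynomial σ K) (MvPolynomial.X i) := by
  intro α
  rw [coeff_X, coeff_X]
  by_cases h0 : Finsupp.single i 1 = α
  · rw [if_pos h0, if_pos h0, map_one, sub_self]
    exact Place.zer_zero v
  · rw [if_neg h0, if_neg h0, map_zero, sub_zero]
    exact Place.zer_zero v

private theorem zer_sum {ι : Type} {v : Place k K} (s : Finset ι) (f : ι → K) (f₀ : ι → k)
    (h : ∀ i ∈ s, v.Zer (f i - algebraMap k K (f₀ i))) :
    v.Zer (∑ i ∈ s, f i - algebraMap k K (∑ i ∈ s, f₀ i)) := by
  induction s using Finset.induction_on with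
  | empty =>
    rw [Finset.sum_empty, Finset.sum_empty, map_zero, sub_zero]
    exact Place.zer_zero v
  | insert a s ha ih =>
    rw [Finset.sum_insert ha, Finset.sum_insert ha]
    exact Place.val_add (h a (Finset.mem_insert_self a s))
      (ih (fun i hi => h i (Finset.mem_insert_of_mem hi)))

private theorem VP.mul {σ : Type} {v : Place k K} {p q : MvPolynomial σ K}
    {p₀ q₀ : MvPolynomial σ k} (hp : VP v p p₀) (hq : VP v q q₀) : VP v (p * q) (p₀ * q₀) := by
  intro α
  rw [coeff_mul, coeff_mul]
  exact zer_sum _ _ _ (fun x _ => Place.val_mul (hp x.1) (hq x.2))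

private theorem VP.hom {σ : Type} {v : Place k K} {p : MvPolynomial σ K}
    {p₀ : MvPolynomial σ k} (hp : VP v p p₀) (d : ℕ) :
    VP v (homogeneousComponent d p) (homogeneousComponent d p₀) := by
  intro α
  rw [coeff_homogeneousComponent, coeff_homogeneousComponent]
  by_cases h0 : α.degree = d
  · rw [if_pos h0, if_pos h0]
    exact hp α
  · rw [if_neg h0, if_neg h0, map_zero, sub_zero]
    exact Place.zer_zero v

private theorem VP_aeval {σ ι : Type} {v : Place k K} (f : ι → MvPolynomial σ K)
    (f₀ : ι → MvPolynomial σ k) (h : ∀ i, VP v (f i) (f₀ i)) (P : MvPolynomial ι k) :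
    VP v (aeval f P) (aeval f₀ P) := by
  induction P using MvPolynomial.induction_on with
  | C a =>
    rw [aeval_C, aeval_C]
    have h1 := VP_C (σ := σ) (Place.val_const (v := v) a)
    exact h1
  | add p q hp hq =>
    rw [map_add, map_add]
    exact hp.add hq
  | mul_X p i hp =>
    rw [map_mul, map_mul, aeval_X, aeval_X]
    exact hp.mul (h i)

theorem gs_val (X : Fam k J S c (ν + 1)) (v : Place k K) (x : Fin (c + (ν + 1)) → K) (y : J → K)
    (x₀ : Fin (c + (ν + 1)) → k) (y₀ : J → k) (hx : ∀ i, v.Zer (x i - algebraMap k K (x₀ i)))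
    (hy : ∀ j, v.Zer (y j - algebraMap k K (y₀ j))) (q : Fin (c + ν))
    (α : Fin (c + ν + 1) →₀ ℕ) :
    v.Zer (coeff α (gs X x y q) - algebraMap k K (coeff α (gs X x₀ y₀ q))) := by
  unfold gs
  by_cases hq : q.val < c
  · rw [dif_pos hq, dif_pos hq]
    refine VP_aeval _ _ ?_ (X.Λ ⟨q.val, hq⟩) α
    rintro (i | j)
    · exact VP_X i
    · exact VP_C (hy j)
  · rw [dif_neg hq, dif_neg hq]
    refine VP.hom (VP_aeval _ _ ?_ X.F) _ α
    rintro (i | j)
    · exact (VP_C (hx i)).add (VP_X i)
    · exact VP_C (hy j)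

end Pool.Agent.LibPK60
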