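import Pool.Agent.LibPK60.DefsG

/-!
[PK60 G5] total weight and the class TN. Plan:
`ord_pw`: `v.ord` of products, powers, inverses (`v.ord_mul` for nonzero elements, see `Pool/Agent/LibBH2/Place.lean`, and the proof of `ord_chi` in `Pool/Agent/LibPC60/A1.lean`). `weight_eval`: `ord_chi`: `v.ord (chi l m D) = D.1 * v.ord l + ∑ t, D.2 t * v.ord (m t)`. Write `M_t = v.ord (m t)`. `v.ord (mu X m i) = - ∑ t, α_i t M_t` (`wt (inl i) = (1, -α_i)`, `l = 1`),
`v.ord (rh q) = ∑ γ_q t M_t` for `q < c` and `(ν - (q - c)) ord l + ∑ β t M_t` for `c ≤ q`. Split the sums and products over `Fin (c + ν)` (`Fin.sum_univ_add`, `Fin.prod_univ_add`): `∏ ds = 1^c ∏_(i<ν) (i+1) = P0 ν`; for `q < c`: `∏_(erase q) ds = P0 ν`; for `q = c + i`: `∏_(erase q) ds = ∏_(i' ≠ i) (i'+1)` =: `P_i` with `(i+1) P_i = P0 ν`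
(use `Finset.mul_prod_erase`: `ds q * ∏_(erase q) = ∏`, and cancel; so only `ds q * Π_q = P0` is needed). Total: `P0 ∑_i ∑_t α_i t M_t + P0 ∑_j ∑_t γ_j t M_t + ∑_(i<ν) P_i ((ν - i) ord l + ∑ β t M_t) - P0 ord l`, `∑ P_i = H0 ν`, `∑ P_i (ν - i) = ∑ P_i (ν + 1) - ∑ P_i (i + 1) = (ν + 1) H0 - ν P0`, so the coefficient of `ord l` is
`(ν + 1) H0 - (ν + 1) P0`, as in `TN`; `sig X = ∑ γ_j + ∑ α_i`.
-/

open scoped Classical
open MvPolynomial

set_option linter.unusedSectionVars false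

namespace Pool.Agent.LibPK60

open Pool.Agent.LibBH2 Pool.Agent.LibQC8 Pool.Agent.LibPC60 Pool.Agent.LibPN22

variable {k J S : Type} [Field k] {c ν : ℕ} {K : Type} [Field K] [Algebra k K] [Fintype S]

private theorem ord_prod' {ι : Type} (v : Place k K) (A : Finset ι) (f : ι → K)
    (hf : ∀ i, f i ≠ 0) : v.ord (∏ i ∈ A, f i) = ∑ i ∈ A, v.ord (f i) := by
  induction A using Finset.induction_on with
  | empty => simp
  | insert a A ha ih =>
    rw [Finset.prod_insert ha, Finset.sum_insert ha, v.ord_mul _ _ (hf a)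
      (Finset.prod_ne_zero_iff.2 fun t _ => hf t), ih]

theorem ord_pw {n M : ℕ} (v : Place k K) (δ : Fin M → ℕ) (d : ℕ) (μ : Fin n → K)
    (ρ : Fin M → K) (l : K) (hμ : ∀ i, μ i ≠ 0) (hρ : ∀ j, ρ j ≠ 0) (hl : l ≠ 0)
    (t : Ix n δ d) : v.ord (pw δ d μ ρ l t) =
      -(∑ i, (t.1.2.2 i : ℤ) * v.ord (μ i)) - ∑ j ∈ t.1.2.1, v.ord (ρ j) +
        (if t.1.1 = true then v.ord l else 0) := by
  have h1 : (∏ i, μ i ^ t.1.2.2 i) ≠ 0 :=
    Finset.prod_ne_zero_iff.2 fun i _ => pow_ne_zero _ (hμ i)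
  have h2 : (∏ j ∈ t.1.2.1, ρ j) ≠ 0 := Finset.prod_ne_zero_iff.2 fun j _ => hρ j
  have h3 : (if t.1.1 = true then l else (1 : K)) ≠ 0 := by
    split_ifs
    · exact hl
    · exact one_ne_zero
  have h4 : v.ord (if t.1.1 = true then l else (1 : K)) =
      if t.1.1 = true then v.ord l else 0 := by
    split_ifs
    · rfl
    · exact Place.ord_one v
  unfold pw
  rw [v.ord_mul _ _ (inv_ne_zero (mul_ne_zero h1 h2)) h3, Place.ord_inv, v.ord_mul _ _ h1 h2,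
    ord_prod' v _ _ (fun i => pow_ne_zero _ (hμ i)), ord_prod' v _ _ hρ, h4]
  simp only [Place.ord_pow]
  ring

private theorem prod_ds : ∏ j, ds c ν j = P0 ν := by
  rw [Fin.prod_univ_add]
  have h1 : ∀ i : Fin c, ds c ν (Fin.castAdd ν i) = 1 := by
    intro i
    unfold ds
    rw [if_pos (by simp [Fin.val_castAdd])]
  have h2 : ∀ i : Fin ν, ds c ν (Fin.natAdd c i) = i.val + 1 := by
    intro i
    unfold ds
    rw [if_neg (by simp [Fin.val_natAdd])]
    simp [Fin.val_natAdd]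
  rw [Finset.prod_congr rfl fun i _ => h1 i, Finset.prod_congr rfl fun i _ => h2 i]
  simp [P0]

private theorem prod_erase_lt (i : Fin c) :
    ∏ q ∈ Finset.univ.erase (Fin.castAdd ν i), ds c ν q = P0 ν := by
  have h := Finset.mul_prod_erase Finset.univ (ds c ν) (Finset.mem_univ (Fin.castAdd ν i))
  rw [prod_ds] at h
  have h1 : ds c ν (Fin.castAdd ν i) = 1 := by
    unfold ds
    rw [if_pos (by simp [Fin.val_castAdd])]
  rw [h1, one_mul] at h
  exact h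

private theorem prod_erase_ge (i : Fin ν) :
    ∏ q ∈ Finset.univ.erase (Fin.natAdd c i), ds c ν q =
      ∏ q ∈ Finset.univ.erase i, (q.val + 1) := by
  have h := Finset.mul_prod_erase Finset.univ (ds c ν) (Finset.mem_univ (Fin.natAdd c i))
  rw [prod_ds] at h
  have h1 : ds c ν (Fin.natAdd c i) = i.val + 1 := by
    unfold ds
    rw [if_neg (by simp [Fin.val_natAdd])]
    simp [Fin.val_natAdd]
  have h' := Finset.mul_prod_erase Finset.univ (fun q : Fin ν => q.val + 1) (Finset.mem_univ i)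
  rw [h1] at h
  have h2 : (i.val + 1) * ∏ q ∈ Finset.univ.erase (Fin.natAdd c i), ds c ν q =
      (i.val + 1) * ∏ q ∈ Finset.univ.erase i, (q.val + 1) := by
    rw [h]
    exact h'.symm
  exact Nat.eq_of_mul_eq_mul_left (Nat.succ_pos _) h2

private theorem mul_prod_erase' (i : Fin ν) :
    (i.val + 1) * ∏ q ∈ Finset.univ.erase i, (q.val + 1) = P0 ν :=
  Finset.mul_prod_erase Finset.univ (fun q : Fin ν => q.val + 1) (Finset.mem_univ i)

private theorem sum_weight (a b : ℤ) :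
    ∑ i : Fin ν, ((∏ q ∈ Finset.univ.erase i, (q.val + 1) : ℕ) : ℤ) *
        (((ν - i.val : ℕ) : ℤ) * a + b) =
      (((ν : ℤ) + 1) * (H0 ν : ℤ) - (ν : ℤ) * (P0 ν : ℤ)) * a + (H0 ν : ℤ) * b := by
  have h1 : ∀ i : Fin ν, ((∏ q ∈ Finset.univ.erase i, (q.val + 1) : ℕ) : ℤ) *
        (((ν - i.val : ℕ) : ℤ) * a + b) =
      ((∏ q ∈ Finset.univ.erase i, (q.val + 1) : ℕ) : ℤ) * (((ν : ℤ) + 1) * a + b) -
        (P0 ν : ℤ) * a := by
    intro i
    have h2 : ((P0 ν : ℕ) : ℤ) =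
        ((i.val : ℤ) + 1) * ((∏ q ∈ Finset.univ.erase i, (q.val + 1) : ℕ) : ℤ) := by
      rw [← mul_prod_erase' i]
      push_cast
      ring
    have h3 : ((ν - i.val : ℕ) : ℤ) = (ν : ℤ) - i.val := by
      have := i.isLt
      omega
    rw [h2, h3]
    ring
  rw [Finset.sum_congr rfl fun i _ => h1 i, Finset.sum_sub_distrib, ← Finset.sum_mul]
  have h4 : (∑ i : Fin ν, ((∏ q ∈ Finset.univ.erase i, (q.val + 1) : ℕ) : ℤ)) = (H0 ν : ℤ) := by
    unfold H0
    rw [Nat.cast_sum]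
  rw [h4, Finset.sum_const, Finset.card_univ, Fintype.card_fin]
  simp only [nsmul_eq_mul]
  ring

private theorem chi_ne' (l : K) (m : S → K) (hl : l ≠ 0) (hm : ∀ t, m t ≠ 0) (D : Deg S) :
    chi l m D ≠ 0 := by
  unfold chi
  exact mul_ne_zero (zpow_ne_zero _ hl)
    (Finset.prod_ne_zero_iff.2 fun t _ => zpow_ne_zero _ (hm t))

private theorem ord_chi' (v : Place k K) (l : K) (m : S → K) (hl : l ≠ 0) (hm : ∀ t, m t ≠ 0)
    (D : Deg S) : v.ord (chi l m D) = D.1 * v.ord l + ∑ t, D.2 t * v.ord (m t) := by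
  unfold chi
  rw [v.ord_mul _ _ (zpow_ne_zero _ hl)
    (Finset.prod_ne_zero_iff.2 fun t _ => zpow_ne_zero _ (hm t)),
    ord_prod' v _ _ (fun t => zpow_ne_zero _ (hm t)), Place.ord_zpow]
  simp only [Place.ord_zpow]

theorem weight_eval (X : Fam k J S c (ν + 1)) (v : Place k K) (l : K) (m : S → K) (hl : l ≠ 0)
    (hm : ∀ t, m t ≠ 0) :
    -((∏ j, ds c ν j : ℕ) : ℤ) * ∑ i, v.ord (mu X m i) +
      ∑ j, ((∏ i ∈ Finset.univ.erase j, ds c ν i : ℕ) : ℤ) * v.ord (rh X l m j) -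
      ((∏ j, ds c ν j : ℕ) : ℤ) * v.ord l = v.ord (chi l m (TN X)) := by
  have hmu : ∀ i : Fin (c + ν + 1), v.ord (mu X m i) =
      -∑ t, X.α (i : Fin (c + (ν + 1))) t * v.ord (m t) := by
    intro i
    unfold mu
    rw [ord_chi' v 1 m one_ne_zero hm]
    simp only [wt, Sum.elim_inl, Place.ord_one, mul_zero, zero_add, Pi.neg_apply, neg_mul,
      Finset.sum_neg_distrib]
  have hrh1 : ∀ i : Fin c, v.ord (rh X l m (Fin.castAdd ν i)) =
      ∑ t, X.γ i t * v.ord (m t) := by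
    intro i
    unfold rh
    rw [dif_pos (by simp [Fin.val_castAdd] : (Fin.castAdd ν i).val < c),
      ord_chi' v 1 m one_ne_zero hm]
    simp only [Place.ord_one, mul_zero, zero_add]
    rfl
  have hrh2 : ∀ i : Fin ν, v.ord (rh X l m (Fin.natAdd c i)) =
      ((ν - i.val : ℕ) : ℤ) * v.ord l + ∑ t, X.β t * v.ord (m t) := by
    intro i
    unfold rh
    rw [dif_neg (by simp [Fin.val_natAdd] : ¬ (Fin.natAdd c i).val < c),
      v.ord_mul _ _ (pow_ne_zero _ hl) (chi_ne' 1 m one_ne_zero hm _), Place.ord_pow,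
      ord_chi' v 1 m one_ne_zero hm]
    simp only [Place.ord_one, mul_zero, zero_add, Fin.val_natAdd, Nat.add_sub_cancel_left]
  have hT := ord_chi' v l m hl hm (TN X)
  have hs : ∑ j, ((∏ i ∈ Finset.univ.erase j, ds c ν i : ℕ) : ℤ) * v.ord (rh X l m j) =
      ∑ j, (P0 ν : ℤ) * ∑ t, X.γ j t * v.ord (m t) +
        ((((ν : ℤ) + 1) * (H0 ν : ℤ) - (ν : ℤ) * (P0 ν : ℤ)) * v.ord l +
          (H0 ν : ℤ) * ∑ t, X.β t * v.ord (m t)) := by
    rw [Fin.sum_univ_add, ← sum_weight]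
    simp only [hrh1, hrh2, prod_erase_lt, prod_erase_ge]
  rw [hT, prod_ds, hs]
  simp only [hmu]
  have hT2 : ∀ t, (TN X).2 t = (H0 ν : ℤ) * X.β t +
      (P0 ν : ℤ) * (∑ j, X.γ j t + ∑ i, X.α i t) := by
    intro t
    unfold TN sig
    simp only [Pi.add_apply, Pi.smul_apply, smul_eq_mul, Finset.sum_apply]
  have hT1 : (TN X).1 = ((ν : ℤ) + 1) * ((H0 ν : ℤ) - P0 ν) := rfl
  rw [hT1]
  have e1 : ∑ t, (TN X).2 t * v.ord (m t) = (H0 ν : ℤ) * ∑ t, X.β t * v.ord (m t) +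
      (P0 ν : ℤ) * ∑ j, ∑ t, X.γ j t * v.ord (m t) +
      (P0 ν : ℤ) * ∑ i, ∑ t, X.α i t * v.ord (m t) := by
    rw [Finset.sum_comm (s := (Finset.univ : Finset (Fin c))),
      Finset.sum_comm (s := (Finset.univ : Finset (Fin (c + (ν + 1))))), Finset.mul_sum,
      Finset.mul_sum, Finset.mul_sum, ← Finset.sum_add_distrib, ← Finset.sum_add_distrib]
    refine Finset.sum_congr rfl fun t _ => ?_
    rw [hT2 t, ← Finset.sum_mul, ← Finset.sum_mul]
    ring
  rw [e1, ← Finset.mul_sum, Finset.sum_neg_distrib]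
  have e2 : (∑ i : Fin (c + ν + 1), ∑ t, X.α (i : Fin (c + (ν + 1))) t * v.ord (m t)) =
      ∑ i : Fin (c + (ν + 1)), ∑ t, X.α i t * v.ord (m t) := rfl
  rw [e2]
  ring

end Pool.Agent.LibPK60
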