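import Pool.Agent.LibPK60.Defs

/-!
[PK60 K1] square of the Koszul differential, linearity. Plan:
Conventions (Defs.lean): a chain `f` stands for the sum of `f(J) e_J` over the subsets `J`; `kd g` is the Koszul differential (contraction, `e_j` goes to `g_j`, sign `sg j J` = (-1)^(number of `i` in `J` below `j`)); `kh j` is multiplication by `e_j`.
`kd_kd`: (kd kd f)(J) is the double sum over `j` not in `J` and `i` not in `insert j J` of `sg j J * sg i (insert j J) * g_j g_i f(insert i (insert j J))`; the terms `(i, j)` and `(j, i)` cancel: for `i < j` one has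
`sg i (insert j J) = sg i J` and `sg j (insert i J) = - sg j J`. Suggested: write both sums over `Finset.univ` with `if` (or over the off-diagonal pairs of the complement of `J`) and use `Finset.sum_involution` / antisymmetry under the exchange `(i, j) -> (j, i)` (`T i j = - T j i` gives `sum = - sum`; to avoid dividing by two use
`Finset.sum_involution`). The other statements are immediate from the definition (`smul_add`, `map_sum`, `map_zsmul`).
-/

open scoped Classical
open MvPolynomial

set_option linter.unusedSectionVars false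

namespace Pool.Agent.LibPK60

variable {S Q : Type} [CommRing S] [AddCommGroup Q] [Module S Q] {M : ℕ}

private lemma k1_sg_gt {i j : Fin M} (h : i < j) (J : Finset (Fin M)) :
    sg i (insert j J) = sg i J := by
  unfold sg
  rw [Finset.filter_insert, if_neg (not_lt.2 h.le)]

private lemma k1_sg_lt {i j : Fin M} (h : i < j) {J : Finset (Fin M)} (hi : i ∉ J) :
    sg j (insert i J) = - sg j J := by
  unfold sg
  rw [Finset.filter_insert, if_pos h, Finset.card_insert_of_notMem
    (fun hm => hi (Finset.mem_filter.1 hm).1), pow_succ]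
  ring

private lemma k1_sg {i j : Fin M} {J : Finset (Fin M)} (hi : i ∉ J) (hj : j ∉ J) (hij : i ≠ j) :
    sg j J * sg i (insert j J) = - (sg i J * sg j (insert i J)) := by
  rcases lt_or_gt_of_ne hij with h | h
  · rw [k1_sg_gt h, k1_sg_lt h hi]
    ring
  · rw [k1_sg_gt h, k1_sg_lt h hj]
    ring

private noncomputable def k1T (g : Fin M → S) (f : Finset (Fin M) → Q) (J : Finset (Fin M))
    (p : Fin M × Fin M) : Q :=
  if p.1 ∉ J ∧ p.2 ∉ J ∧ p.2 ≠ p.1 then
    (sg p.1 J * sg p.2 (insert p.1 J)) • ((g p.1 * g p.2) • f (insert p.2 (insert p.1 J))) else 0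

theorem kd_kd (g : Fin M → S) (f : Finset (Fin M) → Q) : kd g (kd g f) = 0 := by
  funext J
  have h1 : kd g (kd g f) J = ∑ j : Fin M, ∑ i : Fin M, k1T g f J (j, i) := by
    have h2 : ∀ j ∈ Jᶜ, sg j J • (g j • kd g f (insert j J)) = ∑ i : Fin M, k1T g f J (j, i) := by
      intro j hj
      have hj' : j ∉ J := Finset.mem_compl.1 hj
      have h3 : ∑ i : Fin M, k1T g f J (j, i) = ∑ i ∈ (insert j J)ᶜ, k1T g f J (j, i) := by
        symm
        refine Finset.sum_subset (Finset.subset_univ _) ?_
        intro i _ hi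
        unfold k1T
        rw [if_neg]
        rintro ⟨_, h5, h6⟩
        apply hi
        rw [Finset.mem_compl, Finset.mem_insert]
        rintro (h7 | h7)
        · exact h6 h7
        · exact h5 h7
      rw [h3]
      unfold kd
      rw [Finset.smul_sum, Finset.smul_sum]
      refine Finset.sum_congr rfl fun i hi => ?_
      rw [Finset.mem_compl, Finset.mem_insert, not_or] at hi
      unfold k1T
      rw [if_pos ⟨hj', hi.2, hi.1⟩]
      show sg j J • (g j • (sg i (insert j J) • (g i • f (insert i (insert j J))))) = _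
      rw [smul_comm (g j) (sg i (insert j J)), smul_smul, smul_smul]
    have h4 : kd g (kd g f) J = ∑ j ∈ Jᶜ, sg j J • (g j • kd g f (insert j J)) := rfl
    rw [h4, Finset.sum_congr rfl h2]
    refine Finset.sum_subset (Finset.subset_univ _) ?_
    intro j _ hj
    refine Finset.sum_eq_zero fun i _ => ?_
    unfold k1T
    rw [if_neg]
    rintro ⟨h5, _⟩
    exact hj (Finset.mem_compl.2 h5)
  rw [h1, ← Fintype.sum_prod_type (fun p : Fin M × Fin M => k1T g f J p)]
  show _ = (0 : Q)
  refine Finset.sum_involution (fun p _ => (p.2, p.1)) ?_ ?_ ?_ ?_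
  · rintro ⟨j, i⟩ _
    unfold k1T
    by_cases h : j ∉ J ∧ i ∉ J ∧ i ≠ j
    · rw [if_pos h, if_pos ⟨h.2.1, h.1, h.2.2.symm⟩]
      show (sg j J * sg i (insert j J)) • ((g j * g i) • f (insert i (insert j J))) +
        (sg i J * sg j (insert i J)) • ((g i * g j) • f (insert j (insert i J))) = 0
      rw [k1_sg h.2.1 h.1 h.2.2, mul_comm (g i) (g j), Finset.insert_comm j i J, neg_smul,
        neg_add_cancel]
    · rw [if_neg h, if_neg (fun h' => h ⟨h'.2.1, h'.1, h'.2.2.symm⟩), add_zero]
  · rintro ⟨j, i⟩ _ hne heq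
    apply hne
    unfold k1T
    rw [if_neg]
    rintro ⟨_, _, h⟩
    exact h (congrArg Prod.fst heq)
  · rintro ⟨j, i⟩ _
    exact Finset.mem_univ _
  · rintro ⟨j, i⟩ _
    rfl

theorem kd_add (g : Fin M → S) (f f' : Finset (Fin M) → Q) :
    kd g (f + f') = kd g f + kd g f' := by
  funext J
  show ∑ j ∈ Jᶜ, sg j J • (g j • (f (insert j J) + f' (insert j J))) =
    ∑ j ∈ Jᶜ, sg j J • (g j • f (insert j J)) + ∑ j ∈ Jᶜ, sg j J • (g j • f' (insert j J))
  rw [← Finset.sum_add_distrib]
  refine Finset.sum_congr rfl fun j _ => ?_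
  rw [smul_add, smul_add]

theorem kd_sub (g : Fin M → S) (f f' : Finset (Fin M) → Q) :
    kd g (f - f') = kd g f - kd g f' := by
  funext J
  show ∑ j ∈ Jᶜ, sg j J • (g j • (f (insert j J) - f' (insert j J))) =
    ∑ j ∈ Jᶜ, sg j J • (g j • f (insert j J)) - ∑ j ∈ Jᶜ, sg j J • (g j • f' (insert j J))
  rw [← Finset.sum_sub_distrib]
  refine Finset.sum_congr rfl fun j _ => ?_
  rw [smul_sub, smul_sub]

theorem kd_zero (g : Fin M → S) : kd g (0 : Finset (Fin M) → Q) = 0 := by
  funext J
  show ∑ j ∈ Jᶜ, sg j J • (g j • (0 : Q)) = 0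
  refine Finset.sum_eq_zero fun j _ => ?_
  rw [smul_zero, smul_zero]

theorem kd_smul (g : Fin M → S) (s : S) (f : Finset (Fin M) → Q) :
    kd g (fun J => s • f J) = fun J => s • kd g f J := by
  funext J
  show ∑ j ∈ Jᶜ, sg j J • (g j • (s • f (insert j J))) =
    s • ∑ j ∈ Jᶜ, sg j J • (g j • f (insert j J))
  rw [Finset.smul_sum]
  refine Finset.sum_congr rfl fun j _ => ?_
  rw [smul_comm s (sg j J), smul_comm s (g j)]

theorem kd_map {Q' : Type} [AddCommGroup Q'] [Module S Q'] (g : Fin M → S) (φ : Q →ₗ[S] Q')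
    (f : Finset (Fin M) → Q) : kd g (fun J => φ (f J)) = fun J => φ (kd g f J) := by
  funext J
  show ∑ j ∈ Jᶜ, sg j J • (g j • φ (f (insert j J))) =
    φ (∑ j ∈ Jᶜ, sg j J • (g j • f (insert j J)))
  rw [map_sum]
  refine Finset.sum_congr rfl fun j _ => ?_
  rw [map_zsmul, map_smul]

/-- `kd` lowers the exterior degree by one -/
theorem kd_supp (g : Fin M → S) (s : ℕ) (f : Finset (Fin M) → Q)
    (hf : ∀ J, J.card < s + 1 → f J = 0) : ∀ J, J.card < s → kd g f J = 0 := by
  intro J hJ
  show ∑ j ∈ Jᶜ, sg j J • (g j • f (insert j J)) = 0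
  refine Finset.sum_eq_zero fun j hj => ?_
  have h1 : (insert j J).card < s + 1 := by
    rw [Finset.card_insert_of_notMem (Finset.mem_compl.1 hj)]
    omega
  rw [hf _ h1, smul_zero, smul_zero]

end Pool.Agent.LibPK60
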