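import Pool.Agent.LibPK60.Defs

/-!
[PK60 K2] homotopy formula. Plan:
Conventions (Defs.lean): a chain `f` stands for the sum of `f(J) e_J` over the subsets `J`; `kd g` is the Koszul differential (contraction, `e_j` goes to `g_j`, sign `sg j J` = (-1)^(number of `i` in `J` below `j`)); `kh j` is multiplication by `e_j`.
`(kd (kh_j f))(J)` is the sum over `i` not in `J` of `sg i J g_i (kh_j f)(insert i J)`. The term `i = j` (if `j` is not in `J`) is `sg j J ^ 2 g_j f(J) = g_j f(J)`; for `i /= j` and `j` in `J` it is
`sg i J * sg j ((insert i J).erase j) * g_i f((insert i J).erase j)`. `(kh_j (kd f))(J)` (for `j` in `J`) is `sg j (J.erase j)` times the sum over `i` not in `J.erase j` of `sg i (J.erase j) g_i f(insert i (J.erase j))`: the term `i = j` is `g_j f(J)`, the others cancel the terms above: for `i < j`,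
`sg i J = sg i (J.erase j)`, `sg j (insert i (J.erase j)) = - sg j (J.erase j)`; for `j < i`: `sg i J = - sg i (J.erase j)`, `sg j (insert i (J.erase j)) = sg j (J.erase j)`. Distinguish `j` in `J` or not. `kh_supp`: immediate (`Finset.card_erase_of_mem`).
-/

open scoped Classical
open MvPolynomial

set_option linter.unusedSectionVars false

namespace Pool.Agent.LibPK60

variable {S Q : Type} [CommRing S] [AddCommGroup Q] [Module S Q] {M : ℕ}

private lemma sg_sq (j : Fin M) (J : Finset (Fin M)) : sg j J * sg j J = 1 := by
  unfold sg
  rw [← pow_add, ← two_mul, pow_mul]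
  norm_num

private lemma sg_insert (i j : Fin M) (K : Finset (Fin M)) (hi : i ∉ K) :
    sg j (insert i K) = if i < j then - sg j K else sg j K := by
  unfold sg
  rw [Finset.filter_insert]
  split_ifs with h
  · rw [Finset.card_insert_of_notMem (fun hh => hi (Finset.mem_filter.1 hh).1), pow_succ]
    ring
  · rfl

private lemma sg_cancel (i j : Fin M) (K : Finset (Fin M)) (hi : i ∉ K) (hj : j ∉ K)
    (hij : i ≠ j) :
    sg i (insert j K) * sg j (insert i K) = - (sg j K * sg i K) := by
  rw [sg_insert j i K hj, sg_insert i j K hi]
  rcases lt_or_gt_of_ne hij with h | h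
  · rw [if_neg (not_lt.2 h.le), if_pos h]
    ring
  · rw [if_pos h, if_neg (not_lt.2 h.le)]
    ring

theorem kd_kh (g : Fin M → S) (j : Fin M) (f : Finset (Fin M) → Q) :
    kd g (kh j f) + kh j (kd g f) = fun J => g j • f J := by
  funext J
  rw [Pi.add_apply]
  by_cases hj : j ∈ J
  · obtain ⟨K, hK⟩ : ∃ K, K = J.erase j := ⟨_, rfl⟩
    have hjK : j ∉ K := by
      rw [hK]
      exact Finset.notMem_erase j J
    have hJ : J = insert j K := by
      rw [hK, Finset.insert_erase hj]
    have e1 : kh j (kd g f) J = sg j K • kd g f K := by
      unfold kh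
      rw [if_pos hj, ← hK]
    have hcompl : Kᶜ = insert j Jᶜ := by
      ext i
      rw [Finset.mem_compl, Finset.mem_insert, Finset.mem_compl, hJ, Finset.mem_insert]
      constructor
      · intro h
        by_cases hij : i = j
        · exact Or.inl hij
        · exact Or.inr (fun h' => h'.elim hij h)
      · rintro (h | h) h'
        · exact hjK (h ▸ h')
        · exact h (Or.inr h')
    have e2 : kd g f K = sg j K • (g j • f J) +
        ∑ i ∈ Jᶜ, sg i K • (g i • f (insert i K)) := by
      unfold kd
      rw [hcompl, Finset.sum_insert (by rw [Finset.mem_compl, not_not]; exact hj), ← hJ]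
    have e3 : kd g (kh j f) J = ∑ i ∈ Jᶜ, - (sg j K • (sg i K • (g i • f (insert i K)))) := by
      unfold kd
      apply Finset.sum_congr rfl
      intro i hi
      have hiJ : i ∉ J := Finset.mem_compl.1 hi
      have hij : i ≠ j := fun h => hiJ (h ▸ hj)
      have hiK : i ∉ K := fun h => hiJ (by rw [hJ]; exact Finset.mem_insert_of_mem h)
      have e4 : (insert i J).erase j = insert i K := by
        rw [hJ, Finset.insert_comm, Finset.erase_insert]
        rw [Finset.mem_insert]
        rintro (h | h)
        · exact hij h.symm
        · exact hjK h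
      have e5 : kh j f (insert i J) = sg j (insert i K) • f (insert i K) := by
        unfold kh
        rw [if_pos (Finset.mem_insert_of_mem hj), e4]
      rw [e5, smul_comm (g i) (sg j (insert i K)), smul_smul, smul_smul, ← neg_smul,
        ← sg_cancel i j K hiK hjK hij, ← hJ]
    rw [e3, e1, e2, smul_add, smul_smul, sg_sq, one_smul, Finset.smul_sum,
      Finset.sum_neg_distrib]
    abel
  · have e1 : kh j (kd g f) J = 0 := by
      unfold kh
      rw [if_neg hj]
    have e3 : kd g (kh j f) J = sg j J • (g j • kh j f (insert j J)) := by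
      unfold kd
      refine Finset.sum_eq_single_of_mem j (Finset.mem_compl.2 hj) ?_
      intro i _ hij
      have : kh j f (insert i J) = 0 := by
        unfold kh
        rw [if_neg]
        rw [Finset.mem_insert]
        rintro (h | h)
        · exact hij h.symm
        · exact hj h
      rw [this, smul_zero, smul_zero]
    have e5 : kh j f (insert j J) = sg j J • f J := by
      unfold kh
      rw [if_pos (Finset.mem_insert_self j J), Finset.erase_insert hj]
    rw [e1, add_zero, e3, e5, smul_comm (g j) (sg j J), smul_smul, sg_sq, one_smul]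

/-- `kh` raises the exterior degree by one -/
theorem kh_supp (j : Fin M) (s : ℕ) (f : Finset (Fin M) → Q)
    (hf : ∀ J, J.card < s → f J = 0) : ∀ J, J.card < s + 1 → kh j f J = 0 := by
  intro J hJ
  unfold kh
  split_ifs with h
  · rw [hf, smul_zero]
    have h1 : 0 < J.card := Finset.card_pos.2 ⟨j, h⟩
    rw [Finset.card_erase_of_mem h]
    omega
  · rfl

end Pool.Agent.LibPK60
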