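import Pool.Agent.LibPK60.K1
import Pool.Agent.LibPK60.K2

/-!
[PK60 K3] acyclicity from a regular sequence. Plan:
Conventions (Defs.lean): a chain `f` stands for the sum of `f(J) e_J` over the subsets `J`; `kd g` is the Koszul differential (contraction, `e_j` goes to `g_j`, sign `sg j J` = (-1)^(number of `i` in `J` below `j`)); `kh j` is multiplication by `e_j`.
`Acy g Q s` (Defs.lean): cycles with components of exterior degree at least `s` are boundaries of chains of exterior degree at least `s + 1`.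
`acy_step`. Let `f` be a cycle, `f J = 0` for `J.card < s`. `y = ∑ c_j g_j` (`Ideal.mem_span_range_iff_exists_fun`). Put `w := ∑ c_j • kh j f`: `kd w = y • f` (by `kd_kh` and `kd f = 0`, `kd_smul`, `kd_add`), `w J = 0` for `J.card < s + 1`. The image of `w` in `QuotSMulTop y Q = Q ⧸ (y • ⊤)` (`Submodule.mkQ`, `kd_map`) is a cycle
(its boundary is the image of `y • f`, zero), of exterior degree at least `s + 1`; by `h` it is the boundary of a chain `ū` (`ū J = 0` for `J.card < s + 2`). Lift `ū` to `u` (choose `u J = 0` for `J.card < s + 2`): `w - kd u` has values in `y • ⊤`: choose `w'` with `w - kd u = y • w'`, `w' J = 0` for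
`J.card < s + 1` (there `w J = 0` and `kd u J = 0` by `kd_supp`). Then `y • f = kd w = kd (kd u) + y • kd w' = y • kd w'`, and `f = kd w'` because `y` is a nonzerodivisor (`IsSMulRegular`). `acy_reg`: induction on `rs`, generalizing `Q` and `s` (`RingTheory.Sequence.isWeaklyRegular_cons_iff`); for `rs = []`: `M + 1 ≤ s`, all
`J.card ≤ M`, so `f = 0` (take `f' = 0`); if `s = 0`, apply... note `s + rs.length` decreases correctly: for `y :: rs` use `h` for `QuotSMulTop y Q` and `s + 1`.
-/

open scoped Classical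
open MvPolynomial

set_option linter.unusedSectionVars false

namespace Pool.Agent.LibPK60

variable {S Q : Type} [CommRing S] [AddCommGroup Q] [Module S Q] {M : ℕ}

private theorem k3_kd_sum (g : Fin M → S) (T : Finset (Fin M))
    (F : Fin M → Finset (Fin M) → Q) :
    kd g (∑ j ∈ T, F j) = ∑ j ∈ T, kd g (F j) := by
  induction T using Finset.induction_on with
  | empty =>
    rw [Finset.sum_empty, Finset.sum_empty]
    exact kd_zero g
  | insert a T ha ih =>
    rw [Finset.sum_insert ha, Finset.sum_insert ha, kd_add, ih]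

private theorem k3_kh_zero (j : Fin M) : kh j (0 : Finset (Fin M) → Q) = 0 := by
  funext J
  simp [kh]

open scoped Pointwise in
private theorem k3_pi (y : S) : ∃ π : Q →ₗ[S] QuotSMulTop y Q, Function.Surjective π ∧
    (∀ q : Q, π (y • q) = 0) ∧ (∀ q : Q, π q = 0 → ∃ q', y • q' = q) := by
  refine ⟨Submodule.mkQ (y • (⊤ : Submodule S Q)), Submodule.mkQ_surjective _, ?_, ?_⟩
  · intro q
    exact (Submodule.Quotient.mk_eq_zero (y • (⊤ : Submodule S Q))).2
      (Submodule.smul_mem_pointwise_smul q y ⊤ Submodule.mem_top)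
  · intro q hq
    have h2 := (Submodule.Quotient.mk_eq_zero (y • (⊤ : Submodule S Q))).1 hq
    obtain ⟨q', _, hq'⟩ := (Submodule.mem_smul_pointwise_iff_exists q y ⊤).1 h2
    exact ⟨q', hq'⟩

theorem acy_step (g : Fin M → S) (y : S) (hy : y ∈ Ideal.span (Set.range g))
    (hreg : IsSMulRegular Q y) (s : ℕ) (h : Acy g (QuotSMulTop y Q) (s + 1)) : Acy g Q s := by
  intro f hf hs
  obtain ⟨c, hc⟩ := Ideal.mem_span_range_iff_exists_fun.1 hy
  obtain ⟨w, hw⟩ : ∃ w : Finset (Fin M) → Q, w = ∑ j, (fun J => c j • kh j f J) := ⟨_, rfl⟩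
  have hkh : ∀ j, kd g (kh j f) = fun J => g j • f J := by
    intro j
    have h1 := kd_kh g j f
    rw [hf, k3_kh_zero, add_zero] at h1
    exact h1
  have hkw : kd g w = fun J => y • f J := by
    rw [hw, k3_kd_sum]
    funext J
    rw [Finset.sum_apply, ← hc, Finset.sum_smul]
    refine Finset.sum_congr rfl fun j _ => ?_
    rw [kd_smul, hkh j]
    show c j • (g j • f J) = (c j * g j) • f J
    rw [mul_smul]
  have hw0 : ∀ J, J.card < s + 1 → w J = 0 := by
    intro J hJ
    rw [hw, Finset.sum_apply]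
    refine Finset.sum_eq_zero fun j _ => ?_
    show c j • kh j f J = 0
    rw [kh_supp j s f hs J hJ, smul_zero]
  obtain ⟨π, hπs, hπy, hπk⟩ := k3_pi (Q := Q) y
  obtain ⟨ub, hub0, hub⟩ := h (fun J => π (w J)) (by
    rw [kd_map, hkw]
    funext J
    exact hπy (f J)) (by
    intro J hJ
    show π (w J) = 0
    rw [hw0 J hJ, map_zero])
  obtain ⟨v, hv⟩ : ∃ v : Finset (Fin M) → Q, ∀ J, π (v J) = ub J :=
    ⟨fun J => (hπs (ub J)).choose, fun J => (hπs (ub J)).choose_spec⟩
  obtain ⟨u, hu⟩ : ∃ u : Finset (Fin M) → Q, u = fun J => if J.card < s + 1 + 1 then 0 else v J :=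
    ⟨_, rfl⟩
  have hu0 : ∀ J, J.card < s + 1 + 1 → u J = 0 := by
    intro J hJ
    rw [hu]
    exact if_pos hJ
  have huπ : (fun J => π (u J)) = ub := by
    funext J
    by_cases hJ : J.card < s + 1 + 1
    · rw [hu0 J hJ, map_zero, hub0 J hJ]
    · rw [hu]
      show π (if J.card < s + 1 + 1 then 0 else v J) = ub J
      rw [if_neg hJ, hv J]
  have hku : ∀ J, π (kd g u J) = π (w J) := by
    intro J
    have h3 := kd_map g π u
    rw [huπ, hub] at h3
    exact (congrFun h3 J).symm
  have hex : ∀ J, ∃ q', y • q' = w J - kd g u J := by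
    intro J
    refine hπk _ ?_
    rw [map_sub, hku J, sub_self]
  obtain ⟨z, hz⟩ : ∃ z : Finset (Fin M) → Q, ∀ J, y • z J = w J - kd g u J :=
    ⟨fun J => (hex J).choose, fun J => (hex J).choose_spec⟩
  obtain ⟨w', hw'⟩ : ∃ w' : Finset (Fin M) → Q, w' = fun J => if J.card < s + 1 then 0 else z J :=
    ⟨_, rfl⟩
  have hw'0 : ∀ J, J.card < s + 1 → w' J = 0 := by
    intro J hJ
    rw [hw']
    exact if_pos hJ
  have hyw : (fun J => y • w' J) = w - kd g u := by
    funext J
    show y • w' J = w J - kd g u J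
    by_cases hJ : J.card < s + 1
    · rw [hw'0 J hJ, hw0 J hJ, kd_supp g (s + 1) u hu0 J hJ, smul_zero, sub_zero]
    · rw [hw']
      show y • (if J.card < s + 1 then 0 else z J) = w J - kd g u J
      rw [if_neg hJ, hz J]
  refine ⟨w', hw'0, ?_⟩
  have h4 : (fun J => y • kd g w' J) = fun J => y • f J := by
    rw [← kd_smul, hyw, kd_sub, kd_kd, sub_zero, hkw]
  funext J
  exact hreg (congrFun h4 J)

private theorem k3_acy_reg (g : Fin M → S) : ∀ (rs : List S),
    (∀ y ∈ rs, y ∈ Ideal.span (Set.range g)) → ∀ (Q : Type) [AddCommGroup Q] [Module S Q],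
    RingTheory.Sequence.IsWeaklyRegular Q rs → ∀ s : ℕ, M + 1 ≤ s + rs.length → Acy g Q s := by
  intro rs
  induction rs with
  | nil =>
    intro _ Q _ _ _ s hs f _ hf0
    have hf : f = 0 := by
      funext J
      refine hf0 J ?_
      have h1 : J.card ≤ Fintype.card (Fin M) := Finset.card_le_univ J
      rw [Fintype.card_fin] at h1
      simp only [List.length_nil] at hs
      omega
    refine ⟨0, fun _ _ => rfl, ?_⟩
    rw [hf, kd_zero]
  | cons y rs ih =>
    intro hrs Q _ _ h s hs
    rw [RingTheory.Sequence.isWeaklyRegular_cons_iff] at h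
    refine acy_step g y (hrs y List.mem_cons_self) h.1 s ?_
    refine ih (fun z hz => hrs z (List.mem_cons_of_mem _ hz)) (QuotSMulTop y Q) h.2 (s + 1) ?_
    simp only [List.length_cons] at hs
    omega

theorem acy_reg (g : Fin M → S) (rs : List S) (hrs : ∀ y ∈ rs, y ∈ Ideal.span (Set.range g))
    (h : RingTheory.Sequence.IsWeaklyRegular Q rs) (s : ℕ) (hs : M + 1 ≤ s + rs.length) :
    Acy g Q s :=
  k3_acy_reg g rs hrs Q h s hs

end Pool.Agent.LibPK60
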