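import Pool.Agent.LibPK60.Defs

/-!
[PK60 K4] powers of the variables form a regular sequence. Plan:
ONLY MATHLIB. `RingTheory.Sequence.isWeaklyRegular_iff`: for every `i < n` the element `X_i^D` is a nonzerodivisor on `S ⧸ (X_0^D, ..., X_(i-1)^D)`. The ideal `I_i = (X_0^D, ..., X_(i-1)^D)` is a monomial ideal: `f ∈ I_i` iff every monomial `α` in the support of `f` has some exponent `α_l ≥ D`, `l < i`
(`MvPolynomial.mem_ideal_span_monomial_image` with the set of exponents `Finsupp.single l D`, `l < i`; `X_l ^ D = monomial (single l D) 1`, `MvPolynomial.X_pow_eq_monomial`). If `X_i^D f ∈ I_i`, then for `α` in the support of `f` the monomial `α + single i D` is in the support of `X_i^D f`, it has an exponent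
`(α + single i D)_l ≥ D` with `l < i`, and `(α + single i D)_l = α_l`. So `f ∈ I_i`. In terms of `IsSMulRegular (S ⧸ (ofList (rs.take i) • ⊤))`: `Ideal.ofList`, `smul_eq_mul`, `Ideal.mul_top`; `IsSMulRegular` of a quotient module: `isSMulRegular_quotient_iff_mem_of_smul_mem` (look it up) or by hand with
`Submodule.Quotient.mk_surjective`, `Submodule.Quotient.mk_eq_zero`. `Ideal.ofList (rs.take i)` is the span of the set of the elements of the list `rs.take i`.
-/

open scoped Classical
open MvPolynomial

set_option linter.unusedSectionVars false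

namespace Pool.Agent.LibPK60

variable {κ : Type} [Field κ] {n M : ℕ}

theorem xpow_regular (κ : Type) [Field κ] (n D : ℕ) :
    RingTheory.Sequence.IsWeaklyRegular (MvPolynomial (Fin n) κ)
      ((List.finRange n).map fun i => (X i : MvPolynomial (Fin n) κ) ^ D) := by
  rw [RingTheory.Sequence.isWeaklyRegular_iff]
  intro i hi
  have hin : i < n := by simpa using hi
  rw [isSMulRegular_quotient_iff_mem_of_smul_mem]
  have hget : ((List.finRange n).map fun i => (X i : MvPolynomial (Fin n) κ) ^ D)[i] =
      monomial (Finsupp.single (⟨i, hin⟩ : Fin n) D) (1 : κ) := by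
    rw [List.getElem_map, List.getElem_finRange, X_pow_eq_monomial]
    rfl
  have hset : {x | x ∈ (((List.finRange n).map
      fun i => (X i : MvPolynomial (Fin n) κ) ^ D).take i)} =
      (fun s => monomial s (1 : κ)) '' {s | ∃ l : Fin n, l.val < i ∧ s = Finsupp.single l D} := by
    ext x
    simp only [Set.mem_setOf_eq, Set.mem_image, List.mem_take_iff_getElem]
    constructor
    · rintro ⟨j, hj, rfl⟩
      have hj1 : j < i := lt_of_lt_of_le hj (min_le_left _ _)
      have hj2 : j < n := hj1.trans hin
      refine ⟨Finsupp.single ⟨j, hj2⟩ D, ⟨⟨j, hj2⟩, hj1, rfl⟩, ?_⟩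
      rw [List.getElem_map, List.getElem_finRange, X_pow_eq_monomial]
      rfl
    · rintro ⟨_, ⟨l, hl, rfl⟩, rfl⟩
      refine ⟨l.val, ?_, ?_⟩
      · rw [List.length_map, List.length_finRange]
        exact lt_min hl l.isLt
      · rw [List.getElem_map, List.getElem_finRange, X_pow_eq_monomial]
        rfl
  have hideal : (Ideal.ofList (((List.finRange n).map
      fun i => (X i : MvPolynomial (Fin n) κ) ^ D).take i) • ⊤ :
      Submodule (MvPolynomial (Fin n) κ) (MvPolynomial (Fin n) κ)) =
      Ideal.span ((fun s => monomial s (1 : κ)) ''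
        {s | ∃ l : Fin n, l.val < i ∧ s = Finsupp.single l D}) := by
    rw [smul_eq_mul, Ideal.mul_top, Ideal.ofList, hset]
  rw [hideal, hget]
  intro f hf
  rw [smul_eq_mul] at hf
  rw [mem_ideal_span_monomial_image] at hf ⊢
  intro α hα
  have h1 : α + Finsupp.single (⟨i, hin⟩ : Fin n) D ∈
      (monomial (Finsupp.single (⟨i, hin⟩ : Fin n) D) (1 : κ) * f).support := by
    rw [mem_support_iff, add_comm, coeff_monomial_mul, one_mul]
    exact mem_support_iff.1 hα
  obtain ⟨s, ⟨l, hl, rfl⟩, hs⟩ := hf _ h1
  refine ⟨_, ⟨l, hl, rfl⟩, ?_⟩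
  rw [Finsupp.single_le_iff] at hs ⊢
  rw [Finsupp.add_apply, Finsupp.single_apply, if_neg, add_zero] at hs
  · exact hs
  · intro h
    rw [← h] at hl
    exact lt_irrefl _ hl

end Pool.Agent.LibPK60
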