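import Pool.Agent.LibPK60.K3
import Pool.Agent.LibPK60.K4

/-!
[PK60 K5] acyclicity for forms without common zero. Plan:
`null_pow`: Nullstellensatz. The zero locus of `I = Ideal.span (Set.range g)` is contained in `{0}`, so `X_i` vanishes on it and lies in the radical (`MvPolynomial.vanishingIdeal_zeroLocus_eq_radical` or the current form of the Nullstellensatz in `Mathlib/RingTheory/Nullstellensatz.lean`); take the largest of the
finitely many exponents (plus one). `acy_forms`: `acy_reg` with the list `xpow_regular κ n D`, of length `n`, `s = 1`.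
-/

open scoped Classical
open MvPolynomial

set_option linter.unusedSectionVars false

namespace Pool.Agent.LibPK60

variable {κ : Type} [Field κ] {n M : ℕ}

theorem null_pow [IsAlgClosed κ] (g : Fin M → MvPolynomial (Fin n) κ)
    (h : ∀ w : Fin n → κ, (∀ j, eval w (g j) = 0) → w = 0) :
    ∃ D : ℕ, ∀ i, (X i : MvPolynomial (Fin n) κ) ^ D ∈ Ideal.span (Set.range g) := by
  have h1 : ∀ i : Fin n, ∃ m : ℕ,
      (X i : MvPolynomial (Fin n) κ) ^ m ∈ Ideal.span (Set.range g) := by
    intro i
    have h2 : (X i : MvPolynomial (Fin n) κ) ∈ (Ideal.span (Set.range g)).radical := by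
      rw [← vanishingIdeal_zeroLocus_eq_radical (K := κ)]
      rw [mem_vanishingIdeal_iff]
      intro x hx
      have hx0 : x = 0 := by
        refine h x fun j => ?_
        have h3 := hx (g j) (Ideal.subset_span ⟨j, rfl⟩)
        rwa [aeval_eq_eval] at h3
      rw [aeval_X, hx0]
      rfl
    exact h2
  choose m hm using h1
  refine ⟨∑ i, m i, fun i => ?_⟩
  have h4 : m i ≤ ∑ i, m i :=
    Finset.single_le_sum (f := m) (fun _ _ => Nat.zero_le _) (Finset.mem_univ i)
  obtain ⟨r, hr⟩ := Nat.exists_eq_add_of_le h4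
  rw [hr, pow_add]
  exact Ideal.mul_mem_right _ _ (hm i)

theorem acy_forms [IsAlgClosed κ] (g : Fin n → MvPolynomial (Fin n) κ)
    (h : ∀ w : Fin n → κ, (∀ j, eval w (g j) = 0) → w = 0) :
    Acy g (MvPolynomial (Fin n) κ) 1 := by
  obtain ⟨D, hD⟩ := null_pow g h
  refine acy_reg g ((List.finRange n).map fun i => (X i : MvPolynomial (Fin n) κ) ^ D) ?_
    (xpow_regular κ n D) 1 ?_
  · intro y hy
    obtain ⟨i, _, rfl⟩ := List.mem_map.1 hy
    exact hD i
  · rw [List.length_map, List.length_finRange]
    omega

end Pool.Agent.LibPK60
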