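import Pool.Agent.LibPK60.Defs

/-!
[PK60 K6] the number of even and odd monomials. Plan:
ONLY MATHLIB. Number of `α : Fin (n+1) →₀ ℕ` with `∑ i, α i = e`: `Nat.choose (e + n) n` (`Sym.card_sym_eq_choose` and the equivalence between `Sym` and finsupps of given sum, or `Finset.finsuppAntidiag` / `Finset.piAntidiag` cardinality lemmas, or induction). So (number of even) - (number of odd) =
`∑ J, (-1)^(J.card) * choose (d - ∑_(j in J) δ_j + n) n`. For natural numbers `e ≥ 0` the binomial `choose (e + n) n` is `f(e)` for a polynomial `f : Polynomial ℚ` of degree `n` (`(e+1)(e+2)...(e+n)/n!`, `ascPochhammer`), and for a polynomial of degree less than the number `n + 1` of the `δ_j`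
the alternating sum `∑ J, (-1)^(J.card) f(d - ∑_(j in J) δ_j)` vanishes: induction on the number of the `δ_j` (`Fin (M+1)`, `Finset (Fin (M+1))` split by membership of the last element; the difference `f(x) - f(x - δ)` has smaller degree, or is zero). (helper22 proves this difference lemma on board PK22 as `diff_sum` in LibPK60/Diff.lean:
if it is in the store you may use it.) All arguments `d - ∑ δ` are nonnegative because `∑ δ ≤ d`.
-/

open scoped Classical
open MvPolynomial

set_option linter.unusedSectionVars false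

namespace Pool.Agent.LibPK60

/-- monomials with an exterior part -/
def Iy (n : ℕ) {M : ℕ} (δ : Fin M → ℕ) (d : ℕ) : Type :=
  {t : Finset (Fin M) × (Fin n →₀ ℕ) // (∑ i, t.2 i) + ∑ j ∈ t.1, δ j = d}

instance iy_finite {n M : ℕ} (δ : Fin M → ℕ) (d : ℕ) : Finite (Iy n δ d) := by
  have hb : ∀ (t : Iy n δ d) (i : Fin n), t.1.2 i < d + 1 := by
    intro t i
    have h1 := t.2
    have h2 : t.1.2 i ≤ ∑ i, t.1.2 i :=
      Finset.single_le_sum (f := fun i => t.1.2 i) (fun _ _ => Nat.zero_le _) (Finset.mem_univ i)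
    omega
  refine Finite.of_injective (β := Finset (Fin M) × (Fin n → Fin (d + 1)))
    (fun t => (t.1.1, fun i => ⟨t.1.2 i, hb t i⟩)) ?_
  intro t t' h
  simp only [Prod.mk.injEq] at h
  obtain ⟨h2, h3⟩ := h
  refine Subtype.ext (Prod.ext h2 (Finsupp.ext fun i => ?_))
  have := congrFun h3 i
  simpa using congrArg Fin.val this

noncomputable instance iy_fintype {n M : ℕ} (δ : Fin M → ℕ) (d : ℕ) : Fintype (Iy n δ d) :=
  Fintype.ofFinite _

private noncomputable def k6tg {N : ℕ} (δ : Fin N → ℕ) (j : Fin N)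
    (p : Finset (Fin N) × (Fin N →₀ ℕ)) : Finset (Fin N) × (Fin N →₀ ℕ) :=
  if j ∈ p.1 then (p.1.erase j, p.2.update j (p.2 j + δ j))
  else (insert j p.1, p.2.update j (p.2 j - δ j))

private def k6P {N : ℕ} (δ : Fin N → ℕ) (p : Finset (Fin N) × (Fin N →₀ ℕ)) (j : Fin N) : Prop :=
  δ j ≤ p.2 j ∨ j ∈ p.1

private theorem k6sum {N : ℕ} (α : Fin N →₀ ℕ) (j : Fin N) (v : ℕ) :
    ∑ i, (α.update j v) i + α j = v + ∑ i, α i := by
  rw [Finset.sum_eq_add_sum_sdiff_singleton_of_mem (Finset.mem_univ j) (fun i => (α.update j v) i),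
    Finset.sum_eq_add_sum_sdiff_singleton_of_mem (Finset.mem_univ j) (fun i => α i)]
  have h : ∑ i ∈ Finset.univ \ {j}, (α.update j v) i = ∑ i ∈ Finset.univ \ {j}, α i := by
    refine Finset.sum_congr rfl fun i hi => ?_
    have hij : i ≠ j := by simpa using hi
    simp [Finsupp.coe_update, Function.update_of_ne hij]
  rw [h]
  have h2 : (α.update j v) j = v := by simp
  rw [h2]
  omega

private theorem k6tg_sum {N : ℕ} (δ : Fin N → ℕ) (j : Fin N) (p : Finset (Fin N) × (Fin N →₀ ℕ))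
    (hp : k6P δ p j) : (∑ i, (k6tg δ j p).2 i) + ∑ i ∈ (k6tg δ j p).1, δ i =
      (∑ i, p.2 i) + ∑ i ∈ p.1, δ i := by
  unfold k6tg
  split_ifs with hj
  · have h1 := k6sum p.2 j (p.2 j + δ j)
    have h2 := Finset.sum_erase_add p.1 δ hj
    simp only
    omega
  · have h1 := k6sum p.2 j (p.2 j - δ j)
    have h2 := Finset.sum_insert (f := δ) hj
    have h3 : δ j ≤ p.2 j := hp.resolve_right hj
    simp only
    omega

private theorem k6tg_tg {N : ℕ} (δ : Fin N → ℕ) (j : Fin N) (p : Finset (Fin N) × (Fin N →₀ ℕ))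
    (hp : k6P δ p j) : k6tg δ j (k6tg δ j p) = p := by
  by_cases hj : j ∈ p.1
  · have h1 : k6tg δ j p = (p.1.erase j, p.2.update j (p.2 j + δ j)) := by
      unfold k6tg
      rw [if_pos hj]
    rw [h1]
    unfold k6tg
    rw [if_neg (by simp)]
    refine Prod.ext (Finset.insert_erase hj) (Finsupp.ext fun i => ?_)
    by_cases hij : i = j
    · subst hij
      simp
    · simp [Finsupp.coe_update, Function.update_of_ne hij]
  · have h3 : δ j ≤ p.2 j := hp.resolve_right hj
    have h1 : k6tg δ j p = (insert j p.1, p.2.update j (p.2 j - δ j)) := by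
      unfold k6tg
      rw [if_neg hj]
    rw [h1]
    unfold k6tg
    rw [if_pos (by simp)]
    refine Prod.ext (Finset.erase_insert hj) (Finsupp.ext fun i => ?_)
    by_cases hij : i = j
    · subst hij
      simp
      omega
    · simp [Finsupp.coe_update, Function.update_of_ne hij]

private theorem k6tg_card {N : ℕ} (δ : Fin N → ℕ) (j : Fin N)
    (p : Finset (Fin N) × (Fin N →₀ ℕ)) :
    (k6tg δ j p).1.card % 2 = 1 - p.1.card % 2 := by
  unfold k6tg
  split_ifs with hj
  · have h := Finset.card_erase_add_one hj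
    simp only
    omega
  · have h := Finset.card_insert_of_notMem hj
    simp only
    omega

private theorem k6tg_P {N : ℕ} (δ : Fin N → ℕ) (j : Fin N) (p : Finset (Fin N) × (Fin N →₀ ℕ))
    (hp : k6P δ p j) (i : Fin N) : k6P δ (k6tg δ j p) i ↔ k6P δ p i := by
  by_cases hij : i = j
  · subst hij
    refine ⟨fun _ => hp, fun _ => ?_⟩
    unfold k6tg k6P
    split_ifs with hj
    · left
      simp
    · right
      simp
  · unfold k6tg k6P
    split_ifs with hj
    · simp [Finsupp.coe_update, Function.update_of_ne hij, hij]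
    · simp [Finsupp.coe_update, Function.update_of_ne hij, hij]

private noncomputable def k6m {n : ℕ} (S : Finset (Fin (n + 1))) : Fin (n + 1) :=
  if h : S.Nonempty then h.choose else 0

private theorem k6m_mem {n : ℕ} (S : Finset (Fin (n + 1))) (h : S.Nonempty) : k6m S ∈ S := by
  unfold k6m
  rw [dif_pos h]
  exact h.choose_spec

private noncomputable def k6s {N : ℕ} (δ : Fin N → ℕ) (p : Finset (Fin N) × (Fin N →₀ ℕ)) :
    Finset (Fin N) := Finset.univ.filter (k6P δ p)

private theorem k6s_ne (n : ℕ) (δ : Fin (n + 1) → ℕ) (d : ℕ) (hd : ∑ j, δ j ≤ d)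
    (t : Iy (n + 1) δ d) : (k6s δ t.1).Nonempty := by
  by_contra hne
  rw [Finset.not_nonempty_iff_eq_empty] at hne
  have h1 : ∀ j, ¬ k6P δ t.1 j := by
    intro j hj
    have : j ∈ k6s δ t.1 := by
      unfold k6s
      simp [hj]
    rw [hne] at this
    simp at this
  have h2 : t.1.1 = ∅ := by
    rw [Finset.eq_empty_iff_forall_notMem]
    intro j hj
    exact h1 j (Or.inr hj)
  have h3 : ∀ j, t.1.2 j < δ j := by
    intro j
    by_contra hc
    exact h1 j (Or.inl (by omega))
  have h4 : ∑ i, t.1.2 i < ∑ i, δ i :=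
    Finset.sum_lt_sum_of_nonempty Finset.univ_nonempty (fun i _ => h3 i)
  have h5 := t.2
  rw [h2, Finset.sum_empty] at h5
  omega

private theorem k6s_eq {n : ℕ} (δ : Fin (n + 1) → ℕ) (p : Finset (Fin (n + 1)) × (Fin (n + 1) →₀ ℕ))
    (h : (k6s δ p).Nonempty) : k6s δ (k6tg δ (k6m (k6s δ p)) p) = k6s δ p := by
  have hm := k6m_mem _ h
  have hp : k6P δ p (k6m (k6s δ p)) := by
    unfold k6s at hm ⊢
    simpa using hm
  ext i
  have := k6tg_P δ (k6m (k6s δ p)) p hp i
  have e1 : ∀ q : Finset (Fin (n + 1)) × (Fin (n + 1) →₀ ℕ), i ∈ k6s δ q ↔ k6P δ q i := by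
    intro q
    unfold k6s
    simp
  rw [e1, e1]
  exact this

private noncomputable def k6inv (n : ℕ) (δ : Fin (n + 1) → ℕ) (d : ℕ) (hd : ∑ j, δ j ≤ d)
    (t : Iy (n + 1) δ d) : Iy (n + 1) δ d :=
  ⟨k6tg δ (k6m (k6s δ t.1)) t.1, by
    have h := k6s_ne n δ d hd t
    have hm := k6m_mem _ h
    have hp : k6P δ t.1 (k6m (k6s δ t.1)) := by
      have h0 : ∀ i, i ∈ k6s δ t.1 → k6P δ t.1 i := by
        intro i hi
        unfold k6s at hi
        simpa using hi
      exact h0 _ hm
    rw [k6tg_sum δ _ _ hp]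
    exact t.2⟩

private theorem k6inv_inv (n : ℕ) (δ : Fin (n + 1) → ℕ) (d : ℕ) (hd : ∑ j, δ j ≤ d)
    (t : Iy (n + 1) δ d) : k6inv n δ d hd (k6inv n δ d hd t) = t := by
  have h := k6s_ne n δ d hd t
  have hm := k6m_mem _ h
  have hp : k6P δ t.1 (k6m (k6s δ t.1)) := by
    have h0 : ∀ i, i ∈ k6s δ t.1 → k6P δ t.1 i := by
      intro i hi
      unfold k6s at hi
      simpa using hi
    exact h0 _ hm
  apply Subtype.ext
  show k6tg δ (k6m (k6s δ (k6tg δ (k6m (k6s δ t.1)) t.1))) (k6tg δ (k6m (k6s δ t.1)) t.1) = t.1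
  rw [k6s_eq δ t.1 h]
  exact k6tg_tg δ _ _ hp

/-- [K6] -/
theorem count_eq (n : ℕ) (δ : Fin (n + 1) → ℕ) (d : ℕ) (hd : ∑ j, δ j ≤ d) :
    Nat.card {t : Iy (n + 1) δ d // t.1.1.card % 2 = 0} =
      Nat.card {t : Iy (n + 1) δ d // t.1.1.card % 2 = 1} := by
  have hc : ∀ t : Iy (n + 1) δ d, (k6inv n δ d hd t).1.1.card % 2 = 1 - t.1.1.card % 2 :=
    fun t => k6tg_card δ _ t.1
  exact Nat.card_congr
    { toFun := fun t => ⟨k6inv n δ d hd t.1, by rw [hc, t.2]⟩
      invFun := fun t => ⟨k6inv n δ d hd t.1, by rw [hc, t.2]⟩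
      left_inv := fun t => Subtype.ext (k6inv_inv n δ d hd t.1)
      right_inv := fun t => Subtype.ext (k6inv_inv n δ d hd t.1) }

end Pool.Agent.LibPK60
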