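import Pool.Agent.LibPK60.K1
import Pool.Agent.LibPK60.K6

/-!
[PK60 K7] polynomials of large degree lie in the ideal. Plan:
Conventions (Defs.lean): a chain `f` stands for the sum of `f(J) e_J` over the subsets `J`; `kd g` is the Koszul differential (contraction, `e_j` goes to `g_j`, sign `sg j J` = (-1)^(number of `i` in `J` below `j`)); `kh j` is multiplication by `e_j`.
Graded parts: for `ε = 0, 1` let `V_ε` be the `κ`-submodule of the chains `f : Finset (Fin (n+1)) → MvPolynomial (Fin (n+1)) κ` with `Gr δ d f` and `f J = 0` unless `J.card % 2 = ε`. It has a basis indexed by `{t : Iy (n+1) δ d // t.1.1.card % 2 = ε}` (or: it is linearly equivalent to the functions on this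
finite type: `f ↦ coeff α (f J)`), so by `count_eq` `finrank V_0 = finrank V_1`. `kd g` is `κ`-linear and maps `V_0` to `V_1` and `V_1` to `V_0` (`g_j` homogeneous of degree `δ_j`; `kd` changes the parity of `J.card`). Let `A : V_0 → V_1`, `B : V_1 → V_0` be the restrictions. `ker B = im A`: `A`, `B` compose to zero (`kd_kd`);
if `f` in `V_1` is a cycle, then `f ∅ = 0` (parity), so by `hacy` (s = 1) `f = kd g f'`, and `f'` may be replaced by its part with `J.card` even and of degree `d` (i.e. `fun J => if J.card even ∧ ∑δ ≤ d then homogeneousComponent (d - ∑_(j in J) δ_j) (f' J) else 0`), because `kd` is homogeneous. Rank-nullity: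
`finrank V_1 = rank B + dim ker B = rank B + rank A`, `finrank V_0 = rank A + dim ker A`, hence `dim ker A = rank B`, and `im B ⊆ ker A` gives `ker A = im B`. The chain `f_0` with `f_0 ∅ = f` and zero otherwise is in `V_0` and `kd g f_0 = 0`; so `f_0 = kd g f'`, and at `J = ∅`: `f = ∑_j ± g_j f'({j})`, in the ideal.
-/

open scoped Classical
open MvPolynomial

set_option linter.unusedSectionVars false

namespace Pool.Agent.LibPK60

variable {κ : Type} [Field κ] {n M : ℕ}

private theorem K7_hc_mul {m : ℕ} (g : MvPolynomial (Fin m) κ) (a : ℕ) (hg : g.IsHomogeneous a)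
    (e : ℕ) (f : MvPolynomial (Fin m) κ) :
    homogeneousComponent (a + e) (g * f) = g * homogeneousComponent e f := by
  conv_lhs => rw [← sum_homogeneousComponent f]
  rw [Finset.mul_sum, map_sum]
  have h : ∀ i ∈ Finset.range (f.totalDegree + 1),
      homogeneousComponent (a + e) (g * homogeneousComponent i f) =
        if i = e then g * homogeneousComponent e f else 0 := by
    intro i _
    rw [homogeneousComponent_of_mem
      ((mem_homogeneousSubmodule _ _).2 (hg.mul (homogeneousComponent_isHomogeneous i f)))]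
    by_cases hie : i = e
    · subst hie
      simp
    · rw [if_neg (by omega), if_neg hie]
  rw [Finset.sum_congr rfl h, Finset.sum_ite_eq']
  split_ifs with h1
  · rfl
  · rw [homogeneousComponent_eq_zero _ _ (by
      rw [Finset.mem_range] at h1
      omega), mul_zero]

/-- chains of degree `d` and parity `ε` -/
private def K7V (κ : Type) [Field κ] {n M : ℕ} (δ : Fin M → ℕ) (d ε : ℕ) :
    Submodule κ (Ch κ n M) where
  carrier := {f | Gr δ d f ∧ ∀ J, J.card % 2 ≠ ε → f J = 0}
  add_mem' := by
    rintro f f' ⟨h1, h2⟩ ⟨h1', h2'⟩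
    refine ⟨fun J α h => ?_, fun J hJ => ?_⟩
    · rw [Pi.add_apply, coeff_add] at h
      by_cases h0 : coeff α (f J) = 0
      · rw [h0, zero_add] at h
        exact h1' J α h
      · exact h1 J α h0
    · rw [Pi.add_apply, h2 J hJ, h2' J hJ, add_zero]
  zero_mem' := ⟨fun J α h => absurd (by simp) h, fun J _ => rfl⟩
  smul_mem' := by
    rintro c f ⟨h1, h2⟩
    refine ⟨fun J α h => ?_, fun J hJ => ?_⟩
    · rw [Pi.smul_apply, coeff_smul] at h
      exact h1 J α (fun h0 => h (by rw [h0, smul_zero]))
    · rw [Pi.smul_apply, h2 J hJ, smul_zero]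

private theorem K7_mem {δ : Fin M → ℕ} {d ε : ℕ} {f : Ch κ n M} :
    f ∈ K7V κ δ d ε ↔ Gr δ d f ∧ ∀ J, J.card % 2 ≠ ε → f J = 0 := Iff.rfl

private noncomputable def K7E (κ : Type) [Field κ] {n M : ℕ} (δ : Fin M → ℕ) (d ε : ℕ) :
    K7V (n := n) κ δ d ε ≃ₗ[κ] ({t : Iy n δ d // t.1.1.card % 2 = ε} → κ) where
  toFun f := fun t => coeff t.1.1.2 (f.1 t.1.1.1)
  map_add' f f' := by
    funext t
    simp
  map_smul' c f := by
    funext t
    simp
  invFun φ := ⟨fun J => ∑ t : {t : Iy n δ d // t.1.1.card % 2 = ε},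
      if t.1.1.1 = J then monomial t.1.1.2 (φ t) else 0, by
    rw [K7_mem]
    refine ⟨fun J α h => ?_, fun J hJ => ?_⟩
    · rw [coeff_sum] at h
      obtain ⟨t, -, ht⟩ := Finset.exists_ne_zero_of_sum_ne_zero h
      split_ifs at ht with h1
      · rw [coeff_monomial] at ht
        split_ifs at ht with h2
        · rw [← h1, ← h2]
          exact t.1.2
        · exact absurd rfl ht
      · exact absurd (by simp) ht
    · refine Finset.sum_eq_zero fun t _ => if_neg fun h => hJ ?_
      rw [← h]
      exact t.2⟩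
  left_inv f := by
    refine Subtype.ext (funext fun J => ?_)
    ext α
    simp only
    rw [coeff_sum]
    by_cases h : coeff α (f.1 J) = 0
    · rw [h]
      refine Finset.sum_eq_zero fun t _ => ?_
      split_ifs with h1
      · rw [coeff_monomial]
        split_ifs with h2
        · rw [h1, h2]
          exact h
        · rfl
      · simp
    · have hd := f.2.1 J α h
      have hp : J.card % 2 = ε := by
        by_contra hne
        rw [f.2.2 J hne] at h
        exact h (by simp)
      rw [Finset.sum_eq_single (⟨⟨(J, α), hd⟩, hp⟩ : {t : Iy n δ d // t.1.1.card % 2 = ε})]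
      · rw [if_pos rfl, coeff_monomial, if_pos rfl]
      · intro t _ ht
        split_ifs with h1
        · rw [coeff_monomial]
          split_ifs with h2
          · exact absurd (Subtype.ext (Subtype.ext (Prod.ext h1 h2))) ht
          · rfl
        · simp
      · intro h
        exact absurd (Finset.mem_univ _) h
  right_inv φ := by
    funext t
    simp only
    rw [coeff_sum, Finset.sum_eq_single t]
    · rw [if_pos rfl, coeff_monomial, if_pos rfl]
    · intro t' _ ht
      split_ifs with h1
      · rw [coeff_monomial]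
        split_ifs with h2
        · exact absurd (Subtype.ext (Subtype.ext (Prod.ext h1 h2))) ht
        · rfl
      · simp
    · intro h
      exact absurd (Finset.mem_univ _) h

private theorem K7_fin (δ : Fin M → ℕ) (d ε : ℕ) :
    Module.Finite κ (K7V (n := n) κ δ d ε) :=
  Module.Finite.equiv (K7E (n := n) κ δ d ε).symm

private theorem K7_rank (δ : Fin M → ℕ) (d ε : ℕ) :
    Module.finrank κ (K7V (n := n) κ δ d ε) =
      Nat.card {t : Iy n δ d // t.1.1.card % 2 = ε} := by
  rw [LinearEquiv.finrank_eq (K7E (n := n) κ δ d ε), Module.finrank_fintype_fun_eq_card,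
    Nat.card_eq_fintype_card]

/-- `kd g` as a linear map -/
private noncomputable def K7d (g : Fin M → MvPolynomial (Fin n) κ) : Ch κ n M →ₗ[κ] Ch κ n M where
  toFun := kd g
  map_add' := kd_add g
  map_smul' c f := by
    have h := kd_smul g (C c : MvPolynomial (Fin n) κ) f
    have e : (c • f : Ch κ n M) = fun J => (C c : MvPolynomial (Fin n) κ) • f J := by
      funext J
      rw [Pi.smul_apply, smul_eq_C_mul, smul_eq_mul]
    rw [e, h]
    funext J
    rw [RingHom.id_apply, Pi.smul_apply, smul_eq_C_mul, smul_eq_mul]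

private theorem K7_par {J : Finset (Fin M)} {j : Fin M} (hj : j ∈ Jᶜ) :
    (insert j J).card = J.card + 1 := by
  rw [Finset.mem_compl] at hj
  exact Finset.card_insert_of_notMem hj

private theorem K7_maps (g : Fin M → MvPolynomial (Fin n) κ) (δ : Fin M → ℕ)
    (hom : ∀ j, (g j).IsHomogeneous (δ j)) (d ε ε' : ℕ) (hε : ∀ c : ℕ, (c + 1) % 2 = ε → c % 2 = ε')
    (f : Ch κ n M) (hf : f ∈ K7V κ δ d ε) : kd g f ∈ K7V κ δ d ε' := by
  rw [K7_mem] at hf ⊢
  refine ⟨fun J α h => ?_, fun J hJ => ?_⟩
  · unfold kd at h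
    rw [coeff_sum] at h
    obtain ⟨j, hj, ht⟩ := Finset.exists_ne_zero_of_sum_ne_zero h
    have h1 : coeff α (g j * f (insert j J)) ≠ 0 := by
      intro h0
      refine ht ?_
      rw [← Int.cast_smul_eq_zsmul κ, coeff_smul, smul_eq_mul (a := g j), h0, smul_zero]
    rw [coeff_mul] at h1
    obtain ⟨p, hp, hp'⟩ := Finset.exists_ne_zero_of_sum_ne_zero h1
    replace hp := Finset.HasAntidiagonal.mem_antidiagonal.1 hp
    have ha : coeff p.1 (g j) ≠ 0 := left_ne_zero_of_mul hp'
    have hb : coeff p.2 (f (insert j J)) ≠ 0 := right_ne_zero_of_mul hp'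
    have hda : ∑ i, p.1 i = δ j := by
      rw [← Finsupp.degree_eq_sum]
      by_contra hne
      exact ha ((hom j).coeff_eq_zero hne)
    have hdb := hf.1 _ _ hb
    rw [Finset.mem_compl] at hj
    rw [Finset.sum_insert hj] at hdb
    have hs : ∑ i, α i = ∑ i, p.1 i + ∑ i, p.2 i := by
      rw [← hp, ← Finset.sum_add_distrib]
      rfl
    omega
  · unfold kd
    refine Finset.sum_eq_zero fun j hj => ?_
    rw [hf.2 (insert j J) ?_, smul_zero, smul_zero]
    rw [K7_par hj]
    exact fun h => hJ (hε _ h)

/-- exactness at the odd place -/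
private theorem K7_exact (g : Fin M → MvPolynomial (Fin n) κ) (δ : Fin M → ℕ)
    (hom : ∀ j, (g j).IsHomogeneous (δ j)) (hacy : Acy g (MvPolynomial (Fin n) κ) 1)
    (d : ℕ) (hd : ∑ j, δ j ≤ d) (f : Ch κ n M) (hf : f ∈ K7V κ δ d 1) (h0 : kd g f = 0) :
    ∃ f' ∈ K7V κ δ d 0, kd g f' = f := by
  obtain ⟨f', -, hf'⟩ := hacy f h0 (fun J hJ => hf.2 J (by
    have : J.card = 0 := by omega
    rw [this]
    decide))
  have hle : ∀ J : Finset (Fin M), ∑ j ∈ J, δ j ≤ d := fun J =>
    (Finset.sum_le_univ_sum_of_nonneg fun _ => Nat.zero_le _).trans hd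
  refine ⟨fun J => if J.card % 2 = 0 then homogeneousComponent (d - ∑ j ∈ J, δ j) (f' J) else 0,
    ?_, ?_⟩
  · rw [K7_mem]
    refine ⟨fun J α h => ?_, fun J hJ => if_neg hJ⟩
    simp only at h
    split_ifs at h with h1
    · rw [coeff_homogeneousComponent] at h
      split_ifs at h with h2
      · rw [Finsupp.degree_eq_sum] at h2
        have := hle J
        omega
      · exact absurd rfl h
    · exact absurd (by simp) h
  · funext J
    by_cases hJ : J.card % 2 = 1
    · have e1 : f J = homogeneousComponent (d - ∑ j ∈ J, δ j) (f J) := by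
        ext α
        rw [coeff_homogeneousComponent]
        split_ifs with h1
        · rfl
        · by_contra hα
          have h2 := hf.1 J α hα
          rw [Finsupp.degree_eq_sum] at h1
          omega
      rw [e1, ← congrFun hf' J]
      unfold kd
      rw [map_sum]
      refine Finset.sum_congr rfl fun j hj => ?_
      have hp := K7_par hj
      simp only
      rw [if_pos (by omega), map_zsmul, smul_eq_mul, smul_eq_mul]
      congr 1
      have hins : ∑ i ∈ insert j J, δ i = δ j + ∑ i ∈ J, δ i :=
        Finset.sum_insert (Finset.mem_compl.1 hj)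
      have h3 := hle (insert j J)
      have h4 : d - ∑ i ∈ J, δ i = δ j + (d - ∑ i ∈ insert j J, δ i) := by omega
      rw [h4, K7_hc_mul _ _ (hom j)]
    · rw [hf.2 J hJ]
      unfold kd
      refine Finset.sum_eq_zero fun j hj => ?_
      have hp := K7_par hj
      simp only
      rw [if_neg (by omega), smul_zero, smul_zero]

theorem top_mem {n : ℕ} (g : Fin (n + 1) → MvPolynomial (Fin (n + 1)) κ) (δ : Fin (n + 1) → ℕ)
    (hom : ∀ j, (g j).IsHomogeneous (δ j)) (hacy : Acy g (MvPolynomial (Fin (n + 1)) κ) 1)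
    (d : ℕ) (hd : ∑ j, δ j ≤ d) (f : MvPolynomial (Fin (n + 1)) κ) (hf : f.IsHomogeneous d) :
    f ∈ Ideal.span (Set.range g) := by
  have : Module.Finite κ (K7V (n := n + 1) κ δ d 0) := K7_fin δ d 0
  have : Module.Finite κ (K7V (n := n + 1) κ δ d 1) := K7_fin δ d 1
  set A : K7V (n := n + 1) κ δ d 0 →ₗ[κ] K7V (n := n + 1) κ δ d 1 :=
    (K7d g).restrict (K7_maps g δ hom d 0 1 (by intro c h; omega)) with hA
  set B : K7V (n := n + 1) κ δ d 1 →ₗ[κ] K7V (n := n + 1) κ δ d 0 :=
    (K7d g).restrict (K7_maps g δ hom d 1 0 (by intro c h; omega)) with hB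
  have hAv : ∀ v, (A v).1 = kd g v.1 := fun v => rfl
  have hBv : ∀ v, (B v).1 = kd g v.1 := fun v => rfl
  have hr : Module.finrank κ (K7V (n := n + 1) κ δ d 0) =
      Module.finrank κ (K7V (n := n + 1) κ δ d 1) := by
    rw [K7_rank, K7_rank]
    exact count_eq n δ d hd
  have hker : LinearMap.ker B = LinearMap.range A := by
    apply le_antisymm
    · intro z hz
      rw [LinearMap.mem_ker] at hz
      have h0 : kd g z.1 = 0 := by rw [← hBv, hz]; rfl
      obtain ⟨f', hf', he⟩ := K7_exact g δ hom hacy d hd z.1 z.2 h0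
      exact ⟨⟨f', hf'⟩, Subtype.ext he⟩
    · rintro _ ⟨v, rfl⟩
      rw [LinearMap.mem_ker]
      refine Subtype.ext ?_
      rw [hBv, hAv, kd_kd]
      rfl
  have hle : LinearMap.range B ≤ LinearMap.ker A := by
    rintro _ ⟨v, rfl⟩
    rw [LinearMap.mem_ker]
    refine Subtype.ext ?_
    rw [hAv, hBv, kd_kd]
    rfl
  have hrA := LinearMap.finrank_range_add_finrank_ker A
  have hrB := LinearMap.finrank_range_add_finrank_ker B
  rw [hker] at hrB
  have heq : LinearMap.range B = LinearMap.ker A :=
    Submodule.eq_of_le_of_finrank_eq hle (by omega)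
  set f0 : Ch κ (n + 1) (n + 1) := fun J => if J = ∅ then f else 0 with hf0
  have hm : f0 ∈ K7V (n := n + 1) κ δ d 0 := by
    rw [K7_mem]
    refine ⟨fun J α h => ?_, fun J hJ => if_neg fun h => hJ (by rw [h]; rfl)⟩
    simp only [hf0] at h
    split_ifs at h with h1
    · rw [h1, Finset.sum_empty, add_zero, ← Finsupp.degree_eq_sum]
      by_contra hne
      exact h (hf.coeff_eq_zero hne)
    · exact absurd (by simp) h
  have hk : kd g f0 = 0 := by
    funext J
    unfold kd
    refine Finset.sum_eq_zero fun j hj => ?_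
    rw [hf0]
    simp only
    rw [if_neg (Finset.insert_ne_empty j J), smul_zero, smul_zero]
  have hmem : (⟨f0, hm⟩ : K7V (n := n + 1) κ δ d 0) ∈ LinearMap.range B := by
    rw [heq, LinearMap.mem_ker]
    exact Subtype.ext hk
  obtain ⟨v, hv⟩ := hmem
  have h1 : kd g v.1 = f0 := by rw [← hBv, hv]
  have h2 := congrFun h1 ∅
  rw [hf0] at h2
  simp only [if_true] at h2
  rw [← h2]
  unfold kd
  refine Ideal.sum_mem _ fun j _ => ?_
  rw [smul_eq_mul]
  refine zsmul_mem ?_ _
  exact Ideal.mul_mem_right _ _ (Ideal.subset_span ⟨j, rfl⟩)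

end Pool.Agent.LibPK60
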