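import Pool.Agent.LibPK60.M1

/-!
[PK60 M2] the matrix of the cone. Plan:
Conventions (Defs.lean): a chain `f` stands for the sum of `f(J) e_J` over the subsets `J`; `kd g` is the Koszul differential (contraction, `e_j` goes to `g_j`, sign `sg j J` = (-1)^(number of `i` in `J` below `j`)); `kh j` is multiplication by `e_j`.
`DD x a` is the derivation with `dx x` (derivative in the direction `x`) on the coefficients and `e_j ↦ a_j e_(j-1)`.
Put `ch φ := fun b J => ∑ t, C (φ t) * bas κ t b J` for `φ : Ix n δ d → κ`. `coeff α (ch φ b J) = φ t` if `t = (b, J, α)` has degree `d`, and `0` otherwise; every `F` with `CGr δ d F` is `ch φ` with `φ t = coeff t.1.2.2 (F t.1.1 t.1.2.1)`. By `cd_lin` and the definition of `CM`: `cd (ch φ) = ch (CM *ᵥ φ)` (both sides are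
graded, `cd_gr`, compare the coefficients at `t : Ix`). `CM_sq`: `CM * CM = 0` from `cd_cd` (apply to basis vectors, `Matrix.ext` with `mulVec (Pi.single t 1)`, or `Matrix.toLin'`). `CM_odd`: the entry `(s, t)` is a coefficient of `cd (bas t)` at `(s.1.1, s.1.2.1)`, which is nonzero only if either both have the same flag and
`t.J = insert j s.J` (parity of the cardinality changes), or `t` has flag `false`, `s` has flag `true` and `s.J = t.J` or `t.J = insert q (s.J.erase p)` with `p ∈ s.J`, `q ∉ s.J` (same cardinality, the flag changes). `CM_ker`: from the hypothesis and the dictionary.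
-/

open scoped Classical
open MvPolynomial

set_option linter.unusedSectionVars false

namespace Pool.Agent.LibPK60

variable {κ : Type} [Field κ] {n M : ℕ}

private noncomputable def ch {δ : Fin M → ℕ} {d : ℕ} (φ : Ix n δ d → κ) : Bool → Ch κ n M :=
  fun b J => ∑ t, C (φ t) * bas κ t b J

private noncomputable def rd (δ : Fin M → ℕ) (d : ℕ) (F : Bool → Ch κ n M) : Ix n δ d → κ :=
  fun t => coeff t.1.2.2 (F t.1.1 t.1.2.1)

private theorem bas_zero {δ : Fin M → ℕ} {d : ℕ} (t : Ix n δ d) {b : Bool}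
    {J : Finset (Fin M)} (h : ¬ (b = t.1.1 ∧ J = t.1.2.1)) : bas κ t b J = 0 := if_neg h

private theorem coeff_bas {δ : Fin M → ℕ} {d : ℕ} (t : Ix n δ d) (b : Bool)
    (J : Finset (Fin M)) (α : Fin n →₀ ℕ) :
    coeff α (bas κ t b J) = if t.1 = (b, J, α) then 1 else 0 := by
  by_cases h : b = t.1.1 ∧ J = t.1.2.1
  · have h1 : bas κ t b J = monomial t.1.2.2 1 := if_pos h
    rw [h1, coeff_monomial]
    by_cases h2 : t.1.2.2 = α
    · have h3 : t.1 = (b, J, α) := Prod.ext h.1.symm (Prod.ext h.2.symm h2)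
      rw [if_pos h2, if_pos h3]
    · have h3 : ¬ t.1 = (b, J, α) := fun h4 => h2 (by rw [h4])
      rw [if_neg h2, if_neg h3]
  · have h3 : ¬ t.1 = (b, J, α) := fun h4 => h ⟨by rw [h4], by rw [h4]⟩
    rw [bas_zero t h, coeff_zero, if_neg h3]

private theorem coeff_ch {δ : Fin M → ℕ} {d : ℕ} (φ : Ix n δ d → κ) (b : Bool)
    (J : Finset (Fin M)) (α : Fin n →₀ ℕ) :
    coeff α (ch φ b J) = ∑ t : Ix n δ d, φ t * (if t.1 = (b, J, α) then 1 else 0) := by
  unfold ch
  rw [coeff_sum]
  refine Finset.sum_congr rfl fun t _ => ?_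
  rw [coeff_C_mul, coeff_bas]

private theorem rd_ch {δ : Fin M → ℕ} {d : ℕ} (φ : Ix n δ d → κ) : rd δ d (ch φ) = φ := by
  funext s
  show coeff s.1.2.2 (ch φ s.1.1 s.1.2.1) = φ s
  rw [coeff_ch, Finset.sum_eq_single s]
  · rw [if_pos rfl, mul_one]
  · intro t _ hts
    rw [if_neg (fun h => hts (Subtype.ext h)), mul_zero]
  · intro h
    exact absurd (Finset.mem_univ s) h

private theorem ch_gr {δ : Fin M → ℕ} {d : ℕ} (φ : Ix n δ d → κ) : CGr δ d (ch φ) := by
  intro b J α h
  rw [coeff_ch] at h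
  obtain ⟨t, -, ht⟩ := Finset.exists_ne_zero_of_sum_ne_zero h
  have h1 : t.1 = (b, J, α) := by
    by_contra h2
    rw [if_neg h2, mul_zero] at ht
    exact ht rfl
  have h2 := t.2
  rw [h1] at h2
  exact h2

private theorem ch_rd {δ : Fin M → ℕ} {d : ℕ} {F : Bool → Ch κ n M} (hF : CGr δ d F) :
    ch (rd δ d F) = F := by
  funext b J
  ext α
  by_cases h : coeff α (F b J) = 0
  · rw [h, coeff_ch]
    refine Finset.sum_eq_zero fun t _ => ?_
    by_cases h1 : t.1 = (b, J, α)
    · have h2 : rd δ d F t = coeff α (F b J) := by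
        show coeff t.1.2.2 (F t.1.1 t.1.2.1) = _
        rw [h1]
      rw [h2, h, zero_mul]
    · rw [if_neg h1, mul_zero]
  · have h0 := hF b J α h
    have h1 := congrFun (rd_ch (rd δ d F)) ⟨(b, J, α), h0⟩
    exact h1

private theorem rd_cd_ch (g : Fin M → MvPolynomial (Fin n) κ) (δ : Fin M → ℕ) (x : Fin n → κ)
    (a : Fin M → ℕ) (d : ℕ) (φ : Ix n δ d → κ) :
    rd δ d (cd g x a (ch φ)) = (CM δ d g x a).mulVec φ := by
  funext s
  show coeff s.1.2.2 (cd g x a (ch φ) s.1.1 s.1.2.1) = ∑ t, CM δ d g x a s t * φ t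
  have h := cd_lin g x a Finset.univ φ (fun t : Ix n δ d => bas κ t)
  have h1 : cd g x a (ch φ) = fun b J => ∑ t, C (φ t) * cd g x a (bas κ t) b J := h
  rw [h1, coeff_sum]
  refine Finset.sum_congr rfl fun t _ => ?_
  rw [coeff_C_mul, mul_comm]
  rfl

private theorem cd_ch (g : Fin M → MvPolynomial (Fin n) κ) (δ : Fin M → ℕ) (x : Fin n → κ)
    (a : Fin M → ℕ) (hs : Sys g δ x a) (d : ℕ) (φ : Ix n δ d → κ) :
    cd g x a (ch φ) = ch ((CM δ d g x a).mulVec φ) := by
  rw [← rd_cd_ch, ch_rd (cd_gr g δ x a hs d _ (ch_gr φ))]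

private theorem ch_zero {δ : Fin M → ℕ} {d : ℕ} : ch (0 : Ix n δ d → κ) = 0 := by
  funext b J
  show ∑ t : Ix n δ d, C ((0 : Ix n δ d → κ) t) * bas κ t b J = 0
  refine Finset.sum_eq_zero fun t _ => ?_
  rw [Pi.zero_apply, C_0, zero_mul]

private theorem kd_zero_of (g : Fin M → MvPolynomial (Fin n) κ) (f : Ch κ n M)
    (J : Finset (Fin M)) (h : ∀ j, j ∉ J → f (insert j J) = 0) : kd g f J = 0 := by
  unfold kd
  refine Finset.sum_eq_zero fun j hj => ?_
  rw [h j (Finset.mem_compl.1 hj), smul_zero, smul_zero]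

private theorem DD_zero_of (x : Fin n → κ) (a : Fin M → ℕ) (f : Ch κ n M)
    (J : Finset (Fin M)) (h0 : f J = 0)
    (h : ∀ i j, i ∈ J → j ∉ J → f (insert j (J.erase i)) = 0) : DD x a f J = 0 := by
  unfold DD
  rw [h0]
  have h1 : dx x (0 : MvPolynomial (Fin n) κ) = 0 := by
    unfold dx
    refine Finset.sum_eq_zero fun i _ => ?_
    rw [map_zero, mul_zero]
  rw [h1, zero_add]
  refine Finset.sum_eq_zero fun i _ => Finset.sum_eq_zero fun j _ => ?_
  split_ifs with h2
  · rw [h i j h2.2.1 h2.2.2, mul_zero]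
  · rfl

theorem CM_odd (g : Fin M → MvPolynomial (Fin n) κ) (δ : Fin M → ℕ) (x : Fin n → κ)
    (a : Fin M → ℕ) (d : ℕ) : IsOdd par (CM δ d g x a) := by
  intro s t hst
  obtain ⟨⟨bs, Js, αs⟩, hs⟩ := s
  obtain ⟨⟨bt, Jt, αt⟩, ht⟩ := t
  have hpar : (Js.card + (if bs = true then 1 else 0)) % 2 = 1 ↔
      (Jt.card + (if bt = true then 1 else 0)) % 2 = 1 := decide_eq_decide.1 hst
  show coeff αs (cd g x a (bas κ (⟨(bt, Jt, αt), ht⟩ : Ix n δ d)) bs Js) = 0
  set t : Ix n δ d := ⟨(bt, Jt, αt), ht⟩ with htdef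
  have hkd : bs = bt → kd g (bas κ t bt) Js = 0 := by
    intro hb
    refine kd_zero_of g _ _ fun j hj => bas_zero t ?_
    rintro ⟨-, h2⟩
    have h3 : insert j Js = Jt := h2
    have h4 : Jt.card = Js.card + 1 := by
      rw [← h3]
      exact Finset.card_insert_of_notMem hj
    subst hb
    rw [h4] at hpar
    omega
  have hkd0 : ∀ b, b ≠ bt → kd g (bas κ t b) Js = 0 := fun b hb =>
    kd_zero_of g _ _ fun j _ => bas_zero t fun h => hb h.1
  have hDD0 : ∀ b, b ≠ bt → DD x a (bas κ t b) Js = 0 := fun b hb =>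
    DD_zero_of x a _ _ (bas_zero t fun h => hb h.1) fun _ _ _ _ => bas_zero t fun h => hb h.1
  cases bs with
  | false =>
    show coeff αs (kd g (bas κ t false) Js) = 0
    cases bt with
    | false => rw [hkd rfl, coeff_zero]
    | true => rw [hkd0 false (by decide), coeff_zero]
  | true =>
    show coeff αs (DD x a (bas κ t false) Js - kd g (bas κ t true) Js) = 0
    cases bt with
    | true => rw [hkd rfl, hDD0 false (by decide), sub_zero, coeff_zero]
    | false =>
      have h1 : DD x a (bas κ t false) Js = 0 := by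
        refine DD_zero_of x a _ _ (bas_zero t ?_) fun i j hi hj => bas_zero t ?_
        · rintro ⟨-, h2⟩
          have h3 : Js = Jt := h2
          subst h3
          simp only [if_true, Bool.false_eq_true, if_false] at hpar
          omega
        · rintro ⟨-, h2⟩
          have h3 : insert j (Js.erase i) = Jt := h2
          have h4 : Jt.card = Js.card := by
            rw [← h3, Finset.card_insert_of_notMem (fun h => hj (Finset.mem_of_mem_erase h)),
              Finset.card_erase_add_one hi]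
          rw [h4] at hpar
          simp only [if_true, Bool.false_eq_true, if_false] at hpar
          omega
      rw [h1, hkd0 true (by decide), sub_zero, coeff_zero]

theorem CM_sq (g : Fin M → MvPolynomial (Fin n) κ) (δ : Fin M → ℕ) (x : Fin n → κ)
    (a : Fin M → ℕ) (hs : Sys g δ x a) (d : ℕ) : CM δ d g x a * CM δ d g x a = 0 := by
  have h : ∀ φ : Ix n δ d → κ, (CM δ d g x a * CM δ d g x a).mulVec φ = 0 := by
    intro φ
    rw [← Matrix.mulVec_mulVec, ← rd_cd_ch, ← cd_ch g δ x a hs, cd_cd g δ x a hs]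
    rfl
  ext s t
  have h1 := congrFun (h (Pi.single t 1)) s
  rw [Matrix.mulVec_single_one] at h1
  exact h1

theorem CM_ker (g : Fin M → MvPolynomial (Fin n) κ) (δ : Fin M → ℕ) (x : Fin n → κ)
    (a : Fin M → ℕ) (hs : Sys g δ x a) (d : ℕ)
    (hex : ∀ F : Bool → Ch κ n M, CGr δ d F → cd g x a F = 0 →
      ∃ F' : Bool → Ch κ n M, CGr δ d F' ∧ cd g x a F' = F)
    (φ : Ix n δ d → κ) (hφ : (CM δ d g x a).mulVec φ = 0) :
    ∃ ψ, (CM δ d g x a).mulVec ψ = φ := by
  have h1 : cd g x a (ch φ) = 0 := by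
    rw [cd_ch g δ x a hs, hφ, ch_zero]
  obtain ⟨F', hF', hF⟩ := hex (ch φ) (ch_gr φ) h1
  refine ⟨rd δ d F', ?_⟩
  rw [← rd_cd_ch, ch_rd hF', hF, rd_ch]

end Pool.Agent.LibPK60
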