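import Pool.Agent.LibPK60.Defs

/-!
[PK60 M3] contracting homotopy. Plan:
ONLY MATHLIB. `V₀`, `V₁`: the functions `I → κ` supported on `pr = false`, `pr = true`; `D` maps `V₀` to `V₁` and `V₁` to `V₀`, `ker D = im D` (also in each parity: if `φ ∈ V_ε` is in the kernel, `φ = D ψ`, the part of `ψ` in `V_(1-ε)` also maps to `φ`). First construct any linear `h : (I → κ) → (I → κ)` with `D h D = D`
(choose a complement `W` of `ker D`, or: a linear right inverse on the range: `LinearMap.exists_rightInverse_of_surjective` for `D.rangeRestrict`, extended by a projection on the range `Submodule.exists_isCompl`), i.e. `h` with `D (h z) = z` for `z ∈ im D`. Then `H := h - D h h`-like corrections: put `P := h D`... simplest: let `s : im D → V` be a linear section of `D`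
and `π : V → im D` a linear projection (`Submodule.exists_isCompl`/`linearProjOfIsCompl`), chosen as follows: `π := 1 - s D` (for `v ∈ V`, `D (v - s (D v)) = 0`, so `v - s (D v) ∈ ker D = im D`). Put `H := s ∘ π = s ∘ (1 - s D)`. Then `D H v = v - s (D v)` and `H D v = s (D v - s (D D v)) = s (D v)`; the sum is `v`. Finally make `H`
odd: `H' i j := if pr i = pr j then 0 else H i j`; the odd part of `D H + H D` ... taking the even part of the identity `D H + H D = 1` (D odd, 1 even) gives `D H' + H' D = 1` (the even part of `D H` is `D H'`).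
-/

open scoped Classical
open MvPolynomial

set_option linter.unusedSectionVars false

namespace Pool.Agent.LibPK60

private theorem m3_lin {κ V : Type} [Field κ] [AddCommGroup V] [Module κ V] (D : V →ₗ[κ] V)
    (hex : ∀ v, D v = 0 ↔ v ∈ LinearMap.range D) :
    ∃ H : V →ₗ[κ] V, ∀ v, D (H v) + H (D v) = v := by
  obtain ⟨s, hs⟩ := LinearMap.exists_rightInverse_of_surjective D.rangeRestrict
    D.range_rangeRestrict
  have hs1 : ∀ z : LinearMap.range D, D (s z) = z := by
    intro z
    have := LinearMap.congr_fun hs z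
    simpa using congrArg Subtype.val this
  have hp : ∀ v : V, v - s (D.rangeRestrict v) ∈ LinearMap.range D := by
    intro v
    rw [← hex, map_sub, hs1]
    simp
  let P : V →ₗ[κ] LinearMap.range D :=
    LinearMap.codRestrict (LinearMap.range D) (LinearMap.id - s ∘ₗ D.rangeRestrict)
      (fun v => hp v)
  refine ⟨s ∘ₗ P, fun v => ?_⟩
  have h1 : D (s (P v)) = v - s (D.rangeRestrict v) := by
    rw [hs1]
    rfl
  have h2 : P (D v) = D.rangeRestrict v := by
    apply Subtype.ext
    show D v - s (D.rangeRestrict (D v)) = D v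
    have h3 : D.rangeRestrict (D v) = 0 := by
      apply Subtype.ext
      show D (D v) = 0
      rw [hex]
      exact ⟨v, rfl⟩
    rw [h3, map_zero, sub_zero]
  rw [LinearMap.comp_apply, LinearMap.comp_apply, h1, h2]
  abel

theorem exists_homotopy {κ : Type} [Field κ] {I : Type} [Fintype I] (pr : I → Bool)
    (D : Matrix I I κ) (hD : IsOdd pr D) (hDD : D * D = 0)
    (hex : ∀ φ, D.mulVec φ = 0 → ∃ ψ, D.mulVec ψ = φ) :
    ∃ H : Matrix I I κ, IsOdd pr H ∧ D * H + H * D = 1 := by
  obtain ⟨H0, hH0⟩ := m3_lin (Matrix.toLin' D) (fun v => by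
    rw [Matrix.toLin'_apply]
    constructor
    · intro hv
      obtain ⟨ψ, hψ⟩ := hex v hv
      exact ⟨ψ, by rw [Matrix.toLin'_apply]; exact hψ⟩
    · rintro ⟨ψ, hψ⟩
      rw [Matrix.toLin'_apply] at hψ
      rw [← hψ, Matrix.mulVec_mulVec, hDD, Matrix.zero_mulVec])
  obtain ⟨H1, rfl⟩ : ∃ H1 : Matrix I I κ, Matrix.toLin' H1 = H0 :=
    ⟨LinearMap.toMatrix' H0, Matrix.toLin'_toMatrix' H0⟩
  have h1 : D * H1 + H1 * D = 1 := by
    apply Matrix.toLin'.injective
    apply LinearMap.ext
    intro v
    rw [map_add, Matrix.toLin'_mul, Matrix.toLin'_mul, Matrix.toLin'_one]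
    simpa using hH0 v
  obtain ⟨H2, hH2⟩ : ∃ H2 : Matrix I I κ, ∀ i j, H2 i j = if pr i = pr j then 0 else H1 i j :=
    ⟨Matrix.of fun i j => if pr i = pr j then 0 else H1 i j, fun _ _ => rfl⟩
  refine ⟨H2, fun i j hij => by rw [hH2, if_pos hij], ?_⟩
  ext i k
  have h2 : (D * H1 + H1 * D) i k = (1 : Matrix I I κ) i k := by rw [h1]
  rw [Matrix.add_apply, Matrix.mul_apply, Matrix.mul_apply] at h2 ⊢
  simp only [hH2]
  by_cases hik : pr i = pr k
  · rw [← h2]
    congr 1
    · refine Finset.sum_congr rfl fun j _ => ?_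
      by_cases hij : pr i = pr j
      · rw [hD i j hij, zero_mul, zero_mul]
      · rw [if_neg (fun hjk => hij (hik.trans hjk.symm))]
    · refine Finset.sum_congr rfl fun j _ => ?_
      by_cases hjk : pr j = pr k
      · rw [hD j k hjk, mul_zero, mul_zero]
      · rw [if_neg (fun hij => hjk (hij.symm.trans hik))]
  · have hne : i ≠ k := fun h => hik (by rw [h])
    rw [Matrix.one_apply_ne hne]
    have e1 : ∀ j, D i j * (if pr j = pr k then 0 else H1 j k) = 0 := by
      intro j
      by_cases hij : pr i = pr j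
      · rw [hD i j hij, zero_mul]
      · have hjk : pr j = pr k := by
          cases h3 : pr i <;> cases h4 : pr j <;> cases h5 : pr k <;> simp_all
        rw [if_pos hjk, mul_zero]
    have e2 : ∀ j, (if pr i = pr j then 0 else H1 i j) * D j k = 0 := by
      intro j
      by_cases hjk : pr j = pr k
      · rw [hD j k hjk, mul_zero]
      · have hij : pr i = pr j := by
          cases h3 : pr i <;> cases h4 : pr j <;> cases h5 : pr k <;> simp_all
        rw [if_pos hij, zero_mul]
    rw [Finset.sum_eq_zero (fun j _ => e1 j), Finset.sum_eq_zero (fun j _ => e2 j), add_zero]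

end Pool.Agent.LibPK60
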