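import Pool.Agent.LibPK60.DefsG

/-!
[PK60 M5] values of the matrix. Plan:
Conventions (Defs.lean): a chain `f` stands for the sum of `f(J) e_J` over the subsets `J`; `kd g` is the Koszul differential (contraction, `e_j` goes to `g_j`, sign `sg j J` = (-1)^(number of `i` in `J` below `j`)); `kh j` is multiplication by `e_j`.
`DD x a` is the derivation with `dx x` (derivative in the direction `x`) on the coefficients and `e_j ↦ a_j e_(j-1)`.
`v.Zer z` means that `z` is in the maximal ideal of the place `v` (closed under sums and under products with regular elements: see `Pool/Agent/LibBH2/Place.lean` and the proved row `Pool/Agent/LibPC60/A3.lean` for the way to compute with values: the elements `z` for which some constant `z₀` has `v.Zer (z - algebraMap z₀)` form a ring and `z ↦ z₀` is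
a homomorphism). Write the entry `CM s t` as an explicit finite sum of products of signs, natural numbers, coefficients of `g_j` (`coeff_mul_monomial'`) and `x_i`, the same expression for `g₀, x₀`; then add up. Convenient: first lemma `Val p p₀ := ∀ α, v.Zer (coeff α p - algebraMap k K (coeff α p₀))` for polynomials `p` over `K`, `p₀` over `k`; it is
compatible with `+`, finite sums, integer multiples, products (`coeff_mul`), `pderiv`, `C`, `monomial α 1`; conclude for `kd`, `DD`, `cd` of `bas K t` and `bas k t`.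
-/

open scoped Classical
open MvPolynomial

set_option linter.unusedSectionVars false

namespace Pool.Agent.LibPK60

open Pool.Agent.LibBH2 Pool.Agent.LibQC8 Pool.Agent.LibPC60 Pool.Agent.LibPN22

variable {k K : Type} [Field k] [Field K] [Algebra k K] {n M : ℕ}

private def Val (v : Place k K) (P : MvPolynomial (Fin n) K) (P₀ : MvPolynomial (Fin n) k) :
    Prop := ∀ α, v.Zer (coeff α P - algebraMap k K (coeff α P₀))

private theorem Val.zero (v : Place k K) : Val (n := n) v 0 0 := by
  intro α
  rw [coeff_zero, coeff_zero, map_zero, sub_zero]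
  exact v.zer_zero

private theorem Val.add {v : Place k K} {P Q : MvPolynomial (Fin n) K}
    {P₀ Q₀ : MvPolynomial (Fin n) k} (h : Val v P P₀) (h' : Val v Q Q₀) :
    Val v (P + Q) (P₀ + Q₀) := by
  intro α
  rw [coeff_add, coeff_add]
  exact Place.val_add (h α) (h' α)

private theorem Val.neg {v : Place k K} {P : MvPolynomial (Fin n) K}
    {P₀ : MvPolynomial (Fin n) k} (h : Val v P P₀) : Val v (-P) (-P₀) := by
  intro α
  rw [coeff_neg, coeff_neg]
  exact Place.val_neg (h α)

private theorem Val.sub {v : Place k K} {P Q : MvPolynomial (Fin n) K}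
    {P₀ Q₀ : MvPolynomial (Fin n) k} (h : Val v P P₀) (h' : Val v Q Q₀) :
    Val v (P - Q) (P₀ - Q₀) := by
  intro α
  rw [coeff_sub, coeff_sub]
  exact Place.val_sub (h α) (h' α)

private theorem Val.sum {v : Place k K} {ι : Type} (s : Finset ι)
    (P : ι → MvPolynomial (Fin n) K) (P₀ : ι → MvPolynomial (Fin n) k)
    (h : ∀ i ∈ s, Val v (P i) (P₀ i)) : Val v (∑ i ∈ s, P i) (∑ i ∈ s, P₀ i) := by
  induction s using Finset.induction_on with
  | empty =>
    rw [Finset.sum_empty, Finset.sum_empty]
    exact Val.zero v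
  | insert a s ha ih =>
    rw [Finset.sum_insert ha, Finset.sum_insert ha]
    exact (h a (Finset.mem_insert_self _ _)).add
      (ih fun i hi => h i (Finset.mem_insert_of_mem hi))

private theorem val_fsum {v : Place k K} {ι : Type} (s : Finset ι) (f : ι → K) (f₀ : ι → k)
    (h : ∀ i ∈ s, v.Zer (f i - algebraMap k K (f₀ i))) :
    v.Zer (∑ i ∈ s, f i - algebraMap k K (∑ i ∈ s, f₀ i)) := by
  induction s using Finset.induction_on with
  | empty =>
    rw [Finset.sum_empty, Finset.sum_empty, map_zero, sub_zero]
    exact v.zer_zero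
  | insert a s ha ih =>
    rw [Finset.sum_insert ha, Finset.sum_insert ha]
    exact Place.val_add (h a (Finset.mem_insert_self _ _))
      (ih fun i hi => h i (Finset.mem_insert_of_mem hi))

private theorem Val.mul {v : Place k K} {P Q : MvPolynomial (Fin n) K}
    {P₀ Q₀ : MvPolynomial (Fin n) k} (h : Val v P P₀) (h' : Val v Q Q₀) :
    Val v (P * Q) (P₀ * Q₀) := by
  intro α
  rw [coeff_mul, coeff_mul]
  exact val_fsum _ _ _ fun x _ => Place.val_mul (h _) (h' _)

private theorem Val.monomial {v : Place k K} (α : Fin n →₀ ℕ) {r : K} {r₀ : k}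
    (h : v.Zer (r - algebraMap k K r₀)) :
    Val v (MvPolynomial.monomial α r) (MvPolynomial.monomial α r₀) := by
  intro β
  rw [coeff_monomial, coeff_monomial]
  split_ifs
  · exact h
  · rw [map_zero, sub_zero]
    exact v.zer_zero

private theorem Val.C {v : Place k K} {r : K} {r₀ : k} (h : v.Zer (r - algebraMap k K r₀)) :
    Val (n := n) v (MvPolynomial.C r) (MvPolynomial.C r₀) :=
  Val.monomial 0 h

private theorem zer_natCast (v : Place k K) (m : ℕ) :
    v.Zer ((m : K) - algebraMap k K (m : k)) := by
  rw [map_natCast, sub_self]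
  exact v.zer_zero

private theorem Val.natCast (v : Place k K) (m : ℕ) :
    Val (n := n) v (m : MvPolynomial (Fin n) K) (m : MvPolynomial (Fin n) k) := by
  have h1 : (m : MvPolynomial (Fin n) K) = MvPolynomial.C (m : K) := (map_natCast _ m).symm
  have h2 : (m : MvPolynomial (Fin n) k) = MvPolynomial.C (m : k) := (map_natCast _ m).symm
  rw [h1, h2]
  exact Val.C (zer_natCast v m)

private theorem Val.sgn {v : Place k K} {P : MvPolynomial (Fin n) K}
    {P₀ : MvPolynomial (Fin n) k} (h : Val v P P₀) (j : Fin M) (J : Finset (Fin M)) :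
    Val v (sg j J • P) (sg j J • P₀) := by
  unfold sg
  rcases neg_one_pow_eq_or ℤ ((J.filter fun i => i < j).card) with h1 | h1
  · rw [h1, one_smul, one_smul]
    exact h
  · rw [h1, neg_one_smul, neg_one_smul]
    exact h.neg

private theorem Val.pderiv {v : Place k K} {P : MvPolynomial (Fin n) K}
    {P₀ : MvPolynomial (Fin n) k} (h : Val v P P₀) (i : Fin n) :
    Val v (MvPolynomial.pderiv i P) (MvPolynomial.pderiv i P₀) := by
  intro α
  rw [coeff_pderiv, coeff_pderiv]
  refine Place.val_mul (h _) ?_
  have h1 := zer_natCast v (α i + 1)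
  rw [Nat.cast_add, Nat.cast_add, Nat.cast_one, Nat.cast_one] at h1
  exact h1

private theorem Val.dx {v : Place k K} {P : MvPolynomial (Fin n) K}
    {P₀ : MvPolynomial (Fin n) k} (h : Val v P P₀) {x : Fin n → K} {x₀ : Fin n → k}
    (hx : ∀ i, v.Zer (x i - algebraMap k K (x₀ i))) :
    Val v (LibPK60.dx x P) (LibPK60.dx x₀ P₀) := by
  unfold LibPK60.dx
  exact Val.sum _ _ _ fun i _ => (Val.C (hx i)).mul (h.pderiv i)

private theorem Val.kd {v : Place k K} {g : Fin M → MvPolynomial (Fin n) K}
    {g₀ : Fin M → MvPolynomial (Fin n) k} (hg : ∀ j, Val v (g j) (g₀ j))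
    {f : Ch K n M} {f₀ : Ch k n M} (hf : ∀ J, Val v (f J) (f₀ J)) (J : Finset (Fin M)) :
    Val v (LibPK60.kd g f J) (LibPK60.kd g₀ f₀ J) := by
  unfold LibPK60.kd
  refine Val.sum _ _ _ fun j _ => ?_
  rw [smul_eq_mul, smul_eq_mul]
  exact ((hg j).mul (hf _)).sgn j J

private theorem Val.DD {v : Place k K} {x : Fin n → K} {x₀ : Fin n → k}
    (hx : ∀ i, v.Zer (x i - algebraMap k K (x₀ i))) (a : Fin M → ℕ)
    {f : Ch K n M} {f₀ : Ch k n M} (hf : ∀ J, Val v (f J) (f₀ J)) (J : Finset (Fin M)) :
    Val v (LibPK60.DD x a f J) (LibPK60.DD x₀ a f₀ J) := by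
  unfold LibPK60.DD
  refine ((hf J).dx hx).add (Val.sum _ _ _ fun i _ => Val.sum _ _ _ fun j _ => ?_)
  split_ifs
  · exact (Val.natCast v (a j)).mul (hf _)
  · exact Val.zero v

private theorem Val.bas (v : Place k K) {δ : Fin M → ℕ} {d : ℕ} (t : Ix n δ d) (b : Bool)
    (J : Finset (Fin M)) : Val v (LibPK60.bas K t b J) (LibPK60.bas k t b J) := by
  unfold LibPK60.bas
  split_ifs
  · refine Val.monomial _ ?_
    rw [map_one, sub_self]
    exact v.zer_zero
  · exact Val.zero v

theorem CM_val (v : Place k K) (δ : Fin M → ℕ) (d : ℕ) (g : Fin M → MvPolynomial (Fin n) K)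
    (g₀ : Fin M → MvPolynomial (Fin n) k) (x : Fin n → K) (x₀ : Fin n → k) (a : Fin M → ℕ)
    (hg : ∀ j α, v.Zer (coeff α (g j) - algebraMap k K (coeff α (g₀ j))))
    (hx : ∀ i, v.Zer (x i - algebraMap k K (x₀ i))) (s t : Ix n δ d) :
    v.Zer (CM δ d g x a s t - algebraMap k K (CM δ d g₀ x₀ a s t)) := by
  have hgV : ∀ j, Val v (g j) (g₀ j) := fun j α => hg j α
  have key : ∀ (b : Bool) (J : Finset (Fin M)),
      Val v (cd g x a (bas K t) b J) (cd g₀ x₀ a (bas k t) b J) := by
    intro b J
    cases b with
    | true =>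
      have h1 : cd g x a (bas K t) true J =
          DD x a (bas K t false) J - kd g (bas K t true) J := rfl
      have h2 : cd g₀ x₀ a (bas k t) true J =
          DD x₀ a (bas k t false) J - kd g₀ (bas k t true) J := rfl
      rw [h1, h2]
      exact (Val.DD hx a (fun J => Val.bas v t false J) J).sub
        (Val.kd hgV (fun J => Val.bas v t true J) J)
    | false =>
      have h1 : cd g x a (bas K t) false J = kd g (bas K t false) J := rfl
      have h2 : cd g₀ x₀ a (bas k t) false J = kd g₀ (bas k t false) J := rfl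
      rw [h1, h2]
      exact Val.kd hgV (fun J => Val.bas v t false J) J
  exact key s.1.1 s.1.2.1 s.1.2.2

end Pool.Agent.LibPK60
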