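import Pool.Agent.LibPK60.O1

/-!
The total weight of the cone.
-/

open scoped Classical
open MvPolynomial

set_option linter.unusedSectionVars false

namespace Pool.Agent.LibPK60

theorem par_sign {n M : ℕ} {δ : Fin M → ℕ} {d : ℕ} (t : Ix n δ d) :
    (if par t = true then (-1 : ℤ) else 1) =
      (-1) ^ (t.1.2.1.card + (if t.1.1 = true then 1 else 0)) := by
  unfold par
  by_cases h : (t.1.2.1.card + (if t.1.1 = true then 1 else 0)) % 2 = 1
  · rw [if_pos (by simpa using h), Odd.neg_one_pow (Nat.odd_iff.2 h)]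
  · rw [if_neg (by simpa using h), Even.neg_one_pow (Nat.even_iff.2 (by omega))]

/-- the difference of two sums over monomials -/
theorem mon_diff (M e : ℕ) (ω : Fin (M + 1) → ℤ) (r l : ℤ) :
    ∑ α ∈ mon (M + 1) (e + 1), (-(∑ i, (α i : ℤ) * ω i) - r) -
      ∑ α ∈ mon (M + 1) e, (-(∑ i, (α i : ℤ) * ω i) - r + l) =
    -((e + M).choose M : ℤ) * ∑ i, ω i -
      (((e + 1 + M).choose M : ℤ) - ((e + M).choose M : ℤ)) * r - ((e + M).choose M : ℤ) * l := by
  have h1 : ∀ e' : ℕ, ∑ α ∈ mon (M + 1) e', (∑ i, (α i : ℤ) * ω i) =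
      ∑ i, (∑ α ∈ mon (M + 1) e', (α i : ℤ)) * ω i := by
    intro e'
    rw [Finset.sum_comm]
    exact Finset.sum_congr rfl fun i _ => (Finset.sum_mul _ _ _).symm
  simp only [Finset.sum_add_distrib, Finset.sum_sub_distrib, Finset.sum_neg_distrib, h1,
    Finset.sum_const, nsmul_eq_mul, sum_mon_succ, card_mon, add_mul]
  rw [← Finset.mul_sum]
  ring

/-- the total weight: `M = n - 1` forms in `n` variables -/
theorem order_sum {M : ℕ} (δ : Fin M → ℕ) (hδ : ∀ j, 0 < δ j) (d : ℕ) (hd : ∑ j, δ j + 1 ≤ d)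
    (ω : Fin (M + 1) → ℤ) (r : Fin M → ℤ) (l : ℤ) :
    ∑ t : Ix (M + 1) δ d, (if par t = true then -1 else 1) *
      (-(∑ i, (t.1.2.2 i : ℤ) * ω i) - ∑ j ∈ t.1.2.1, r j + (if t.1.1 = true then l else 0)) =
    -((∏ j, δ j : ℕ) : ℤ) * ∑ i, ω i + ∑ j, ((∏ i ∈ Finset.univ.erase j, δ i : ℕ) : ℤ) * r j -
      ((∏ j, δ j : ℕ) : ℤ) * l := by
  have _ := hδ
  have hJ : ∀ J : Finset (Fin M), ∑ j ∈ J, δ j + 1 ≤ d := by
    intro J
    have := Finset.sum_le_sum_of_subset (f := δ) (Finset.subset_univ J)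
    omega
  -- the sum over the basis
  have h1 : ∑ t : Ix (M + 1) δ d, (if par t = true then -1 else 1) *
      (-(∑ i, (t.1.2.2 i : ℤ) * ω i) - ∑ j ∈ t.1.2.1, r j + (if t.1.1 = true then l else 0)) =
      ∑ J : Finset (Fin M), (-1 : ℤ) ^ J.card *
        (-((d - ∑ j ∈ J, δ j - 1 + M).choose M : ℤ) * ∑ i, ω i -
          (((d - ∑ j ∈ J, δ j - 1 + 1 + M).choose M : ℤ) -
            ((d - ∑ j ∈ J, δ j - 1 + M).choose M : ℤ)) * ∑ j ∈ J, r j -
          ((d - ∑ j ∈ J, δ j - 1 + M).choose M : ℤ) * l) := by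
    rw [Finset.sum_congr rfl fun t _ => by rw [par_sign t]]
    rw [sum_ix δ d hd (fun b J α => (-1) ^ (J.card + (if b = true then 1 else 0)) *
      (-(∑ i, (α i : ℤ) * ω i) - ∑ j ∈ J, r j + (if b = true then l else 0)))]
    refine Finset.sum_congr rfl fun J _ => ?_
    have h2 := mon_diff M (d - ∑ j ∈ J, δ j - 1) ω (∑ j ∈ J, r j) l
    have h3 : d - ∑ j ∈ J, δ j - 1 + 1 = d - ∑ j ∈ J, δ j := by
      have := hJ J
      omega
    rw [← h2, h3]
    simp only [if_true, Bool.false_eq_true, if_false, add_zero]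
    rw [← Finset.mul_sum, ← Finset.mul_sum, pow_succ]
    ring
  -- the two kinds of sums over the subsets
  have hA : ∑ J : Finset (Fin M), (-1 : ℤ) ^ J.card *
      ((d - ∑ j ∈ J, δ j - 1 + M).choose M : ℤ) = ((∏ j, δ j : ℕ) : ℤ) := by
    have h2 := sum_bin (Finset.univ : Finset (Fin M)) δ (d - 1) (by omega)
    rw [Finset.card_univ, Fintype.card_fin, Finset.powerset_univ] at h2
    rw [← h2]
    refine Finset.sum_congr rfl fun J _ => ?_
    rw [show d - ∑ j ∈ J, δ j - 1 = d - 1 - ∑ j ∈ J, δ j by omega]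
  have hB : ∑ J : Finset (Fin M), (-1 : ℤ) ^ J.card *
      ((((d - ∑ j ∈ J, δ j - 1 + 1 + M).choose M : ℤ) -
            ((d - ∑ j ∈ J, δ j - 1 + M).choose M : ℤ)) * ∑ j ∈ J, r j) =
      -∑ j, ((∏ i ∈ Finset.univ.erase j, δ i : ℕ) : ℤ) * r j := by
    have h2 : ∀ J : Finset (Fin M), (-1 : ℤ) ^ J.card *
      ((((d - ∑ j ∈ J, δ j - 1 + 1 + M).choose M : ℤ) -
            ((d - ∑ j ∈ J, δ j - 1 + M).choose M : ℤ)) * ∑ j ∈ J, r j) =
        ∑ j, if j ∈ J then (-1 : ℤ) ^ J.card *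
          ((((d - ∑ j ∈ J, δ j - 1 + 1 + M).choose M : ℤ) -
            ((d - ∑ j ∈ J, δ j - 1 + M).choose M : ℤ))) * r j else 0 := by
      intro J
      rw [← mul_assoc, Finset.mul_sum, ← Finset.sum_filter, Finset.filter_mem_eq_inter,
        Finset.univ_inter]
    rw [Finset.sum_congr rfl fun J _ => h2 J, Finset.sum_comm, ← Finset.sum_neg_distrib]
    refine Finset.sum_congr rfl fun j _ => ?_
    rw [sum_mem j]
    have hcard : (Finset.univ.erase j : Finset (Fin M)).card = M - 1 := by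
      rw [Finset.card_erase_of_mem (Finset.mem_univ j), Finset.card_univ, Fintype.card_fin]
    have hM : 0 < M := j.pos
    have hsum : ∑ i, δ i = δ j + ∑ i ∈ Finset.univ.erase j, δ i :=
      (Finset.add_sum_erase _ _ (Finset.mem_univ j)).symm
    have h3 := sum_bin (Finset.univ.erase j : Finset (Fin M)) δ (d - δ j) (by omega)
    rw [hcard] at h3
    rw [← h3, Finset.sum_mul, ← Finset.sum_neg_distrib]
    refine Finset.sum_congr rfl fun J hJm => ?_
    have hjJ : j ∉ J := fun h => Finset.notMem_erase j _ (Finset.mem_powerset.1 hJm h)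
    have h4 := hJ (insert j J)
    rw [Finset.sum_insert hjJ] at h4
    rw [Finset.card_insert_of_notMem hjJ, Finset.sum_insert hjJ]
    obtain ⟨M', rfl⟩ : ∃ M', M = M' + 1 := ⟨M - 1, by omega⟩
    set e := d - (δ j + ∑ j ∈ J, δ j) - 1 with he
    have h5 : d - δ j - ∑ j ∈ J, δ j = e + 1 := by omega
    rw [h5, show M' + 1 - 1 = M' by omega, show e + 1 + (M' + 1) = (e + (M' + 1)) + 1 by ring,
      Nat.choose_succ_succ', show e + 1 + M' = e + (M' + 1) by ring]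
    push_cast
    ring
  rw [h1]
  have h5 : ∀ J : Finset (Fin M), (-1 : ℤ) ^ J.card *
        (-((d - ∑ j ∈ J, δ j - 1 + M).choose M : ℤ) * ∑ i, ω i -
          (((d - ∑ j ∈ J, δ j - 1 + 1 + M).choose M : ℤ) -
            ((d - ∑ j ∈ J, δ j - 1 + M).choose M : ℤ)) * ∑ j ∈ J, r j -
          ((d - ∑ j ∈ J, δ j - 1 + M).choose M : ℤ) * l) =
      -((-1 : ℤ) ^ J.card * ((d - ∑ j ∈ J, δ j - 1 + M).choose M : ℤ)) * (∑ i, ω i) -
      (-1 : ℤ) ^ J.card * ((((d - ∑ j ∈ J, δ j - 1 + 1 + M).choose M : ℤ) -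
            ((d - ∑ j ∈ J, δ j - 1 + M).choose M : ℤ)) * ∑ j ∈ J, r j) -
      ((-1 : ℤ) ^ J.card * ((d - ∑ j ∈ J, δ j - 1 + M).choose M : ℤ)) * l := by
    intro J
    ring
  rw [Finset.sum_congr rfl fun J _ => h5 J, Finset.sum_sub_distrib, Finset.sum_sub_distrib, hB,
    ← Finset.sum_mul, ← Finset.sum_mul, Finset.sum_neg_distrib, hA]
  ring

end Pool.Agent.LibPK60
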