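import Pool.Agent.LibPK60.Tor
import Pool.Agent.LibPK60.Ord
import Pool.Agent.LibPK60.K5
import Pool.Agent.LibPK60.K7
import Pool.Agent.LibPK60.K8
import Pool.Agent.LibPK60.D5
import Pool.Agent.LibPK60.M2
import Pool.Agent.LibPK60.M3
import Pool.Agent.LibPK60.M4
import Pool.Agent.LibPK60.M5
import Pool.Agent.LibPK60.G1
import Pool.Agent.LibPK60.G2
import Pool.Agent.LibPK60.G3
import Pool.Agent.LibPK60.G4
import Pool.Agent.LibPK60.G5
import Pool.Agent.LibPN22.Main
import Pool.Agent.LibPC60.D16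

/-!
Assembly: the classes `TN` and `LL`, the main theorem for all `N ≥ 3`.
-/

open scoped Classical
open MvPolynomial

set_option linter.unusedSectionVars false

namespace Pool.Agent.LibPK60

open Pool.Agent.LibBH2 Pool.Agent.LibQC8 Pool.Agent.LibPC60 Pool.Agent.LibPN22

variable {k J S : Type} [Field k] [IsAlgClosed k] [CharZero k] {c ν : ℕ} [Fintype J] [Fintype S]
  {K : Type} [Field K] [Algebra k K]

/-- At a place where the value of `u` has no line of contact `N`, the cone has an exact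
reduction. -/
theorem good_at (X : Fam k J S c (ν + 1)) (v : Place k K) (u : Pt X K) (p : Pt X k) (l : K)
    (m : S → K) (h : Sp v u p l m)
    (hp : ¬ Tri X (fun j => p.z (Sum.inr j)) (fun _ i => p.z (Sum.inl i))) (d : ℕ)
    (hd : ∑ j, ds c ν j + 1 ≤ d) :
    Good v par (CM (ds c ν) d (gs X (fun i => u.z (Sum.inl i)) (fun j => u.z (Sum.inr j)))
      (fun i => u.z (Sum.inl i)) (as c ν)) (pw (ds c ν) d (mu X m) (rh X l m) l) := by
  have hzp : Sum.elim (fun i => p.z (Sum.inl i)) (fun j => p.z (Sum.inr j)) = p.z := by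
    funext s
    rcases s with s | s <;> rfl
  set x₀ : Fin (c + (ν + 1)) → k := fun i => p.z (Sum.inl i) with hx₀
  set y₀ : J → k := fun j => p.z (Sum.inr j) with hy₀
  have hs₀ : Sys (gs X x₀ y₀) (ds c ν) x₀ (as c ν) := by
    refine sys_gs X x₀ y₀ ?_ ?_
    · intro j
      rw [hzp]
      exact p.hΛ j
    · rw [hzp]
      exact p.hF
  obtain ⟨i₀, hi₀⟩ := p.x_ne
  let i₁ : Fin (c + ν + 1) := i₀
  let h₀ : MvPolynomial (Fin (c + ν + 1)) k := C (x₀ i₀)⁻¹ * MvPolynomial.X i₁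
  have hh₀ : dx (n := c + ν + 1) x₀ h₀ = 1 := by
    unfold dx
    rw [Finset.sum_eq_single i₁]
    · change C (x₀ i₀) * pderiv i₁ (C (x₀ i₀)⁻¹ * MvPolynomial.X i₁) = 1
      rw [pderiv_C_mul, pderiv_X_self, mul_one, ← C_mul, mul_inv_cancel₀ hi₀, C_1]
    · intro b _ hb
      change C (x₀ b) * pderiv b (C (x₀ i₀)⁻¹ * MvPolynomial.X i₁) = 0
      rw [pderiv_C_mul, pderiv_X_of_ne (Ne.symm hb), mul_zero, mul_zero]
    · intro hb
      exact absurd (Finset.mem_univ _) hb
  have hh₀' : h₀.IsHomogeneous 1 := by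
    have := (isHomogeneous_C (Fin (c + ν + 1)) (x₀ i₀)⁻¹).mul (isHomogeneous_X k i₁)
    rwa [zero_add] at this
  -- no common zero
  have hz : ∀ w : Fin (c + ν + 1) → k, (∀ j, eval w ((Fin.cons h₀ (gs X x₀ y₀) :
      Fin (c + ν + 1) → MvPolynomial (Fin (c + ν + 1)) k) j) = 0) → w = 0 := by
    intro w hw
    obtain ⟨s, hsw⟩ := gs_zero X p hp w (by
      intro q
      have := hw q.succ
      rwa [Fin.cons_succ] at this)
    have h1 := hw 0
    rw [Fin.cons_zero] at h1
    change eval w (C (x₀ i₀)⁻¹ * MvPolynomial.X i₁) = 0 at h1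
    rw [map_mul, eval_C, eval_X, mul_eq_zero] at h1
    have h2 : w i₁ = 0 := by
      rcases h1 with h1 | h1
      · exact absurd h1 (inv_ne_zero hi₀)
      · exact h1
    have h3 : s = 0 := by
      have h4 := hsw i₀
      rw [show w i₀ = w i₁ from rfl, h2] at h4
      rcases mul_eq_zero.1 h4.symm with h5 | h5
      · exact h5
      · exact absurd h5 hi₀
    funext i
    have h4 := hsw i
    rw [h3, zero_mul] at h4
    exact h4
  have hacy := acy_forms _ hz
  have htop : ∀ f : MvPolynomial (Fin (c + ν + 1)) k, f.IsHomogeneous d →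
      f ∈ Ideal.span (Set.range (Fin.cons h₀ (gs X x₀ y₀) :
        Fin (c + ν + 1) → MvPolynomial (Fin (c + ν + 1)) k)) := by
    intro f hf
    refine top_mem _ (Fin.cons 1 (ds c ν) : Fin (c + ν + 1) → ℕ) ?_ hacy d ?_ f hf
    · intro j
      refine Fin.cases ?_ (fun q => ?_) j
      · rw [Fin.cons_zero, Fin.cons_zero]
        exact hh₀'
      · rw [Fin.cons_succ, Fin.cons_succ]
        exact hs₀.hom q
    · rw [Fin.sum_univ_succ, Fin.cons_zero]
      simp only [Fin.cons_succ]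
      omega
  have hdec := ker_decomp (gs X x₀ y₀) h₀ (ds c ν) d hacy htop
  have hex := cone_exact (gs X x₀ y₀) (ds c ν) x₀ (as c ν) hs₀ h₀ hh₀ d hdec
  have hodd : IsOdd par (CM (ds c ν) d (gs X x₀ y₀) x₀ (as c ν)) := CM_odd _ _ _ _ _
  obtain ⟨H, hH, hH2⟩ := exists_homotopy par (CM (ds c ν) d (gs X x₀ y₀) x₀ (as c ν)) hodd
    (CM_sq _ _ _ _ hs₀ d) (CM_ker _ _ _ _ hs₀ d hex)
  refine ⟨?_, CM (ds c ν) d (gs X x₀ y₀) x₀ (as c ν), H, hodd, hH, hH2, ?_⟩
  · intro t
    unfold pw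
    refine mul_ne_zero (inv_ne_zero (mul_ne_zero ?_ ?_)) ?_
    · exact Finset.prod_ne_zero_iff.2 fun i _ => pow_ne_zero _ (mu_ne X m h.m_ne i)
    · exact Finset.prod_ne_zero_iff.2 fun i _ => rh_ne X l m h.l_ne h.m_ne i
    · split_ifs
      · exact h.l_ne
      · exact one_ne_zero
  · intro s t
    rw [CM_scale (ds c ν) d _ (gs X (fun i => chi l m (wt X.fac X.α (Sum.inl i)) * u.z (Sum.inl i))
      (fun j => chi l m (wt X.fac X.α (Sum.inr j)) * u.z (Sum.inr j)))
      _ (fun i => chi l m (wt X.fac X.α (Sum.inl i)) * u.z (Sum.inl i)) (as c ν) (mu X m)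
      (rh X l m) l (mu_ne X m h.m_ne) (rh_ne X l m h.l_ne h.m_ne) h.l_ne
      (fun q α => gs_scale X _ _ l m h.l_ne h.m_ne q α) ?_ (rh_step X l m) s t]
    · refine CM_val v (ds c ν) d _ _ _ _ (as c ν) ?_ ?_ s t
      · intro q α
        exact gs_val X v _ _ _ _ (fun i => h.val (Sum.inl i)) (fun j => h.val (Sum.inr j)) q α
      · intro i
        exact h.val (Sum.inl i)
    · intro i
      change chi l m (wt X.fac X.α (Sum.inl i)) * u.z (Sum.inl i) =
        l * chi 1 m (wt X.fac X.α (Sum.inl i)) * u.z (Sum.inl i)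
      rw [chi_wt_inl]

/-- The class `TN`. -/
theorem van_TN (X : Fam k J S c (ν + 1)) (hK : IsFunctionField k K) (ζ : Cyc X) (hζ : IsZ X ζ)
    (u : Pt X K) : Van X ζ (TN X) u := by
  intro p l m hs A hA
  by_cases hall : ∀ v, Tri X (fun j => (p v).z (Sum.inr j)) (fun _ i => (p v).z (Sum.inl i))
  · exact Finset.sum_eq_zero fun v _ => by rw [del_of_tri X ζ hζ (p v) (hall v), smul_zero]
  push Not at hall
  obtain ⟨v₀, hv₀⟩ := hall
  have hzu : Sum.elim (fun i => u.z (Sum.inl i)) (fun j => u.z (Sum.inr j)) = u.z := by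
    funext s
    rcases s with s | s <;> rfl
  have hsu : Sys (gs X (fun i => u.z (Sum.inl i)) (fun j => u.z (Sum.inr j))) (ds c ν)
      (fun i => u.z (Sum.inl i)) (as c ν) := by
    refine sys_gs X _ _ ?_ ?_
    · intro j
      rw [hzu]
      exact u.hΛ j
    · rw [hzu]
      exact u.hF
  obtain ⟨a, ha, hord⟩ := tor hK par (CM (ds c ν) (∑ j, ds c ν j + 1) _ _ (as c ν))
    (CM_odd _ _ _ _ _) (CM_sq _ _ _ _ hsu _)
    ⟨v₀, _, good_at X v₀ u (p v₀) (l v₀) (m v₀) (hs v₀) hv₀ _ le_rfl⟩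
  have h1 : ∀ v, ¬ Tri X (fun j => (p v).z (Sum.inr j)) (fun _ i => (p v).z (Sum.inl i)) →
      v.ord a = v.ord (chi (l v) (m v) (TN X)) := by
    intro v hv
    rw [hord v _ (good_at X v u (p v) (l v) (m v) (hs v) hv _ le_rfl),
      ← weight_eval X v (l v) (m v) (hs v).l_ne (hs v).m_ne,
      ← order_sum (ds c ν) (fun j => hsu.pos j) (∑ j, ds c ν j + 1) le_rfl
        (fun i => v.ord (mu X (m v) i)) (fun j => v.ord (rh X (l v) (m v) j)) (v.ord (l v))]
    refine Finset.sum_congr rfl fun t _ => ?_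
    rw [ord_pw v (ds c ν) _ (mu X (m v)) (rh X (l v) (m v)) (l v) (mu_ne X (m v) (hs v).m_ne)
      (rh_ne X (l v) (m v) (hs v).l_ne (hs v).m_ne) (hs v).l_ne t]
  have f1 := (Pool.Agent.LibEnd77.Val8.sum_formula hK a).1
  have h2 := sum_del X hK ζ u p (fun v => ⟨_, _, hs v⟩) a ha (A ∪ f1.toFinset) (fun v hv => by
    simp only [Finset.mem_union, Set.Finite.mem_toFinset]
    exact Or.inr hv)
  have h3 : ∀ v, (v.ord a : ℚ) • del ζ (p v) =
      (v.ord (chi (l v) (m v) (TN X)) : ℚ) • del ζ (p v) := by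
    intro v
    by_cases hv : Tri X (fun j => (p v).z (Sum.inr j)) (fun _ i => (p v).z (Sum.inl i))
    · rw [del_of_tri X ζ hζ (p v) hv, smul_zero, smul_zero]
    · rw [h1 v hv]
  simp_rw [h3] at h2
  rw [← h2]
  refine Finset.sum_subset Finset.subset_union_left ?_
  intro v _ hv
  have h4 : v.ord (chi (l v) (m v) (TN X)) = 0 := by
    by_contra h5
    exact hv (hA v h5)
  rw [h4]
  simp

end Pool.Agent.LibPK60
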