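import Pool.Agent.LibPK60.Defs
import Pool.Agent.LibPK60.Diff

/-!
Counting the monomials of given degree, and the sum over the basis of the cone.
-/

open scoped Classical
open MvPolynomial

set_option linter.unusedSectionVars false

namespace Pool.Agent.LibPK60

/-- the exponents of total degree `e` -/
noncomputable def mon (n e : ℕ) : Finset (Fin n →₀ ℕ) := Finset.finsuppAntidiag Finset.univ e

theorem mem_mon {n e : ℕ} {α : Fin n →₀ ℕ} : α ∈ mon n e ↔ ∑ i, α i = e := by
  simp [mon, Finset.mem_finsuppAntidiag]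

theorem card_mon (M e : ℕ) : (mon (M + 1) e).card = (e + M).choose M := by
  rw [mon, Finset.card_finsuppAntidiag_nat_eq_choose, Finset.card_univ, Fintype.card_fin,
    show M + 1 + e - 1 = e + M by omega]
  exact Nat.choose_symm_of_eq_add rfl

/-- the sum of the `i`-th exponents -/
theorem sum_mon_succ (n e : ℕ) (i : Fin n) :
    ∑ α ∈ mon n (e + 1), (α i : ℤ) = ∑ α ∈ mon n e, (α i : ℤ) + ((mon n e).card : ℤ) := by
  have h1 : ∑ α ∈ mon n (e + 1), (α i : ℤ) =
      ∑ α ∈ (mon n (e + 1)).filter (fun α => α i ≠ 0), (α i : ℤ) := by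
    rw [Finset.sum_filter]
    refine Finset.sum_congr rfl fun α _ => ?_
    split_ifs with h
    · rfl
    · push Not at h
      rw [h]; rfl
  have h2 : ∑ α ∈ (mon n (e + 1)).filter (fun α => α i ≠ 0), (α i : ℤ) =
      ∑ β ∈ mon n e, ((β i : ℤ) + 1) := by
    symm
    refine Finset.sum_bij' (fun β _ => β + Finsupp.single i 1) (fun α _ => α - Finsupp.single i 1)
      ?_ ?_ ?_ ?_ ?_
    · intro β hβ
      rw [mem_mon] at hβ
      rw [Finset.mem_filter, mem_mon]
      constructor
      · simp only [Finsupp.add_apply, Finset.sum_add_distrib, hβ]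
        congr 1
        rw [Finset.sum_eq_single i]
        · simp
        · intro b _ hb
          rw [Finsupp.single_apply, if_neg (Ne.symm hb)]
        · intro h; exact absurd (Finset.mem_univ i) h
      · simp
    · intro α hα
      rw [Finset.mem_filter, mem_mon] at hα
      rw [mem_mon]
      have h3 : α - Finsupp.single i 1 + Finsupp.single i 1 = α := by
        ext j
        by_cases hj : j = i
        · subst hj
          have := hα.2
          simp only [Finsupp.add_apply, Finsupp.tsub_apply, Finsupp.single_eq_same]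
          omega
        · simp [Ne.symm hj]
      have h4 : ∑ j, (α - Finsupp.single i 1 + Finsupp.single i 1 : Fin n →₀ ℕ) j = e + 1 := by
        rw [h3]; exact hα.1
      simp only [Finsupp.add_apply, Finset.sum_add_distrib] at h4
      have h5 : ∑ j, (Finsupp.single i 1 : Fin n →₀ ℕ) j = 1 := by
        rw [Finset.sum_eq_single i]
        · simp
        · intro b _ hb
          rw [Finsupp.single_apply, if_neg (Ne.symm hb)]
        · intro h; exact absurd (Finset.mem_univ i) h
      omega
    · intro β _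
      simp
    · intro α hα
      rw [Finset.mem_filter] at hα
      ext j
      by_cases hj : j = i
      · subst hj
        have := hα.2
        simp only [Finsupp.add_apply, Finsupp.tsub_apply, Finsupp.single_eq_same]
        omega
      · simp [Ne.symm hj]
    · intro β _
      simp
  rw [h1, h2, Finset.sum_add_distrib]
  simp

/-- the sum over the basis -/
theorem sum_ix {n M : ℕ} (δ : Fin M → ℕ) (d : ℕ) (hd : ∑ j, δ j + 1 ≤ d)
    (G : Bool → Finset (Fin M) → (Fin n →₀ ℕ) → ℤ) :
    ∑ t : Ix n δ d, G t.1.1 t.1.2.1 t.1.2.2 =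
      ∑ J : Finset (Fin M), (∑ α ∈ mon n (d - ∑ j ∈ J, δ j), G false J α +
        ∑ α ∈ mon n (d - ∑ j ∈ J, δ j - 1), G true J α) := by
  have hJ : ∀ J : Finset (Fin M), ∑ j ∈ J, δ j + 1 ≤ d := by
    intro J
    have := Finset.sum_le_sum_of_subset (f := δ) (Finset.subset_univ J)
    omega
  have h1 : ∑ t : Ix n δ d, G t.1.1 t.1.2.1 t.1.2.2 =
      ∑ x ∈ (Finset.univ : Finset (Finset (Fin M))).sigma (fun J =>
        (Finset.univ : Finset Bool).sigma (fun b =>
          mon n (d - ∑ j ∈ J, δ j - (if b = true then 1 else 0)))), G x.2.1 x.1 x.2.2 := by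
    refine Finset.sum_bij (fun t _ => ⟨t.1.2.1, t.1.1, t.1.2.2⟩) ?_ ?_ ?_ ?_
    · intro t _
      have h2 := t.2
      have h3 := hJ t.1.2.1
      simp only [Finset.mem_sigma, Finset.mem_univ, true_and, mem_mon]
      omega
    · intro t _ t' _ h
      simp only [Sigma.mk.injEq] at h
      obtain ⟨h1, h2⟩ := h
      rw [heq_eq_eq, Sigma.mk.injEq, heq_eq_eq] at h2
      exact Subtype.ext (Prod.ext h2.1 (Prod.ext h1 h2.2))
    · intro x hx
      simp only [Finset.mem_sigma, Finset.mem_univ, true_and, mem_mon] at hx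
      have h3 := hJ x.1
      refine ⟨⟨(x.2.1, x.1, x.2.2), ?_⟩, Finset.mem_univ _, rfl⟩
      dsimp only
      rw [hx]
      split_ifs <;> omega
    · intro t _
      rfl
  rw [h1, Finset.sum_sigma]
  refine Finset.sum_congr rfl fun J _ => ?_
  rw [Finset.sum_sigma, Fintype.sum_bool]
  simp only [if_true, Bool.false_eq_true, if_false, Nat.sub_zero]
  rw [add_comm]

/-- the sum over all subsets containing `j` -/
theorem sum_mem {M : ℕ} (j : Fin M) (F : Finset (Fin M) → ℤ) :
    ∑ J : Finset (Fin M), (if j ∈ J then F J else 0) =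
      ∑ J ∈ (Finset.univ.erase j).powerset, F (insert j J) := by
  rw [← Finset.sum_filter]
  refine Finset.sum_bij' (fun J _ => J.erase j) (fun J _ => insert j J) ?_ ?_ ?_ ?_ ?_
  · intro J _
    rw [Finset.mem_powerset]
    exact Finset.erase_subset_erase j (Finset.subset_univ J)
  · intro J _
    simp
  · intro J hJ
    exact Finset.insert_erase (Finset.mem_filter.1 hJ).2
  · intro J hJ
    refine Finset.erase_insert fun h => ?_
    exact Finset.notMem_erase j _ (Finset.mem_powerset.1 hJ h)
  · intro J hJ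
    rw [Finset.insert_erase (Finset.mem_filter.1 hJ).2]

/-- the polynomial `binomial (x + m, m)` -/
theorem exists_bin (m : ℕ) : ∃ f : Polynomial ℚ, f.natDegree ≤ m ∧
    (m.factorial : ℚ) * f.coeff m = 1 ∧ ∀ e : ℕ, f.eval (e : ℚ) = ((e + m).choose m : ℚ) := by
  set g : Polynomial ℚ := ∏ i ∈ Finset.range m, (Polynomial.X + Polynomial.C ((i : ℚ) + 1)) with hg
  have hmon : ∀ i ∈ Finset.range m, (Polynomial.X + Polynomial.C ((i : ℚ) + 1)).Monic :=
    fun i _ => Polynomial.monic_X_add_C _
  have hgm : g.Monic := Polynomial.monic_prod_of_monic _ _ hmon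
  have hdeg : g.natDegree = m := by
    rw [hg, Polynomial.natDegree_prod_of_monic _ _ hmon,
      Finset.sum_congr rfl fun i _ => Polynomial.natDegree_X_add_C _]
    simp
  have hf : (m.factorial : ℚ) ≠ 0 := by exact_mod_cast m.factorial_ne_zero
  refine ⟨Polynomial.C ((m.factorial : ℚ)⁻¹) * g, ?_, ?_, ?_⟩
  · exact (Polynomial.natDegree_C_mul_le _ _).trans hdeg.le
  · rw [Polynomial.coeff_C_mul]
    have : g.coeff m = 1 := by
      rw [← hdeg]; exact hgm
    rw [this, mul_one, mul_inv_cancel₀ hf]
  · intro e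
    rw [Polynomial.eval_mul, Polynomial.eval_C, hg, Polynomial.eval_prod]
    have h1 := Nat.ascFactorial_eq_factorial_mul_choose e m
    rw [Nat.ascFactorial_eq_prod_range] at h1
    have h2 : ∏ j ∈ Finset.range m, Polynomial.eval (e : ℚ)
        (Polynomial.X + Polynomial.C ((j : ℚ) + 1)) = (m.factorial : ℚ) * ((e + m).choose m : ℚ) := by
      rw [← Nat.cast_mul, ← h1]
      push_cast
      refine Finset.prod_congr rfl fun i _ => ?_
      rw [Polynomial.eval_add, Polynomial.eval_X, Polynomial.eval_C]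
      ring
    rw [h2, ← mul_assoc, inv_mul_cancel₀ hf, one_mul]

/-- the iterated difference of the binomial coefficient -/
theorem sum_bin {ι : Type} (T : Finset ι) (δ : ι → ℕ) (x : ℕ) (hx : ∑ j ∈ T, δ j ≤ x) :
    ∑ J ∈ T.powerset, (-1 : ℤ) ^ J.card * ((x - ∑ j ∈ J, δ j + T.card).choose T.card : ℤ) =
      ((∏ j ∈ T, δ j : ℕ) : ℤ) := by
  obtain ⟨f, h1, h2, h3⟩ := exists_bin T.card
  have h4 := diffT T (fun j => (δ j : ℚ)) f h1 x
  rw [h2, one_mul] at h4
  have h5 : ((∑ J ∈ T.powerset, (-1 : ℤ) ^ J.card *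
      ((x - ∑ j ∈ J, δ j + T.card).choose T.card : ℤ) : ℤ) : ℚ) =
      (((∏ j ∈ T, δ j : ℕ) : ℤ) : ℚ) := by
    push_cast
    rw [← h4]
    refine Finset.sum_congr rfl fun J hJ => ?_
    have h6 : ∑ j ∈ J, δ j ≤ x :=
      (Finset.sum_le_sum_of_subset (Finset.mem_powerset.1 hJ)).trans hx
    rw [← h3]
    push_cast [h6]
    rfl
  exact_mod_cast h5

end Pool.Agent.LibPK60
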