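import Mathlib

/-!
Blocks of matrices with respect to a parity of the index set.
-/

open scoped Classical

set_option linter.unusedSectionVars false

namespace Pool.Agent.LibPK60.Tor

variable {I R : Type} [Fintype I] [CommRing R]

/-- the block of rows of parity `b` and columns of parity `c` -/
def blk (pr : I → Bool) (b c : Bool) (A : Matrix I I R) :
    Matrix {i // pr i = b} {i // pr i = c} R :=
  A.submatrix Subtype.val Subtype.val

theorem blk_mul (pr : I → Bool) (b c : Bool) (A B : Matrix I I R) :
    blk pr b c (A * B) = blk pr b false A * blk pr false c B + blk pr b true A * blk pr true c B := by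
  ext s t
  simp only [blk, Matrix.submatrix_apply, Matrix.add_apply, Matrix.mul_apply]
  have h1 : ∀ e : Bool, ∑ x : {i // pr i = e}, A s.1 x.1 * B x.1 t.1 =
      ∑ j ∈ Finset.univ.filter (fun j => pr j = e), A s.1 j * B j t.1 := by
    intro e
    symm
    apply Finset.sum_subtype (Finset.univ.filter (fun j => pr j = e))
      (p := fun j => pr j = e) (f := fun j => A s.1 j * B j t.1)
    intro x
    simp
  rw [h1, h1, ← Finset.sum_filter_add_sum_filter_not Finset.univ (fun j => pr j = false)]
  congr 1
  apply Finset.sum_congr _ fun _ _ => rfl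
  ext j
  simp

theorem blk_add (pr : I → Bool) (b c : Bool) (A B : Matrix I I R) :
    blk pr b c (A + B) = blk pr b c A + blk pr b c B := rfl

theorem blk_one (pr : I → Bool) (b : Bool) : blk pr b b (1 : Matrix I I R) = 1 := by
  ext s t
  simp only [blk, Matrix.submatrix_apply, Matrix.one_apply, Subtype.ext_iff]

/-- a matrix which preserves the parity -/
def IsEv (pr : I → Bool) (A : Matrix I I R) : Prop :=
  ∀ s t, pr s ≠ pr t → A s t = 0

/-- a matrix which changes the parity -/
def IsOd (pr : I → Bool) (A : Matrix I I R) : Prop :=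
  ∀ s t, pr s = pr t → A s t = 0

theorem blk_ev {pr : I → Bool} {A : Matrix I I R} (hA : IsEv pr A) {b c : Bool} (h : b ≠ c) :
    blk pr b c A = 0 := by
  ext s t
  exact hA s.1 t.1 (by rw [s.2, t.2]; exact h)

theorem blk_od {pr : I → Bool} {A : Matrix I I R} (hA : IsOd pr A) (b : Bool) :
    blk pr b b A = 0 := by
  ext s t
  exact hA s.1 t.1 (by rw [s.2, t.2])

/-- the determinant of the block of parity `b` -/
noncomputable def de (pr : I → Bool) (b : Bool) (A : Matrix I I R) : R := (blk pr b b A).det

theorem de_mul {pr : I → Bool} (b : Bool) {A B : Matrix I I R} (hA : IsEv pr A) :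
    de pr b (A * B) = de pr b A * de pr b B := by
  unfold de
  rw [blk_mul]
  cases b
  · rw [blk_ev hA (b := false) (c := true) (by simp)]
    simp
  · rw [blk_ev hA (b := true) (c := false) (by simp)]
    simp

theorem de_one (pr : I → Bool) (b : Bool) : de pr b (1 : Matrix I I R) = 1 := by
  unfold de
  rw [blk_one, Matrix.det_one]

/-- conjugation with an odd involution exchanges the blocks -/
theorem de_conj {pr : I → Bool} {A B : Matrix I I R} (hA : IsOd pr A) (hAA : A * A = 1)
    (hB : IsEv pr B) : de pr false (A * B * A) = de pr true B := by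
  have h00 := congrArg (blk pr false false) hAA
  have h11 := congrArg (blk pr true true) hAA
  rw [blk_mul, blk_od hA false, blk_one] at h00
  rw [blk_mul, blk_od hA true, blk_one] at h11
  simp only [Matrix.zero_mul, zero_add, add_zero] at h00 h11
  unfold de
  rw [blk_mul, blk_od hA false, blk_mul pr false true A B, blk_od hA false,
    blk_ev hB (b := false) (c := true) (by simp)]
  simp only [Matrix.mul_zero, zero_add]
  rw [Matrix.mul_assoc, Matrix.det_comm' h00 h11, Matrix.mul_assoc, h11, Matrix.mul_one]

theorem ev_one (pr : I → Bool) : IsEv pr (1 : Matrix I I R) := by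
  intro s t h
  exact Matrix.one_apply_ne (fun e => h (by rw [e]))

theorem ev_add {pr : I → Bool} {A B : Matrix I I R} (hA : IsEv pr A) (hB : IsEv pr B) :
    IsEv pr (A + B) := by
  intro s t h
  rw [Matrix.add_apply, hA s t h, hB s t h, add_zero]

theorem ev_sub {pr : I → Bool} {A B : Matrix I I R} (hA : IsEv pr A) (hB : IsEv pr B) :
    IsEv pr (A - B) := by
  intro s t h
  rw [Matrix.sub_apply, hA s t h, hB s t h, sub_zero]

theorem od_add {pr : I → Bool} {A B : Matrix I I R} (hA : IsOd pr A) (hB : IsOd pr B) :
    IsOd pr (A + B) := by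
  intro s t h
  rw [Matrix.add_apply, hA s t h, hB s t h, add_zero]

theorem od_sub {pr : I → Bool} {A B : Matrix I I R} (hA : IsOd pr A) (hB : IsOd pr B) :
    IsOd pr (A - B) := by
  intro s t h
  rw [Matrix.sub_apply, hA s t h, hB s t h, sub_zero]

theorem od_mul {pr : I → Bool} {A B : Matrix I I R} (hA : IsOd pr A) (hB : IsOd pr B) :
    IsEv pr (A * B) := by
  intro s t h
  rw [Matrix.mul_apply]
  refine Finset.sum_eq_zero fun j _ => ?_
  by_cases h1 : pr s = pr j
  · rw [hA s j h1, zero_mul]
  · rw [hB j t (by
      revert h h1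
      cases pr s <;> cases pr j <;> cases pr t <;> simp), mul_zero]

theorem ev_mul {pr : I → Bool} {A B : Matrix I I R} (hA : IsEv pr A) (hB : IsEv pr B) :
    IsEv pr (A * B) := by
  intro s t h
  rw [Matrix.mul_apply]
  refine Finset.sum_eq_zero fun j _ => ?_
  by_cases h1 : pr s = pr j
  · rw [hB j t (by rw [← h1]; exact h), mul_zero]
  · rw [hA s j h1, zero_mul]

theorem ev_mul_od {pr : I → Bool} {A B : Matrix I I R} (hA : IsEv pr A) (hB : IsOd pr B) :
    IsOd pr (A * B) := by
  intro s t h
  rw [Matrix.mul_apply]
  refine Finset.sum_eq_zero fun j _ => ?_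
  by_cases h1 : pr s = pr j
  · rw [hB j t (by rw [← h1]; exact h), mul_zero]
  · rw [hA s j h1, zero_mul]

theorem od_mul_ev {pr : I → Bool} {A B : Matrix I I R} (hA : IsOd pr A) (hB : IsEv pr B) :
    IsOd pr (A * B) := by
  intro s t h
  rw [Matrix.mul_apply]
  refine Finset.sum_eq_zero fun j _ => ?_
  by_cases h1 : pr s = pr j
  · rw [hA s j h1, zero_mul]
  · rw [hB j t (by rw [← h]; exact fun e => h1 e.symm), mul_zero]

theorem ev_diag (pr : I → Bool) (p : I → R) : IsEv pr (Matrix.diagonal p) := by
  intro s t h
  exact Matrix.diagonal_apply_ne _ (fun e => h (by rw [e]))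

theorem de_diag (pr : I → Bool) (b : Bool) (p : I → R) :
    de pr b (Matrix.diagonal p) = ∏ i ∈ Finset.univ.filter (fun i => pr i = b), p i := by
  unfold de blk
  rw [Matrix.submatrix_diagonal _ _ Subtype.val_injective, Matrix.det_diagonal]
  symm
  apply Finset.prod_subtype (Finset.univ.filter (fun j => pr j = b))
    (p := fun j => pr j = b) (f := fun j => p j)
  intro x
  simp

end Pool.Agent.LibPK60.Tor
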