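import Pool.Agent.LibPK60.T1

/-!
The determinant of the involution `D + H` is independent of the square-zero homotopy `H`.
-/

open scoped Classical

set_option linter.unusedSectionVars false

namespace Pool.Agent.LibPK60.Tor

variable {I K : Type} [Fintype I] [Field K]

theorem det_unip {J : Type} [Fintype J] [DecidableEq J] (N : Matrix J J K) (h : N * N = 0) :
    (1 + N).det = 1 := by
  have h1 : IsNilpotent (-N) := ⟨2, by rw [pow_two, neg_mul_neg, h]⟩
  have h2 := Matrix.isNilpotent_charpoly_sub_pow_of_isNilpotent h1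
  have h3 : (-N).charpoly = Polynomial.X ^ Fintype.card J := sub_eq_zero.1 h2.eq_zero
  have h4 := Matrix.eval_charpoly (-N) 1
  rw [h3, Polynomial.eval_pow, Polynomial.eval_X, one_pow] at h4
  rw [h4, sub_neg_eq_add, map_one]

theorem de_unip {pr : I → Bool} (b : Bool) (N : Matrix I I K) (hN : IsEv pr N) (h : N * N = 0) :
    de pr b (1 + N) = 1 := by
  unfold de
  rw [blk_add, blk_one]
  apply det_unip
  have h1 := congrArg (blk pr b b) h
  rw [blk_mul] at h1
  cases b
  · rw [blk_ev hN (b := false) (c := true) (by simp), Matrix.zero_mul, add_zero] at h1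
    exact h1
  · rw [blk_ev hN (b := true) (c := false) (by simp), Matrix.zero_mul, zero_add] at h1
    exact h1

/-- a square-zero homotopy -/
structure Hom (pr : I → Bool) (D H : Matrix I I K) : Prop where
  od : IsOd pr H
  sq : H * H = 0
  ht : D * H + H * D = 1

/-- a homotopy yields a square-zero homotopy -/
theorem Hom.mk' {pr : I → Bool} {D H : Matrix I I K} (hD : IsOd pr D) (hDD : D * D = 0)
    (hH : IsOd pr H) (h : D * H + H * D = 1) : Hom pr D (H * D * H) := by
  have hDHD : D * H * D = D := by
    have h1 : D * (D * H + H * D) = D := by rw [h, Matrix.mul_one]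
    rw [Matrix.mul_add, ← Matrix.mul_assoc, hDD, Matrix.zero_mul, zero_add, ← Matrix.mul_assoc] at h1
    exact h1
  have hDHHD : D * H * (H * D) = 0 := by
    have h2 : H * D = 1 - D * H := by rw [← h]; abel
    have h3 : D * H * (D * H) = D * H := by rw [← Matrix.mul_assoc, hDHD]
    rw [h2, Matrix.mul_sub, Matrix.mul_one, h3, sub_self]
  refine ⟨ev_mul_od (od_mul hH hD) hH, ?_, ?_⟩
  · calc H * D * H * (H * D * H) = H * (D * H * (H * D)) * H := by simp only [Matrix.mul_assoc]
      _ = 0 := by rw [hDHHD, Matrix.mul_zero, Matrix.zero_mul]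
  · calc D * (H * D * H) + H * D * H * D = (D * H * D) * H + H * (D * H * D) := by
          simp only [Matrix.mul_assoc]
      _ = 1 := by rw [hDHD, h]

theorem Hom.inv {pr : I → Bool} {D H : Matrix I I K} (hDD : D * D = 0) (h : Hom pr D H) :
    (D + H) * (D + H) = 1 := by
  rw [Matrix.add_mul, Matrix.mul_add, Matrix.mul_add, hDD, h.sq, zero_add, add_zero, h.ht]

theorem Hom.indep {pr : I → Bool} {D H H' R : Matrix I I K} (hD : IsOd pr D) (hDD : D * D = 0)
    (h : Hom pr D H) (h' : Hom pr D H') (hR : IsOd pr R) :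
    de pr false (R * (D + H)) = de pr false (R * (D + H')) := by
  have hDHD : D * H * D = D := by
    have h1 : D * (D * H + H * D) = D := by rw [h.ht, Matrix.mul_one]
    rw [Matrix.mul_add, ← Matrix.mul_assoc, hDD, Matrix.zero_mul, zero_add, ← Matrix.mul_assoc] at h1
    exact h1
  have hDHD' : D * H' * D = D := by
    have h1 : D * (D * H' + H' * D) = D := by rw [h'.ht, Matrix.mul_one]
    rw [Matrix.mul_add, ← Matrix.mul_assoc, hDD, Matrix.zero_mul, zero_add, ← Matrix.mul_assoc] at h1
    exact h1
  have hHDH' : H' * D * H' = H' := by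
    have h1 : (D * H' + H' * D) * H' = H' := by rw [h'.ht, Matrix.one_mul]
    rw [Matrix.add_mul, Matrix.mul_assoc D, h'.sq, Matrix.mul_zero, zero_add] at h1
    exact h1
  have e : (D + H') * (D + H) = (1 + (H' - H) * D) * (1 + H * D * H' * H) := by
    have e1 : D * H = 1 - H * D := by rw [← h.ht]; abel
    have e2 : (H' - H) * D * (H * D * H' * H) = H' * H - H * D * H' * H := by
      calc (H' - H) * D * (H * D * H' * H) = (H' - H) * ((D * H * D) * H' * H) := by
            simp only [Matrix.mul_assoc]
        _ = (H' - H) * (D * H' * H) := by rw [hDHD]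
        _ = (H' * D * H') * H - H * D * H' * H := by
            rw [Matrix.sub_mul]; simp only [Matrix.mul_assoc]
        _ = _ := by rw [hHDH']
    rw [Matrix.add_mul, Matrix.mul_add, Matrix.mul_add, hDD, Matrix.add_mul (1 : Matrix I I K),
      Matrix.mul_add ((H' - H) * D), Matrix.one_mul, Matrix.mul_one, e2, e1, Matrix.sub_mul]
    abel
  have n1 : (H' - H) * D * ((H' - H) * D) = 0 := by
    calc (H' - H) * D * ((H' - H) * D) = (H' - H) * (D * H' * D - D * H * D) := by
          simp only [Matrix.mul_sub, Matrix.sub_mul, Matrix.mul_assoc]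
      _ = 0 := by rw [hDHD, hDHD', sub_self, Matrix.mul_zero]
  have n2 : H * D * H' * H * (H * D * H' * H) = 0 := by
    calc H * D * H' * H * (H * D * H' * H) = H * D * H' * (H * H) * D * H' * H := by
          simp only [Matrix.mul_assoc]
      _ = 0 := by rw [h.sq, Matrix.mul_zero, Matrix.zero_mul, Matrix.zero_mul, Matrix.zero_mul]
  have v1 : IsEv pr ((H' - H) * D) := od_mul (od_sub h'.od h.od) hD
  have v2 : IsEv pr (H * D * H' * H) := ev_mul (od_mul h.od hD) (od_mul h'.od h.od) |> fun q => by
    rwa [← Matrix.mul_assoc] at q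
  have v3 : IsEv pr (R * (D + H')) := od_mul hR (od_add hD h'.od)
  have v4 : IsEv pr (1 + (H' - H) * D) := ev_add (ev_one pr) v1
  calc de pr false (R * (D + H)) = de pr false (R * (D + H') * ((D + H') * (D + H))) := by
        rw [← Matrix.mul_assoc, Matrix.mul_assoc R, h'.inv hDD, Matrix.mul_one]
    _ = de pr false (R * (D + H')) := by
        rw [de_mul false v3, e, de_mul false v4, de_unip false _ v1 n1, de_unip false _ v2 n2,
          mul_one, mul_one]

end Pool.Agent.LibPK60.Tor
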