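import Pool.Agent.LibPK60.T2
import Pool.Agent.LibBH2.Place

/-!
Integral matrices at a place, and an integral square-zero homotopy.
-/

open scoped Classical

set_option linter.unusedSectionVars false

namespace Pool.Agent.LibPK60.Tor

open Pool.Agent.LibBH2

variable {k K : Type} [Field k] [Field K] [Algebra k K] {v : Place k K}

/-- the valuation ring -/
def vr (v : Place k K) : Subring K where
  carrier := {f | v.Reg f}
  mul_mem' := fun ha hb => ha.mul hb
  one_mem' := Or.inr (by rw [v.ord_one])
  add_mem' := fun ha hb => ha.add hb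
  zero_mem' := v.reg_zero
  neg_mem' := fun ha => ha.neg

theorem reg_det {J : Type} [Fintype J] [DecidableEq J] {A : Matrix J J K}
    (h : ∀ i j, v.Reg (A i j)) : v.Reg A.det := by
  rw [Matrix.det_apply]
  change _ ∈ vr v
  refine Subring.sum_mem _ fun σ _ => ?_
  have h1 : ∏ i, A (σ i) i ∈ vr v := Subring.prod_mem _ fun i _ => h _ _
  rcases Int.units_eq_one_or (Equiv.Perm.sign σ) with h2 | h2
  · rw [h2, one_smul]
    exact h1
  · rw [h2, Units.neg_smul, one_smul]
    exact Subring.neg_mem _ h1

theorem reg_mul {I : Type} [Fintype I] {A B : Matrix I I K} (hA : ∀ i j, v.Reg (A i j))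
    (hB : ∀ i j, v.Reg (B i j)) (i j : I) : v.Reg ((A * B) i j) := by
  rw [Matrix.mul_apply]
  change _ ∈ vr v
  exact Subring.sum_mem _ fun l _ => (hA i l).mul (hB l j)

theorem reg_add {I : Type} [Fintype I] {A B : Matrix I I K} (hA : ∀ i j, v.Reg (A i j))
    (hB : ∀ i j, v.Reg (B i j)) (i j : I) : v.Reg ((A + B) i j) := (hA i j).add (hB i j)

theorem zer_sum {J : Type} (s : Finset J) (f : J → K) (h : ∀ i ∈ s, v.Zer (f i)) :
    v.Zer (∑ i ∈ s, f i) := by
  induction s using Finset.induction_on with
  | empty => simp [v.zer_zero]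
  | insert a s ha ih =>
    rw [Finset.sum_insert ha]
    exact (h a (Finset.mem_insert_self a s)).add (ih fun i hi => h i (Finset.mem_insert_of_mem hi))

theorem val_prod {J : Type} (s : Finset J) (f : J → K) (c : J → k)
    (h : ∀ i ∈ s, v.Zer (f i - algebraMap k K (c i))) :
    v.Zer (∏ i ∈ s, f i - algebraMap k K (∏ i ∈ s, c i)) := by
  induction s using Finset.induction_on with
  | empty => simp [v.zer_zero]
  | insert a s ha ih =>
    rw [Finset.prod_insert ha, Finset.prod_insert ha]
    exact Place.val_mul (h a (Finset.mem_insert_self a s))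
      (ih fun i hi => h i (Finset.mem_insert_of_mem hi))

theorem val_det {J : Type} [Fintype J] [DecidableEq J] {A : Matrix J J K} {C : Matrix J J k}
    (h : ∀ i j, v.Zer (A i j - algebraMap k K (C i j))) :
    v.Zer (A.det - algebraMap k K C.det) := by
  rw [Matrix.det_apply, Matrix.det_apply, map_sum, ← Finset.sum_sub_distrib]
  refine zer_sum _ _ fun σ _ => ?_
  have h1 := val_prod Finset.univ (fun i => A (σ i) i) (fun i => C (σ i) i) fun i _ => h _ _
  rcases Int.units_eq_one_or (Equiv.Perm.sign σ) with h2 | h2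
  · rw [h2, one_smul, one_smul]
    exact h1
  · rw [h2, Units.neg_smul, Units.neg_smul, one_smul, one_smul, map_neg, ← neg_sub_neg, neg_neg,
      neg_neg] at *
    first
      | exact h1.neg
      | (have := h1.neg; convert this using 1; ring)

/-- an integral matrix which reduces to the identity has an integral inverse -/
theorem reg_inv {I : Type} [Fintype I] {U : Matrix I I K}
    (h : ∀ i j, v.Zer (U i j - algebraMap k K ((1 : Matrix I I k) i j))) :
    ∃ V : Matrix I I K, U * V = 1 ∧ V * U = 1 ∧ ∀ i j, v.Reg (V i j) := by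
  have h1 := val_det h
  rw [Matrix.det_one] at h1
  have h2 : U.det ≠ 0 := Place.ne_zero_of_val h1 one_ne_zero
  have h3 : v.ord U.det = 0 := Place.ord_eq_zero_of_val h1 one_ne_zero
  have h4 : ∀ i j, v.Reg (U i j) := fun i j => Place.reg_of_val (h i j)
  have h5 : IsUnit U.det := isUnit_iff_ne_zero.2 h2
  refine ⟨U⁻¹, Matrix.mul_nonsing_inv _ h5, Matrix.nonsing_inv_mul _ h5, fun i j => ?_⟩
  rw [Matrix.inv_def, Ring.inverse_eq_inv', Matrix.smul_apply, smul_eq_mul, Matrix.adjugate_apply]
  refine Place.Reg.mul (Or.inr (by rw [v.ord_inv, h3]; simp)) (reg_det fun a b => ?_)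
  rw [Matrix.updateRow_apply]
  split_ifs with h6
  · by_cases h7 : b = i
    · rw [h7, Pi.single_eq_same]
      exact Or.inr (by rw [v.ord_one])
    · rw [Pi.single_eq_of_ne h7]
      exact v.reg_zero
  · exact h4 a b

/-- even matrices commute with the projection -/
theorem ev_iff {I R : Type} [Fintype I] [CommRing R] (pr : I → Bool) (A : Matrix I I R) :
    IsEv pr A ↔ Matrix.diagonal (fun i => if pr i = true then (1 : R) else 0) * A =
      A * Matrix.diagonal (fun i => if pr i = true then (1 : R) else 0) := by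
  constructor
  · intro h
    ext s t
    rw [Matrix.diagonal_mul, Matrix.mul_diagonal]
    by_cases h1 : pr s = pr t
    · rw [h1]; ring
    · rw [h s t h1]; ring
  · intro h s t hst
    have h1 := congrFun (congrFun h s) t
    rw [Matrix.diagonal_mul, Matrix.mul_diagonal] at h1
    revert h1 hst
    cases pr s <;> cases pr t <;> simp
    intro h; exact h.symm

theorem ev_inv {I : Type} [Fintype I] {pr : I → Bool} {U V : Matrix I I K} (hU : IsEv pr U)
    (h1 : U * V = 1) (h2 : V * U = 1) : IsEv pr V := by
  rw [ev_iff] at hU ⊢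
  set E := Matrix.diagonal (fun i => if pr i = true then (1 : K) else 0)
  calc E * V = (V * U) * E * V := by rw [h2, Matrix.one_mul]
    _ = V * (E * U) * V := by rw [hU]; simp only [Matrix.mul_assoc]
    _ = V * E * (U * V) := by simp only [Matrix.mul_assoc]
    _ = V * E := by rw [h1, Matrix.mul_one]

/-- an integral square-zero homotopy -/
theorem exists_hom {I : Type} [Fintype I] {pr : I → Bool} {D : Matrix I I K} {C H : Matrix I I k}
    (hD : IsOd pr D) (hDD : D * D = 0) (hH : IsOd pr H) (h : C * H + H * C = 1)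
    (hv : ∀ i j, v.Zer (D i j - algebraMap k K (C i j))) :
    ∃ F : Matrix I I K, Hom pr D F ∧ ∀ i j, v.Reg (F i j) := by
  set h' : Matrix I I K := H.map (algebraMap k K) with hh'
  have h'od : IsOd pr h' := by
    intro s t e
    rw [hh', Matrix.map_apply, hH s t e, map_zero]
  set U : Matrix I I K := D * h' + h' * D with hU
  have hval : ∀ i j, v.Zer (U i j - algebraMap k K ((1 : Matrix I I k) i j)) := by
    intro i j
    rw [← h, hU, Matrix.add_apply, Matrix.add_apply, Matrix.mul_apply, Matrix.mul_apply,
      Matrix.mul_apply, Matrix.mul_apply]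
    apply Place.val_add
    · rw [map_sum, ← Finset.sum_sub_distrib]
      refine zer_sum _ _ fun l _ => ?_
      exact Place.val_mul (hv i l) (Place.val_const _)
    · rw [map_sum, ← Finset.sum_sub_distrib]
      refine zer_sum _ _ fun l _ => ?_
      exact Place.val_mul (Place.val_const _) (hv l j)
  obtain ⟨V, h1, h2, h3⟩ := reg_inv hval
  have hUev : IsEv pr U := ev_add (od_mul hD h'od) (od_mul h'od hD)
  have hVev := ev_inv hUev h1 h2
  have hDU : D * U = U * D := by
    rw [hU, Matrix.mul_add, Matrix.add_mul, ← Matrix.mul_assoc, hDD, Matrix.zero_mul, zero_add,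
      Matrix.mul_assoc h', hDD, Matrix.mul_zero, add_zero, Matrix.mul_assoc]
  have hDV : D * V = V * D := by
    calc D * V = (V * U) * D * V := by rw [h2, Matrix.one_mul]
      _ = V * (U * D) * V := by simp only [Matrix.mul_assoc]
      _ = V * (D * U) * V := by rw [hDU]
      _ = V * D * (U * V) := by simp only [Matrix.mul_assoc]
      _ = V * D := by rw [h1, Matrix.mul_one]
  have h4 : D * (V * h') + V * h' * D = 1 := by
    rw [← Matrix.mul_assoc, hDV, Matrix.mul_assoc, Matrix.mul_assoc, ← Matrix.mul_add, ← hU, h2]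
  have h5 : IsOd pr (V * h') := ev_mul_od hVev h'od
  have h6 : ∀ i j, v.Reg ((V * h') i j) := reg_mul h3 fun i j => v.reg_const _
  have h7 : ∀ i j, v.Reg (D i j) := fun i j => Place.reg_of_val (hv i j)
  exact ⟨_, Hom.mk' hD hDD h5 h4, reg_mul (reg_mul h6 h7) h6⟩

/-- an integral even matrix with an integral inverse has a unit as determinant -/
theorem ord_de {I : Type} [Fintype I] {pr : I → Bool} {A B : Matrix I I K} (b : Bool)
    (hA : ∀ i j, v.Reg (A i j)) (hB : ∀ i j, v.Reg (B i j)) (hev : IsEv pr A) (h : A * B = 1) :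
    de pr b A ≠ 0 ∧ v.ord (de pr b A) = 0 := by
  have h1 : de pr b A * de pr b B = 1 := by rw [← de_mul b hev, h, de_one]
  have hA0 : de pr b A ≠ 0 := left_ne_zero_of_mul_eq_one h1
  have hB0 : de pr b B ≠ 0 := right_ne_zero_of_mul_eq_one h1
  have rA : v.Reg (de pr b A) := reg_det fun i j => hA _ _
  have rB : v.Reg (de pr b B) := reg_det fun i j => hB _ _
  have h2 := v.ord_mul _ _ hA0 hB0
  rw [h1, v.ord_one] at h2
  have h3 := rA.resolve_left hA0
  have h4 := rB.resolve_left hB0
  exact ⟨hA0, by omega⟩

theorem ord_prod {J : Type} (s : Finset J) (p : J → K) (hp : ∀ i, p i ≠ 0) :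
    v.ord (∏ i ∈ s, p i) = ∑ i ∈ s, v.ord (p i) := by
  induction s using Finset.induction_on with
  | empty => simp
  | insert a s ha ih =>
    rw [Finset.prod_insert ha, Finset.sum_insert ha, v.ord_mul _ _ (hp a)
      (Finset.prod_ne_zero_iff.2 fun i _ => hp i), ih]

end Pool.Agent.LibPK60.Tor
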