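import Pool.Agent.LibPK60.DefsV
import Pool.Agent.LibPK60.T3

/-!
The torsion of a complex of function fields which has exact reductions.
-/

open scoped Classical
open MvPolynomial

set_option linter.unusedSectionVars false

namespace Pool.Agent.LibPK60

open Pool.Agent.LibBH2 Pool.Agent.LibQC8 Pool.Agent.LibPK60.Tor

/-- the part of the statement at one place: a square-zero homotopy whose involution has the right
order -/
theorem tor_place {k K : Type} [Field k] [Field K] [Algebra k K] {I : Type} [Fintype I]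
    {pr : I → Bool} {D : Matrix I I K} (hD : IsOdd pr D) (hDD : D * D = 0)
    {v : Place k K} {p : I → K} (h : Good v pr D p) {R : Matrix I I k} (hR : IsOdd pr R)
    (hRR : R * R = 1) :
    ∃ H : Matrix I I K, Tor.Hom pr D H ∧
      de pr false (R.map (algebraMap k K) * (D + H)) ≠ 0 ∧
      v.ord (de pr false (R.map (algebraMap k K) * (D + H))) =
        ∑ i, (if pr i = true then -1 else 1) * v.ord (p i) := by
  obtain ⟨hp, C, h0, hC, hh0, hCH, hval⟩ := h
  set P : Matrix I I K := Matrix.diagonal p with hP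
  set Q : Matrix I I K := Matrix.diagonal (fun i => (p i)⁻¹) with hQ
  have hPQ : P * Q = 1 := by
    rw [hP, hQ, Matrix.diagonal_mul_diagonal, ← Matrix.diagonal_one]
    congr 1
    funext i
    exact mul_inv_cancel₀ (hp i)
  have hQP : Q * P = 1 := by
    rw [hP, hQ, Matrix.diagonal_mul_diagonal, ← Matrix.diagonal_one]
    congr 1
    funext i
    exact inv_mul_cancel₀ (hp i)
  have evP : IsEv pr P := ev_diag pr _
  have evQ : IsEv pr Q := ev_diag pr _
  have hD' : IsOd pr (P * D * Q) := od_mul_ev (ev_mul_od evP hD) evQ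
  have hDD' : P * D * Q * (P * D * Q) = 0 := by
    calc P * D * Q * (P * D * Q) = P * D * (Q * P) * D * Q := by simp only [Matrix.mul_assoc]
      _ = P * (D * D) * Q := by rw [hQP]; simp only [Matrix.mul_assoc, Matrix.mul_one]
      _ = 0 := by rw [hDD, Matrix.mul_zero, Matrix.zero_mul]
  have hv : ∀ i j, v.Zer ((P * D * Q) i j - algebraMap k K (C i j)) := by
    intro i j
    rw [hP, hQ, Matrix.mul_diagonal, Matrix.diagonal_mul]
    exact hval i j
  obtain ⟨F, hF, hreg⟩ := exists_hom hD' hDD' hh0 hCH hv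
  have hregD : ∀ i j, v.Reg ((P * D * Q) i j) := fun i j => Place.reg_of_val (hv i j)
  have hH : Tor.Hom pr D (Q * F * P) := by
    refine ⟨od_mul_ev (ev_mul_od evQ hF.od) evP, ?_, ?_⟩
    · calc Q * F * P * (Q * F * P) = Q * F * (P * Q) * F * P := by simp only [Matrix.mul_assoc]
        _ = Q * (F * F) * P := by rw [hPQ]; simp only [Matrix.mul_assoc, Matrix.mul_one]
        _ = 0 := by rw [hF.sq, Matrix.mul_zero, Matrix.zero_mul]
    · calc D * (Q * F * P) + Q * F * P * D
          = (Q * P) * D * (Q * F * P) + Q * F * P * D * (Q * P) := by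
            rw [hQP, Matrix.one_mul, Matrix.mul_one]
        _ = Q * (P * D * Q * F + F * (P * D * Q)) * P := by
            rw [Matrix.mul_add, Matrix.add_mul]; simp only [Matrix.mul_assoc]
        _ = 1 := by rw [hF.ht, Matrix.mul_one, hQP]
  refine ⟨Q * F * P, hH, ?_⟩
  set S : Matrix I I K := R.map (algebraMap k K) with hS
  have hSod : IsOd pr S := by
    intro s t e
    rw [hS, Matrix.map_apply, hR s t e, map_zero]
  have hSS : S * S = 1 := by
    rw [hS, ← Matrix.map_mul, hRR, Matrix.map_one _ (map_zero _) (map_one _)]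
  have hSreg : ∀ i j, v.Reg (S i j) := fun i j => v.reg_const _
  have e1 : D + Q * F * P = Q * (P * D * Q + F) * P := by
    calc D + Q * F * P = (Q * P) * D * (Q * P) + Q * F * P := by
          rw [hQP, Matrix.one_mul, Matrix.mul_one]
      _ = _ := by rw [Matrix.mul_add, Matrix.add_mul]; simp only [Matrix.mul_assoc]
  have e2 : S * (D + Q * F * P) = (S * Q * S) * (S * (P * D * Q + F)) * P := by
    rw [e1]
    calc S * (Q * (P * D * Q + F) * P) = S * Q * 1 * (P * D * Q + F) * P := by
          simp only [Matrix.mul_assoc, Matrix.one_mul]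
      _ = _ := by rw [← hSS]; simp only [Matrix.mul_assoc]
  have ev1 : IsEv pr (S * Q * S) := od_mul (od_mul_ev hSod evQ) hSod
  have hDF : IsOd pr (P * D * Q + F) := od_add hD' hF.od
  have ev2 : IsEv pr (S * (P * D * Q + F)) := od_mul hSod hDF
  have hu : S * (P * D * Q + F) * ((P * D * Q + F) * S) = 1 := by
    calc S * (P * D * Q + F) * ((P * D * Q + F) * S)
        = S * ((P * D * Q + F) * (P * D * Q + F)) * S := by simp only [Matrix.mul_assoc]
      _ = 1 := by rw [hF.inv hDD', Matrix.mul_one, hSS]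
  obtain ⟨u0, u1⟩ := ord_de (v := v) false (reg_mul hSreg (reg_add hregD hreg))
    (reg_mul (reg_add hregD hreg) hSreg) ev2 hu
  have hq : ∀ i, (p i)⁻¹ ≠ 0 := fun i => inv_ne_zero (hp i)
  have n1 : ∏ i ∈ Finset.univ.filter (fun i => pr i = true), (p i)⁻¹ ≠ 0 :=
    Finset.prod_ne_zero_iff.2 fun i _ => hq i
  have n2 : ∏ i ∈ Finset.univ.filter (fun i => pr i = false), p i ≠ 0 :=
    Finset.prod_ne_zero_iff.2 fun i _ => hp i
  have e3 : de pr false (S * (D + Q * F * P)) =
      (∏ i ∈ Finset.univ.filter (fun i => pr i = true), (p i)⁻¹) *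
        de pr false (S * (P * D * Q + F)) *
        ∏ i ∈ Finset.univ.filter (fun i => pr i = false), p i := by
    rw [e2, de_mul false (ev_mul ev1 ev2), de_mul false ev1, de_conj hSod hSS evQ, hQ, de_diag, hP,
      de_diag]
  rw [e3]
  refine ⟨mul_ne_zero (mul_ne_zero n1 u0) n2, ?_⟩
  rw [v.ord_mul _ _ (mul_ne_zero n1 u0) n2, v.ord_mul _ _ n1 u0, u1, ord_prod _ _ hq,
    ord_prod _ _ hp, add_zero]
  rw [← Finset.sum_filter_add_sum_filter_not Finset.univ (fun i => pr i = true)
    (fun i => (if pr i = true then (-1 : ℤ) else 1) * v.ord (p i))]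
  congr 1
  · refine Finset.sum_congr rfl fun i hi => ?_
    rw [if_pos (Finset.mem_filter.1 hi).2, v.ord_inv]
    ring
  · refine Finset.sum_congr (by ext i; simp) fun i hi => ?_
    rw [if_neg (Finset.mem_filter.1 hi).2, one_mul]

/-- the torsion of a complex with exact reduction -/
theorem tor {k K : Type} [Field k] [IsAlgClosed k] [Field K] [Algebra k K]
    (hK : IsFunctionField k K) {I : Type} [Fintype I]
    (pr : I → Bool) (D : Matrix I I K) (hD : IsOdd pr D) (hDD : D * D = 0)
    (h0 : ∃ (v : Place k K) (p : I → K), Good v pr D p) :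
    ∃ a : K, a ≠ 0 ∧ ∀ (v : Place k K) (p : I → K), Good v pr D p →
      v.ord a = ∑ i, (if pr i = true then -1 else 1) * v.ord (p i) := by
  have _ := hK
  obtain ⟨v0, p0, hg⟩ := h0
  obtain ⟨R, hR, hRR⟩ : ∃ R : Matrix I I k, IsOdd pr R ∧ R * R = 1 := by
    obtain ⟨hp, C, h0, hC, hh0, hCH, hval⟩ := hg
    have hCC : C * C = 0 := by
      ext i j
      have h1 : v0.Zer (algebraMap k K ((C * C) i j)) := by
        have h2 : ∀ l, v0.Zer ((p0 i * D i l * (p0 l)⁻¹) * (p0 l * D l j * (p0 j)⁻¹) -
            algebraMap k K (C i l * C l j)) := fun l => Place.val_mul (hval i l) (hval l j)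
        have h3 := zer_sum Finset.univ _ fun l _ => h2 l
        rw [Finset.sum_sub_distrib] at h3
        have h4 : ∑ l, (p0 i * D i l * (p0 l)⁻¹) * (p0 l * D l j * (p0 j)⁻¹) = 0 := by
          have h5 : ∀ l, (p0 i * D i l * (p0 l)⁻¹) * (p0 l * D l j * (p0 j)⁻¹) =
              p0 i * (p0 j)⁻¹ * (D i l * D l j) := by
            intro l
            have := hp l
            field_simp
          rw [Finset.sum_congr rfl fun l _ => h5 l, ← Finset.mul_sum, ← Matrix.mul_apply, hDD,
            Matrix.zero_apply, mul_zero]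
        rw [h4, zero_sub, ← map_sum] at h3
        have := h3.neg
        rwa [neg_neg, ← Matrix.mul_apply] at this
      rw [v0.zer_const_iff] at h1
      rw [h1, Matrix.zero_apply]
    have := Hom.mk' hC hCC hh0 hCH
    exact ⟨C + h0 * C * h0, od_add hC this.od, this.inv hCC⟩
  obtain ⟨H0, hH0, ha, -⟩ := tor_place hD hDD hg hR hRR
  refine ⟨_, ha, fun v p hvp => ?_⟩
  obtain ⟨H, hH, -, ho⟩ := tor_place hD hDD hvp hR hRR
  have hSod : IsOd pr (R.map (algebraMap k K)) := by
    intro s t e
    rw [Matrix.map_apply, hR s t e, map_zero]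
  rw [Hom.indep hD hDD hH0 hH hSod, ho]

end Pool.Agent.LibPK60
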